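import Pool.Agent.Zk42.UT.Grp
import Pool.Agent.Zk42.UC.Desc
import Pool.Agent.Zk42.UC.Main

/-! The `3`-descent on `y² = x³ + m²`. -/

set_option autoImplicit false

open WeierstrassCurve IsDedekindDomain NumberField
open scoped WithZero

namespace Pool.Agent.Zk42.UT

open Pool.Agent.Zk42

section alg

lemma third_point {K : Type} [Field K] {m x1 y1 x2 y2 l ν x3 : K} (h1 : y1 ^ 2 = x1 ^ 3 + m ^ 2)
    (h2 : y2 ^ 2 = x2 ^ 3 + m ^ 2) (hx : x1 ≠ x2) (hl : l * (x1 - x2) = y1 + y2)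
    (hν : ν = y1 - l * x1) (hx3 : x3 = l ^ 2 - x1 - x2) :
    x1 * x2 * x3 = ν ^ 2 - m ^ 2 ∧
      (y1 - m) * (-y2 - m) * (-(l * x3 + ν) + m) = (m - ν) ^ 3 ∧
      (y1 + m) * (-y2 + m) * (-(l * x3 + ν) - m) = -(ν + m) ^ 3 := by
  have hD : x1 - x2 ≠ 0 := sub_ne_zero.2 hx
  have E1 : x1 + x2 + x3 - l ^ 2 = 0 := by rw [hx3]; ring
  have hy1 : y1 = l * x1 + ν := by rw [hν]; ring
  have hy2 : -y2 = l * x2 + ν := by linear_combination hl - hν
  have E2 : x1 * x2 + x1 * x3 + x2 * x3 + 2 * l * ν = 0 := by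
    have : (x1 - x2) * (x1 * x2 + x1 * x3 + x2 * x3 + 2 * l * ν) = 0 := by
      rw [hx3]
      have e1 : y1 = l * x1 + ν := hy1
      have e2 : y2 = -(l * x2 + ν) := by linear_combination -hy2
      rw [e1] at h1
      rw [e2] at h2
      linear_combination h1 - h2
    exact (mul_eq_zero.1 this).resolve_left hD
  have E3 : x1 * x2 * x3 - (ν ^ 2 - m ^ 2) = 0 := by
    have e1 : y1 = l * x1 + ν := hy1
    rw [e1] at h1
    linear_combination (-1) * h1 - x1 ^ 2 * E1 + x1 * E2
  refine ⟨by linear_combination E3, ?_, ?_⟩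
  · rw [hy2]
    rw [hy1]
    linear_combination (-(m - ν) ^ 2 * l) * E1 + ((m - ν) * l ^ 2) * E2 - l ^ 3 * E3
  · rw [hy2]
    rw [hy1]
    linear_combination (-(m + ν) ^ 2 * l) * E1 + (-(m + ν) * l ^ 2) * E2 - l ^ 3 * E3

variable {K : Type} [Field K] [CharZero K] [DecidableEq K]

/-- division by `1 - ω` -/
lemma halve3 {m ω x y f g : K} (hm : m ≠ 0) (hω : ω ^ 2 + ω + 1 = 0)
    (Ω : P3 m →+ P3 m) (hΩ : ∀ x y h, ∃ h', Ω (.some x y h) = .some (ω * x) y h')
    (h : (crv3 m).toAffine.Nonsingular x y) (hg : y + m = g ^ 3) (hf : y - m = f ^ 3)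
    (hfg : f * g = x) : ∃ Q : P3 m, Affine.Point.some x y h = Q - Ω Q := by
  obtain ⟨N, hN⟩ : ∃ N, N = g ^ 2 + g * f + f ^ 2 := ⟨_, rfl⟩
  have hNm : N * (g - f) = 2 * m := by rw [hN]; linear_combination hf - hg
  have hN0 : N ≠ 0 := by
    rintro h0
    rw [h0, zero_mul] at hNm
    exact hm ((mul_eq_zero.1 hNm.symm).resolve_left two_ne_zero)
  have hω3 : ω ^ 3 = 1 := by linear_combination (ω - 1) * hω
  have hω0 : ω ≠ 0 := by
    rintro rfl
    norm_num at hω
  have hs : (2 * ω + 1) ^ 2 = -3 := by linear_combination 4 * hω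
  have hs0 : 2 * ω + 1 ≠ 0 := by
    intro h0
    rw [h0] at hs
    norm_num at hs
  obtain ⟨Y, hY⟩ : ∃ Y, Y = -((2 * ω + 1) * (g + f) * N / 2) := ⟨_, rfl⟩
  have hY2 : Y ^ 2 = -3 * (g + f) ^ 2 * N ^ 2 / 4 := by
    rw [hY]
    linear_combination ((g + f) ^ 2 * N ^ 2 / 4) * hs
  have hm2 : m = N * (g - f) / 2 := by rw [hNm]; ring
  have hq : Y ^ 2 = (ω * -N) ^ 3 + m ^ 2 := by
    rw [hY2, mul_pow, hω3, hm2, hN]
    ring
  have hq' : (-Y) ^ 2 = (ω ^ 2 * -N) ^ 3 + m ^ 2 := by
    have e : (ω ^ 2 * -N) ^ 3 = (ω ^ 3) ^ 2 * (-N) ^ 3 := by ring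
    have e' : (ω * -N) ^ 3 = ω ^ 3 * (-N) ^ 3 := by ring
    rw [e, hω3]
    rw [e', hω3] at hq
    rw [neg_sq, hq]
    ring
  have n1 := crv3_nonsing hm hq
  have n2 := crv3_nonsing hm hq'
  refine ⟨Affine.Point.some _ _ n1, ?_⟩
  obtain ⟨h', hh'⟩ := hΩ _ _ n1
  have hneg : -Ω (Affine.Point.some _ _ n1) = Affine.Point.some _ _ n2 := by
    rw [hh', Affine.Point.neg_some]
    simp only [negY3]
    congr 1
    ring
  rw [sub_eq_add_neg, hneg]
  have hx : ω * -N ≠ ω ^ 2 * -N := by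
    intro h0
    have h1 : ω * (ω - 1) * N = 0 := by linear_combination h0
    rcases mul_eq_zero.1 h1 with h2 | h2
    · rcases mul_eq_zero.1 h2 with h3 | h3
      · exact hω0 h3
      · have : ω = 1 := by linear_combination h3
        rw [this] at hω
        norm_num at hω
    · exact hN0 h2
  rw [Affine.Point.add_of_X_ne hx]
  have hsl : (crv3 m).toAffine.slope (ω * -N) (ω ^ 2 * -N) Y (-Y) = g + f := by
    rw [Affine.slope_of_X_ne hx, div_eq_iff (sub_ne_zero.2 hx), hY]
    linear_combination (-(g + f) * N) * hω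
  have hNe : -N = -(g ^ 2 + g * f + f ^ 2) := by rw [hN]
  congr 1
  · rw [hsl, addX3, ← hfg, hN]
    linear_combination (-(g ^ 2 + g * f + f ^ 2)) * hω
  · rw [hsl, addY3, hY, hN]
    have hy : y = (g ^ 3 + f ^ 3) / 2 := by linear_combination (hg + hf) / 2
    rw [hy]
    linear_combination ((g + f) * (g ^ 2 + g * f + f ^ 2)) * hω

/-- two points of the same class -/
lemma pair_rho {m ω x1 y1 x2 y2 τ a b : K} (hm : m ≠ 0) (hω : ω ^ 2 + ω + 1 = 0)
    (Ω : P3 m →+ P3 m) (hΩ : ∀ x y h, ∃ h', Ω (.some x y h) = .some (ω * x) y h')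
    (h1 : (crv3 m).toAffine.Nonsingular x1 y1) (h2 : (crv3 m).toAffine.Nonsingular x2 y2)
    (hx : x1 ≠ x2) (n1 : x1 ≠ 0) (n2 : x2 ≠ 0) (hτ : τ ≠ 0) (ha : a ≠ 0) (hb : b ≠ 0)
    (e1 : y1 - m = τ * a ^ 3) (e2 : y2 - m = τ * b ^ 3) :
    ∃ Q : P3 m, Affine.Point.some x1 y1 h1 = Affine.Point.some x2 y2 h2 + (Q - Ω Q) := by
  have q1 := crv3_eqn.1 h1.1
  have q2 := crv3_eqn.1 h2.1
  have q2' : (-y2) ^ 2 = x2 ^ 3 + m ^ 2 := by rw [neg_sq, q2]
  have h2' := crv3_nonsing hm q2'
  have hneg : -(Affine.Point.some x2 y2 h2) = Affine.Point.some x2 (-y2) h2' := by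
    rw [Affine.Point.neg_some]
    simp only [negY3]
  have hD : x1 - x2 ≠ 0 := sub_ne_zero.2 hx
  obtain ⟨l, hl⟩ : ∃ l, l = (y1 + y2) / (x1 - x2) := ⟨_, rfl⟩
  have hl' : l * (x1 - x2) = y1 + y2 := by rw [hl, div_mul_cancel₀ _ hD]
  obtain ⟨ν, hν⟩ : ∃ ν, ν = y1 - l * x1 := ⟨_, rfl⟩
  obtain ⟨x3, hx3⟩ : ∃ x3, x3 = l ^ 2 - x1 - x2 := ⟨_, rfl⟩
  obtain ⟨A, B, C⟩ := third_point q1 q2 hx hl' hν hx3
  -- the cube
  obtain ⟨r, hr⟩ : ∃ r, r = -(a * x2 / b) := ⟨_, rfl⟩
  have hr0 : r ≠ 0 := by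
    rw [hr]
    exact neg_ne_zero.2 (div_ne_zero (mul_ne_zero ha n2) hb)
  have hr3 : (y1 - m) * (-y2 - m) = r ^ 3 := by
    have e3 : (τ * b ^ 3) * (y2 + m) = x2 ^ 3 := by rw [← e2]; linear_combination q2
    have e4 : y2 + m = x2 ^ 3 / (τ * b ^ 3) := by
      rw [eq_div_iff (mul_ne_zero hτ (pow_ne_zero _ hb))]
      linear_combination e3
    have e5 : -y2 - m = -(x2 ^ 3 / (τ * b ^ 3)) := by rw [← e4]; ring
    rw [e1, e5, hr]
    field_simp
  have hsl : (crv3 m).toAffine.slope x1 x2 y1 (-y2) = l := by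
    rw [Affine.slope_of_X_ne hx, hl, sub_neg_eq_add]
  have hsum : Affine.Point.some x1 y1 h1 - Affine.Point.some x2 y2 h2 =
      Affine.Point.some x1 y1 h1 + Affine.Point.some x2 (-y2) h2' := by
    rw [sub_eq_add_neg, hneg]
  rw [Affine.Point.add_of_X_ne hx] at hsum
  have key : ∀ (X Y : K) (h : (crv3 m).toAffine.Nonsingular X Y), X = x3 → Y = -(l * x3 + ν) →
      ∃ Q : P3 m, Affine.Point.some X Y h = Q - Ω Q := by
    rintro X Y h rfl rfl
    refine halve3 hm hω Ω hΩ h (g := (m - ν) / r) (f := -(ν + m) * r / (x1 * x2)) ?_ ?_ ?_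
    · rw [div_pow, eq_div_iff (pow_ne_zero _ hr0), ← hr3, ← B]
      ring
    · have e3 : (y1 + m) * (-y2 + m) * r ^ 3 = (x1 * x2) ^ 3 := by
        rw [← hr3]
        linear_combination (y2 ^ 2 - m ^ 2) * q1 + x1 ^ 3 * q2
      have hrr : r ^ 3 ≠ 0 := pow_ne_zero _ hr0
      have hxx : (x1 * x2) ^ 3 ≠ 0 := pow_ne_zero _ (mul_ne_zero n1 n2)
      rw [div_pow, eq_div_iff hxx]
      have e4 : (-(ν + m) * r) ^ 3 = -(ν + m) ^ 3 * r ^ 3 := by ring
      rw [e4, ← C]
      linear_combination (-(-(l * X + ν) - m)) * e3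
    · have hxx : x1 * x2 ≠ 0 := mul_ne_zero n1 n2
      field_simp
      linear_combination -A
  suffices h : ∃ Q : P3 m, Affine.Point.some x1 y1 h1 - Affine.Point.some x2 y2 h2 = Q - Ω Q by
    obtain ⟨Q, hQ⟩ := h
    exact ⟨Q, by rw [← hQ]; abel⟩
  rw [hsum]
  apply key
  · rw [hsl, addX3, hx3]
  · rw [hsl, addY3, hν, hx3]
    ring

/-- `1 + ω + ω²` is zero -/
lemma omg_sum {m ω : K} (hm : m ≠ 0) (hω : ω ^ 2 + ω + 1 = 0) (Ω : P3 m →+ P3 m)
    (hΩ : ∀ x y h, ∃ h', Ω (.some x y h) = .some (ω * x) y h') (P : P3 m) :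
    P + Ω P + Ω (Ω P) = 0 := by
  match P with
  | 0 => simp
  | .some x y h =>
    obtain ⟨h1, e1⟩ := hΩ x y h
    obtain ⟨h2, e2⟩ := hΩ _ _ h1
    rw [e1, e2]
    have q := crv3_eqn.1 h.1
    have hneg : -(Affine.Point.some (ω * (ω * x)) y h2) =
        Affine.Point.some (ω * (ω * x)) (-y) (by
          have := (Affine.nonsingular_neg (W' := (crv3 m).toAffine) (ω * (ω * x)) y).2 h2
          rwa [negY3] at this) := by
      rw [Affine.Point.neg_some]
      simp only [negY3]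
    rw [← neg_neg (Affine.Point.some (ω * (ω * x)) y h2), add_neg_eq_zero, hneg]
    by_cases hx : x = 0
    · subst hx
      have hy0 : y ≠ 0 := by
        rintro rfl
        apply hm
        have : m ^ 2 = 0 := by linear_combination -q
        exact pow_eq_zero_iff (two_ne_zero) |>.1 this
      have hyn : y ≠ (crv3 m).toAffine.negY (ω * 0) y := by
        rw [negY3]
        intro h0
        apply hy0
        have : 2 * y = 0 := by linear_combination h0
        exact (mul_eq_zero.1 this).resolve_left two_ne_zero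
      rw [Affine.Point.add_of_Y_ne hyn]
      have hsl : (crv3 m).toAffine.slope 0 (ω * 0) y y = 0 := by
        rw [Affine.slope_of_Y_ne (by rw [mul_zero]) hyn]
        simp [crv3]
      congr 1
      · rw [hsl, addX3]
        ring
      · rw [hsl, addY3]
        ring
    · have hxx : x ≠ ω * x := by
        intro h0
        have h3 : (ω - 1) * x = 0 := by linear_combination -h0
        rcases mul_eq_zero.1 h3 with h4 | h4
        · have : ω = 1 := by linear_combination h4
          rw [this] at hω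
          norm_num at hω
        · exact hx h4
      rw [Affine.Point.add_of_X_ne hxx]
      have hsl : (crv3 m).toAffine.slope x (ω * x) y y = 0 := by
        rw [Affine.slope_of_X_ne hxx, sub_self, zero_div]
      congr 1
      · rw [hsl, addX3]
        linear_combination (-x) * hω
      · rw [hsl, addY3]
        ring

end alg

section desc

variable {K : Type} [Field K] [NumberField K]

lemma cube_ord (v : HeightOneSpectrum (𝓞 K)) {x y m : K} (hm : m ≠ 0) (hx : x ≠ 0)
    (h : y ^ 2 = x ^ 3 + m ^ 2) (h2 : v.valuation K (2 : K) = 1)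
    (hv : ∃ g : ℤᵐ⁰, v.valuation K m = g ^ 3) : ∃ g : ℤᵐ⁰, v.valuation K (y - m) = g ^ 3 := by
  have e : (y - m) * (y + m) = x ^ 3 := by linear_combination h
  have ha : y - m ≠ 0 := by
    intro h0
    rw [h0, zero_mul] at e
    exact hx (pow_eq_zero_iff (by norm_num) |>.1 e.symm)
  have hb : y + m = (y - m) + 2 * m := by ring
  have hv2m : v.valuation K (2 * m) = v.valuation K m := by rw [map_mul, h2, one_mul]
  have hs := congrArg (v.valuation K) e
  rw [map_mul, map_pow] at hs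
  have hva : v.valuation K (y - m) ≠ 0 := (Valuation.ne_zero_iff _).2 ha
  have hvm : v.valuation K m ≠ 0 := (Valuation.ne_zero_iff _).2 hm
  have hvx : v.valuation K x ≠ 0 := (Valuation.ne_zero_iff _).2 hx
  obtain ⟨g, hg⟩ := hv
  rcases lt_trichotomy (v.valuation K (y - m)) (v.valuation K m) with h1 | h1 | h1
  · have h3 : v.valuation K (y + m) = v.valuation K m := by
      rw [hb, Valuation.map_add_eq_of_lt_right _ (by rw [hv2m]; exact h1), hv2m]
    rw [h3, hg] at hs
    have hg0 : g ≠ 0 := by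
      rintro rfl
      rw [hg] at hvm
      exact hvm (by norm_num)
    refine ⟨v.valuation K x / g, ?_⟩
    rw [div_pow, ← hs]
    field_simp
  · exact ⟨g, by rw [h1, hg]⟩
  · have h3 : v.valuation K (y + m) = v.valuation K (y - m) := by
      rw [hb, Valuation.map_add_eq_of_lt_left _ (by rw [hv2m]; exact h1)]
    rw [h3] at hs
    refine ⟨v.valuation K (y - m) / v.valuation K x, ?_⟩
    rw [div_pow, ← hs]
    field_simp

theorem descent3 [DecidableEq K] {m ω : K} (hm : m ≠ 0) (hω : ω ^ 2 + ω + 1 = 0)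
    {T : Finset K} (hT0 : ∀ t ∈ T, t ≠ 0)
    (hcl : ∀ x y : K, x ≠ 0 → y ^ 2 = x ^ 3 + m ^ 2 →
      ∃ t ∈ T, ∃ r : K, r ≠ 0 ∧ y - m = t * r ^ 3) :
    ∃ U : Finset (P3 m), U.card ≤ (2 * T.card + 3) ^ 2 ∧
      ∀ P : P3 m, ∃ u ∈ U, ∃ Q : P3 m, P = u + (Q + Q + Q) := by
  classical
  have hω3 : ω ^ 3 = 1 := by linear_combination (ω - 1) * hω
  obtain ⟨Ω, hΩ⟩ := exists_omg hm hω3
  -- the classes modulo `1 - ω`
  obtain ⟨U, hUc, hU⟩ : ∃ U : Finset (P3 m), U.card ≤ 2 * T.card + 3 ∧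
      ∀ P : P3 m, ∃ u ∈ U, ∃ Q : P3 m, P = u + (Q - Ω Q) := by
    let Cl : K → P3 m → Prop := fun t P => ∃ x y h, P = Affine.Point.some x y h ∧ x ≠ 0 ∧
      ∃ r : K, r ≠ 0 ∧ y - m = t * r ^ 3
    let rep : K → P3 m := fun t => if h : ∃ P, Cl t P then Classical.choose h else 0
    have s1 : (crv3 m).toAffine.Nonsingular 0 m := crv3_nonsing hm (by ring)
    have s2 : (crv3 m).toAffine.Nonsingular 0 (-m) := crv3_nonsing hm (by ring)
    let S : Finset (P3 m) := {0, Affine.Point.some _ _ s1, Affine.Point.some _ _ s2}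
    refine ⟨(T.image rep ∪ T.image (fun t => -rep t)) ∪ S, ?_, fun P => ?_⟩
    · refine (Finset.card_union_le _ _).trans (Nat.add_le_add ?_ Finset.card_le_three)
      refine (Finset.card_union_le _ _).trans ?_
      have h1 := Finset.card_image_le (s := T) (f := rep)
      have h2 := Finset.card_image_le (s := T) (f := fun t => -rep t)
      omega
    · match P with
      | 0 =>
        refine ⟨0, Finset.mem_union_right _ (by simp [S]), 0, by simp⟩
      | .some x y h =>
        have q := crv3_eqn.1 h.1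
        by_cases hx : x = 0
        · subst hx
          have hy : y = m ∨ y = -m := by
            apply sq_eq_sq_iff_eq_or_eq_neg.1
            rw [q]
            ring
          rcases hy with hy | hy
          · subst hy
            exact ⟨Affine.Point.some _ _ s1, Finset.mem_union_right _ (by simp [S]), 0, by simp⟩
          · subst hy
            exact ⟨Affine.Point.some _ _ s2, Finset.mem_union_right _ (by simp [S]), 0, by simp⟩
        · obtain ⟨t, ht, r, hr, er⟩ := hcl x y hx q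
          have hex : ∃ P, Cl t P := ⟨_, x, y, h, rfl, hx, r, hr, er⟩
          have hrep : rep t = Classical.choose hex := by
            simp only [rep]
            rw [dif_pos hex]
          obtain ⟨x', y', h', hR, hx', r', hr', er'⟩ := Classical.choose_spec hex
          rw [← hrep] at hR
          by_cases hxx : x = x'
          · subst hxx
            have q' := crv3_eqn.1 h'.1
            have hy : y = y' ∨ y = -y' := by
              apply sq_eq_sq_iff_eq_or_eq_neg.1
              rw [q, q']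
            rcases hy with hy | hy
            · subst hy
              refine ⟨rep t, Finset.mem_union_left _ (Finset.mem_union_left _
                (Finset.mem_image_of_mem _ ht)), 0, ?_⟩
              rw [hR]
              simp
            · refine ⟨-rep t, Finset.mem_union_left _ (Finset.mem_union_right _
                (Finset.mem_image_of_mem (fun t => -rep t) ht)), 0, ?_⟩
              rw [hR, Affine.Point.neg_some]
              simp only [negY3, map_zero, sub_zero, add_zero]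
              congr 1
          · obtain ⟨Q, hQ⟩ := pair_rho hm hω Ω hΩ h h' hxx hx hx' (hT0 t ht) hr hr' er er'
            refine ⟨rep t, Finset.mem_union_left _ (Finset.mem_union_left _
              (Finset.mem_image_of_mem _ ht)), Q, ?_⟩
            rw [hR]
            exact hQ
  refine ⟨(U ×ˢ U).image fun p => p.1 + (p.2 - Ω p.2), ?_, fun P => ?_⟩
  · refine Finset.card_image_le.trans ?_
    rw [Finset.card_product, pow_two]
    exact Nat.mul_le_mul hUc hUc
  · obtain ⟨u, hu, Q, hQ⟩ := hU P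
    obtain ⟨u', hu', Q', hQ'⟩ := hU Q
    refine ⟨u + (u' - Ω u'), Finset.mem_image.2 ⟨(u, u'), Finset.mem_product.2 ⟨hu, hu'⟩, rfl⟩,
      -Ω Q', ?_⟩
    have h1 := omg_sum hm hω Ω hΩ Q'
    have h2 : Ω (Ω Q') = -(Q' + Ω Q') := by
      rw [eq_neg_iff_add_eq_zero, add_comm]
      exact h1
    rw [hQ]
    conv_lhs => rw [hQ']
    rw [map_add, map_sub, h2]
    abel

end desc

end Pool.Agent.Zk42.UT
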