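import Pool.Agent.Zk42.UT.Loc
import Pool.Agent.Zk42.UV.Gap

/-! The gap principle for the cubic classes. -/

set_option autoImplicit false

namespace Pool.Agent.Zk42.UT

open Pool.Agent.Zk42.UC Pool.Agent.Zk42.UG Pool.Agent.Zk42.UV Finset Polynomial
  Pool.Agent.H437R2.Man Pool.Agent.H437R2.Man.Phi Height Height.AdmissibleAbsValues

/-- the coordinate -/
def yc {L : Type} [Field L] (z₁ z₂ z₃ t : L) : L :=
  2 * ((z₃ - z₁) * (z₃ - z₂)) / (t - z₃) + ((z₃ - z₁) + (z₃ - z₂))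

lemma yc_sq {L : Type} [Field L] {z₁ z₂ z₃ t : L} (ht : t ≠ z₃) :
    yc z₁ z₂ z₃ t ^ 2 = 4 * ((z₃ - z₁) * (z₃ - z₂)) * ((t - z₁) * (t - z₂) / (t - z₃) ^ 2) +
      (z₂ - z₁) ^ 2 := by
  have h : t - z₃ ≠ 0 := sub_ne_zero.2 ht
  unfold yc
  field_simp
  ring

lemma yc_inj {L : Type} [Field L] [CharZero L] {z₁ z₂ z₃ t t' : L} (h1 : z₁ ≠ z₃) (h2 : z₂ ≠ z₃)
    (ht : t ≠ z₃) (ht' : t' ≠ z₃) (h : yc z₁ z₂ z₃ t = yc z₁ z₂ z₃ t') : t = t' := by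
  have a1 : z₃ - z₁ ≠ 0 := sub_ne_zero.2 h1.symm
  have a2 : z₃ - z₂ ≠ 0 := sub_ne_zero.2 h2.symm
  have a3 : t - z₃ ≠ 0 := sub_ne_zero.2 ht
  have a4 : t' - z₃ ≠ 0 := sub_ne_zero.2 ht'
  unfold yc at h
  have h3 := add_right_cancel h
  rw [div_eq_div_iff a3 a4] at h3
  have h4 := mul_left_cancel₀ (mul_ne_zero two_ne_zero (mul_ne_zero a1 a2)) h3
  linear_combination -h4

section loc

variable {L : Type} [Field L] [DecidableEq L] {v : AbsoluteValue L ℝ} {D : ℝ} {d : ℕ} {μ : L}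

/-- two of the points repel -/
lemma local_pair3 (hadd : ∀ x y, v (x + y) ≤ D * max (v x) (v y)) (hD : 1 ≤ D)
    (hμ : IsPrimitiveRoot μ d) (hd : 0 < d) (h2 : 1 ≤ D * v (2 : L)) (h3 : 1 ≤ D * v (3 : L))
    (hr : ∀ ζ ζ' : L, ζ ^ d = 1 → ζ' ^ d = 1 → ζ ≠ ζ' → 1 ≤ D * v (ζ - ζ'))
    (hr' : ∀ ζ ζ' : L, ζ ^ d = 1 → ζ' ^ d = 1 → v (ζ - ζ') ≤ D)
    {ω : L} (hω : ω ^ 2 + ω + 1 = 0)
    {z₁ z₂ z₃ : L} (hz₁ : z₁ ^ d = 1) (hz₂ : z₂ ^ d = 1) (hz₃ : z₃ ^ d = 1)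
    (n12 : z₁ ≠ z₂) (n13 : z₁ ≠ z₃) (n23 : z₂ ≠ z₃)
    (hc : ∀ ζ : L, ζ ^ d = 1 → v (yc z₁ z₂ z₃ ζ) ≤ D ∧
      (yc z₁ z₂ z₃ ζ ≠ 0 → 1 ≤ D * v (yc z₁ z₂ z₃ ζ)))
    {Y : Finset L} (hY : 3 * d < Y.card) {x : L → L}
    (hx : ∀ t ∈ Y, yc z₁ z₂ z₃ t ^ 2 = x t ^ 3 + (z₂ - z₁) ^ 2)
    (hinj : ∀ t ∈ Y, ∀ t' ∈ Y, t ≠ t' → x t ≠ x t') (hz : ∀ t ∈ Y, t ≠ z₃) {α : ℝ} (hα : 0 < α)
    (hYα : ∀ t ∈ Y, v (t ^ d - 1) * α ≤ D ^ 3) :
    α ≤ D ^ (2 * d + 183) ∨ ∃ t ∈ Y, ∃ t' ∈ Y, t ≠ t' ∧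
      α ≤ D ^ (2 * d + 183) *
        v (xG (z₂ - z₁) (x t) (yc z₁ z₂ z₃ t) (x t') (yc z₁ z₂ z₃ t')) ^ 3 := by
  have hD0 : 0 < D := by linarith
  set ε : ℝ := D ^ (2 * d + 3) / α with hε
  have hε0 : 0 ≤ ε := by positivity
  obtain ⟨ρ, hρ0, hρ3⟩ : ∃ ρ : ℝ, 0 ≤ ρ ∧ ρ ^ 3 = ε :=
    ⟨ε ^ (1 / 3 : ℝ), Real.rpow_nonneg hε0 _, by
      rw [← Real.rpow_natCast, ← Real.rpow_mul hε0]
      norm_num⟩
  rcases le_or_gt 1 (D ^ 60 * ρ) with hc1 | hc1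
  · left
    have h4 : 1 ≤ (D ^ 60 * ρ) ^ 3 := one_le_pow₀ hc1
    have e : (D ^ 60 * ρ) ^ 3 = D ^ 180 * ρ ^ 3 := by ring
    rw [e, hρ3, hε, ← mul_div_assoc, le_div_iff₀ hα, one_mul, ← pow_add] at h4
    refine h4.trans (pow_le_pow_right₀ hD (by omega))
  right
  have hpow : ∀ n : ℕ, n ≤ 60 → D ^ n * ρ < 1 := fun n hn =>
    lt_of_le_of_lt (by gcongr) hc1
  have hρ1 : ρ ≤ 1 := by have := hpow 0 (by norm_num); linarith
  have hroot : ∀ t ∈ Y, ∃ ζ : L, ζ ^ d = 1 ∧ v (t - ζ) ≤ ρ ^ 3 := by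
    intro t ht
    obtain ⟨ζ, hζ, h⟩ := nearest hadd hD hμ hd hr t
    refine ⟨ζ, hζ, h.trans ?_⟩
    rw [hρ3, hε, le_div_iff₀ hα]
    calc D ^ (2 * d) * v (t ^ d - 1) * α = D ^ (2 * d) * (v (t ^ d - 1) * α) := by ring
      _ ≤ D ^ (2 * d) * D ^ 3 := by gcongr; exact hYα t ht
      _ = _ := by ring
  choose! g hg1 hg2 using hroot
  obtain ⟨ζ, hζm, hfib⟩ := exists_lt_card_fiber_of_mul_lt_card_of_maps_to (s := Y)
    (t := nthRootsFinset d (1 : L)) (f := g) (n := 3)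
    (fun t ht => (mem_roots hd).2 (hg1 t ht)) (by
      rw [hμ.card_nthRootsFinset]
      omega)
  have hζ := (mem_roots hd).1 hζm
  obtain ⟨t₁, m₁, t₂, m₂, t₃, m₃, t₄, m₄, m12, m13, m14, m23, m24, m34⟩ := three_lt_card.1 hfib
  rw [mem_filter] at m₁ m₂ m₃ m₄
  obtain ⟨m₁, e₁⟩ := m₁
  obtain ⟨m₂, e₂⟩ := m₂
  obtain ⟨m₃, e₃⟩ := m₃
  obtain ⟨m₄, e₄⟩ := m₄
  have b₁ : v (t₁ - ζ) ≤ ρ ^ 3 := e₁ ▸ hg2 t₁ m₁
  have b₂ : v (t₂ - ζ) ≤ ρ ^ 3 := e₂ ▸ hg2 t₂ m₂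
  have b₃ : v (t₃ - ζ) ≤ ρ ^ 3 := e₃ ▸ hg2 t₃ m₃
  have b₄ : v (t₄ - ζ) ≤ ρ ^ 3 := e₄ ▸ hg2 t₄ m₄
  have fin : ∀ {t t' : L}, t ∈ Y → t' ∈ Y → t ≠ t' →
      1 ≤ D ^ 60 * ρ * v (xG (z₂ - z₁) (x t) (yc z₁ z₂ z₃ t) (x t') (yc z₁ z₂ z₃ t')) →
      ∃ t ∈ Y, ∃ t' ∈ Y, t ≠ t' ∧ α ≤ D ^ (2 * d + 183) *
        v (xG (z₂ - z₁) (x t) (yc z₁ z₂ z₃ t) (x t') (yc z₁ z₂ z₃ t')) ^ 3 := by
    intro t t' ht ht' hne h
    refine ⟨t, ht, t', ht', hne, ?_⟩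
    set G := v (xG (z₂ - z₁) (x t) (yc z₁ z₂ z₃ t) (x t') (yc z₁ z₂ z₃ t')) with hG
    have hG0 : 0 ≤ G := v.nonneg _
    have h4 : 1 ≤ (D ^ 60 * ρ * G) ^ 3 := one_le_pow₀ h
    have e : (D ^ 60 * ρ * G) ^ 3 = (D ^ (2 * d + 183) * G ^ 3) / α := by
      have e5 : (D ^ 60 * ρ * G) ^ 3 = D ^ 180 * ρ ^ 3 * G ^ 3 := by ring
      rw [e5, hρ3, hε]
      ring
    rw [e, le_div_iff₀ hα, one_mul] at h4
    exact h4
  -- bounds for the fixed quantities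
  have A1 : v (z₃ - z₁) ≤ D := hr' _ _ hz₃ hz₁
  have A2 : v (z₃ - z₂) ≤ D := hr' _ _ hz₃ hz₂
  have A1' : 1 ≤ D * v (z₃ - z₁) := hr _ _ hz₃ hz₁ n13.symm
  have A2' : 1 ≤ D * v (z₃ - z₂) := hr _ _ hz₃ hz₂ n23.symm
  have N1 : v (z₂ - z₁) ≤ D := hr' _ _ hz₂ hz₁
  have N1' : 1 ≤ D * v (z₂ - z₁) := hr _ _ hz₂ hz₁ n12.symm
  set Q : L := 2 * ((z₃ - z₁) * (z₃ - z₂)) with hQ
  have v2 : v (2 : L) ≤ D := two_le hadd
  have q1 : v Q ≤ D ^ 3 := by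
    rw [hQ, map_mul, map_mul]
    calc v 2 * (v (z₃ - z₁) * v (z₃ - z₂)) ≤ D * (D * D) := by gcongr
      _ = _ := by ring
  have q2 : 1 ≤ D ^ 3 * v Q := by
    rw [hQ, map_mul, map_mul]
    calc 1 ≤ (D * v 2) * ((D * v (z₃ - z₁)) * (D * v (z₃ - z₂))) :=
          one_le_mul_of_one_le_of_one_le h2 (one_le_mul_of_one_le_of_one_le A1' A2')
      _ = _ := by ring
  have hS : v ((z₃ - z₁) + (z₃ - z₂)) ≤ D ^ 2 := by
    refine (hadd _ _).trans ?_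
    calc D * max (v (z₃ - z₁)) (v (z₃ - z₂)) ≤ D * D := by gcongr; exact max_le A1 A2
      _ = _ := by ring
  by_cases c3 : ζ = z₃
  · subst c3
    refine fin m₁ m₂ m12 ?_
    have big : ∀ t, t ≠ ζ → v (t - ζ) ≤ ρ ^ 3 → 1 ≤ D ^ 8 * ρ ^ 3 * v (yc z₁ z₂ ζ t) := by
      intro t htζ ht
      have ht0 : 0 < v (t - ζ) := v.pos (sub_ne_zero.2 htζ)
      have h4 := hadd (yc z₁ z₂ ζ t) (-((ζ - z₁) + (ζ - z₂)))
      have e : yc z₁ z₂ ζ t + -((ζ - z₁) + (ζ - z₂)) = Q / (t - ζ) := by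
        unfold yc
        rw [hQ]
        ring
      rw [e, v.map_neg, map_div₀] at h4
      have h5 : 1 ≤ D ^ 3 * ρ ^ 3 * (v Q / v (t - ζ)) := by
        rw [mul_div_assoc', le_div_iff₀ ht0, one_mul]
        calc v (t - ζ) ≤ ρ ^ 3 * 1 := by rw [mul_one]; exact ht
          _ ≤ ρ ^ 3 * (D ^ 3 * v Q) := by gcongr
          _ = _ := by ring
      have h6 : 1 ≤ D ^ 4 * ρ ^ 3 * max (v (yc z₁ z₂ ζ t)) (v ((ζ - z₁) + (ζ - z₂))) := by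
        calc 1 ≤ D ^ 3 * ρ ^ 3 * (v Q / v (t - ζ)) := h5
          _ ≤ D ^ 3 * ρ ^ 3 * (D * max (v (yc z₁ z₂ ζ t)) (v ((ζ - z₁) + (ζ - z₂)))) := by gcongr
          _ = _ := by ring
      rcases le_total (v ((ζ - z₁) + (ζ - z₂))) (v (yc z₁ z₂ ζ t)) with h7 | h7
      · rw [max_eq_left h7] at h6
        refine h6.trans ?_
        have := v.nonneg (yc z₁ z₂ ζ t)
        gcongr
        norm_num
      · rw [max_eq_right h7] at h6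
        exfalso
        have : D ^ 4 * ρ ^ 3 * v ((ζ - z₁) + (ζ - z₂)) < 1 := by
          calc D ^ 4 * ρ ^ 3 * v ((ζ - z₁) + (ζ - z₂)) ≤ D ^ 4 * ρ ^ 3 * D ^ 2 := by gcongr
            _ = (D ^ 6 * ρ) * (ρ * ρ) := by ring
            _ ≤ (D ^ 6 * ρ) * (1 * 1) := by gcongr
            _ = D ^ 6 * ρ := by ring
            _ < 1 := hpow 6 (by norm_num)
        linarith
    exact origin_pair hadd hD hρ0 hc1 N1 (hx t₁ m₁) (hx t₂ m₂) (hinj _ m₁ _ m₂ m12)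
      (big _ (hz _ m₁) b₁) (big _ (hz _ m₂) b₂)
  -- away from the origin
  obtain ⟨hc2, hc3⟩ := hc ζ hζ
  set c := yc z₁ z₂ z₃ ζ with hcdef
  have hζ3 : 1 ≤ D * v (ζ - z₃) := hr _ _ hζ hz₃ c3
  have hζ0 : ζ - z₃ ≠ 0 := sub_ne_zero.2 c3
  have near : ∀ t, t ≠ z₃ → v (t - ζ) ≤ ρ ^ 3 → v (yc z₁ z₂ z₃ t - c) ≤ D ^ 6 * ρ ^ 3 := by
    intro t ht3 ht
    have ht0 : t - z₃ ≠ 0 := sub_ne_zero.2 ht3
    have h4 : 1 ≤ D ^ 2 * v (t - z₃) := by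
      have h5 := hadd (t - z₃) (-(t - ζ))
      have e : t - z₃ + -(t - ζ) = ζ - z₃ := by ring
      rw [e, v.map_neg] at h5
      rcases le_total (v (t - ζ)) (v (t - z₃)) with h6 | h6
      · rw [max_eq_left h6] at h5
        calc 1 ≤ D * v (ζ - z₃) := hζ3
          _ ≤ D * (D * v (t - z₃)) := by gcongr
          _ = _ := by ring
      · rw [max_eq_right h6] at h5
        exfalso
        have : D * v (ζ - z₃) < 1 := by
          calc D * v (ζ - z₃) ≤ D * (D * v (t - ζ)) := by gcongr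
            _ ≤ D * (D * ρ ^ 3) := by gcongr
            _ = (D ^ 2 * ρ) * (ρ * ρ) := by ring
            _ ≤ (D ^ 2 * ρ) * (1 * 1) := by gcongr
            _ = D ^ 2 * ρ := by ring
            _ < 1 := hpow 2 (by norm_num)
        linarith
    have e : yc z₁ z₂ z₃ t - c = -(Q * (t - ζ) / ((t - z₃) * (ζ - z₃))) := by
      rw [hcdef, hQ]
      unfold yc
      field_simp
      ring
    rw [e, v.map_neg, map_div₀, map_mul v Q, map_mul v (t - z₃),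
      div_le_iff₀ (mul_pos (v.pos ht0) (v.pos hζ0))]
    calc v Q * v (t - ζ) ≤ D ^ 3 * ρ ^ 3 := by gcongr
      _ = D ^ 3 * ρ ^ 3 * 1 := (mul_one _).symm
      _ ≤ D ^ 3 * ρ ^ 3 * ((D ^ 2 * v (t - z₃)) * (D * v (ζ - z₃))) := by
          gcongr
          exact one_le_mul_of_one_le_of_one_le h4 hζ3
      _ = _ := by ring
  have hρρ : ρ ^ 3 ≤ ρ := by
    calc ρ ^ 3 = ρ * (ρ * ρ) := by ring
      _ ≤ ρ * (1 * 1) := by gcongr
      _ = ρ := by ring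
  have near8 : ∀ t, t ≠ z₃ → v (t - ζ) ≤ ρ ^ 3 → v (yc z₁ z₂ z₃ t - c) ≤ D ^ 8 * ρ := by
    intro t ht3 ht
    calc _ ≤ D ^ 6 * ρ ^ 3 := near t ht3 ht
      _ ≤ D ^ 8 * ρ := by gcongr; norm_num
  have ysmall : ∀ t, t ≠ z₃ → v (t - ζ) ≤ ρ ^ 3 → v (yc z₁ z₂ z₃ t) ≤ D ^ 2 := by
    intro t ht3 ht
    have h4 := hadd (yc z₁ z₂ z₃ t - c) c
    rw [sub_add_cancel] at h4
    refine h4.trans ?_
    have h5 : v (yc z₁ z₂ z₃ t - c) ≤ D := (near8 t ht3 ht).trans ((hpow 8 (by norm_num)).le.trans hD)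
    calc D * max (v (yc z₁ z₂ z₃ t - c)) (v c) ≤ D * D := by gcongr; exact max_le h5 hc2
      _ = _ := by ring
  have cubes : ∀ t t', t ∈ Y → t' ∈ Y → v (t - ζ) ≤ ρ ^ 3 → v (t' - ζ) ≤ ρ ^ 3 →
      v (x t ^ 3 - x t' ^ 3) ≤ (D ^ 4 * ρ) ^ 3 := by
    intro t t' ht ht' k k'
    have e : x t ^ 3 - x t' ^ 3 = (yc z₁ z₂ z₃ t - yc z₁ z₂ z₃ t') *
        (yc z₁ z₂ z₃ t + yc z₁ z₂ z₃ t') := by
      linear_combination hx t' ht' - hx t ht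
    rw [e, map_mul]
    have h4 : v (yc z₁ z₂ z₃ t - yc z₁ z₂ z₃ t') ≤ D ^ 7 * ρ ^ 3 := by
      have h5 := hadd (yc z₁ z₂ z₃ t - c) (-(yc z₁ z₂ z₃ t' - c))
      have e : yc z₁ z₂ z₃ t - c + -(yc z₁ z₂ z₃ t' - c) = yc z₁ z₂ z₃ t - yc z₁ z₂ z₃ t' := by
        ring
      rw [e, v.map_neg] at h5
      refine h5.trans ?_
      calc _ ≤ D * (D ^ 6 * ρ ^ 3) := by
            gcongr
            exact max_le (near t (hz t ht) k) (near t' (hz t' ht') k')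
        _ = _ := by ring
    have h6 : v (yc z₁ z₂ z₃ t + yc z₁ z₂ z₃ t') ≤ D ^ 3 := by
      refine (hadd _ _).trans ?_
      calc _ ≤ D * D ^ 2 := by
            gcongr
            exact max_le (ysmall t (hz t ht) k) (ysmall t' (hz t' ht') k')
        _ = _ := by ring
    calc _ ≤ (D ^ 7 * ρ ^ 3) * D ^ 3 := by gcongr
      _ = D ^ 10 * ρ ^ 3 := by ring
      _ ≤ D ^ 12 * ρ ^ 3 := by gcongr; norm_num
      _ = _ := by ring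
  have hfin : ∀ t t', t ∈ Y → t' ∈ Y → t ≠ t' → v (t - ζ) ≤ ρ ^ 3 → v (t' - ζ) ≤ ρ ^ 3 →
      v (x t - x t') ≤ D * (D ^ 4 * ρ) → ∃ t ∈ Y, ∃ t' ∈ Y, t ≠ t' ∧ α ≤ D ^ (2 * d + 183) *
        v (xG (z₂ - z₁) (x t) (yc z₁ z₂ z₃ t) (x t') (yc z₁ z₂ z₃ t')) ^ 3 := by
    intro t t' ht ht' hne k k' hxx
    refine fin ht ht' hne ?_
    refine close_pair hadd hD hρ0 hc1 N1 N1' h2 h3 hc2 hc3 (hx t ht) (hx t' ht')
      (hinj t ht t' ht' hne) (near8 t (hz t ht) k) (near8 t' (hz t' ht') k') (hxx.trans ?_)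
    calc D * (D ^ 4 * ρ) = D ^ 5 * ρ := by ring
      _ ≤ _ := by gcongr; norm_num
  rcases pig4 hadd hD hω (by positivity : 0 ≤ D ^ 4 * ρ) (cubes t₂ t₁ m₂ m₁ b₂ b₁)
    (cubes t₃ t₁ m₃ m₁ b₃ b₁) (cubes t₄ t₁ m₄ m₁ b₄ b₁) with h | h | h | h | h | h
  · exact hfin _ _ m₁ m₂ m12 b₁ b₂ h
  · exact hfin _ _ m₁ m₃ m13 b₁ b₃ h
  · exact hfin _ _ m₁ m₄ m14 b₁ b₄ h
  · exact hfin _ _ m₂ m₃ m23 b₂ b₃ h
  · exact hfin _ _ m₂ m₄ m24 b₂ b₄ h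
  · exact hfin _ _ m₃ m₄ m34 b₃ b₄ h

/-- logarithmic form for the ratios of preperiodic points -/
lemma local_log3 [NumberField L] {k : ℝ} (hk : 1 ≤ k) (hkD : k ≤ D)
    (hadd : ∀ x y, v (x + y) ≤ k * max (v x) (v y))
    (hμ : IsPrimitiveRoot μ d) (hd : 2 ≤ d) (h2 : 1 ≤ D * v (2 : L)) (h3 : 1 ≤ D * v (3 : L))
    (hr : ∀ ζ ζ' : L, ζ ^ d = 1 → ζ' ^ d = 1 → ζ ≠ ζ' → 1 ≤ D * v (ζ - ζ'))
    (hr' : ∀ ζ ζ' : L, ζ ^ d = 1 → ζ' ^ d = 1 → v (ζ - ζ') ≤ D)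
    {ω : L} (hω : ω ^ 2 + ω + 1 = 0)
    {z₁ z₂ z₃ : L} (hz₁ : z₁ ^ d = 1) (hz₂ : z₂ ^ d = 1) (hz₃ : z₃ ^ d = 1)
    (n12 : z₁ ≠ z₂) (n13 : z₁ ≠ z₃) (n23 : z₂ ≠ z₃)
    (hc : ∀ ζ : L, ζ ^ d = 1 → v (yc z₁ z₂ z₃ ζ) ≤ D ∧
      (yc z₁ z₂ z₃ ζ ≠ 0 → 1 ≤ D * v (yc z₁ z₂ z₃ ζ)))
    {Y : Finset L} (hY : 3 * d < Y.card) {x : L → L}
    (hx : ∀ t ∈ Y, yc z₁ z₂ z₃ t ^ 2 = x t ^ 3 + (z₂ - z₁) ^ 2)
    (hinj : ∀ t ∈ Y, ∀ t' ∈ Y, t ≠ t' → x t ≠ x t') (hz : ∀ t ∈ Y, t ≠ z₃)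
    {a b w : L} (hw : PP (fu a b d) w)
    (hYw : ∀ t ∈ Y, ∃ u : L, PP (fu a b d) u ∧ t = u / w) :
    (1 / d : ℝ) * lx (a * b ^ (d - 1)) v ≤ (2 * d + 183 : ℕ) * Real.log D +
      3 * ∑ p ∈ Y.offDiag,
        lx (xG (z₂ - z₁) (x p.1) (yc z₁ z₂ z₃ p.1) (x p.2) (yc z₁ z₂ z₃ p.2)) v := by
  have hD : 1 ≤ D := hk.trans hkD
  have hD0 : 0 < D := by linarith
  have hk0 : 0 < k := by linarith
  have hlk : 0 ≤ Real.log k := Real.log_nonneg hk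
  have hlD : 0 ≤ Real.log D := Real.log_nonneg hD
  have hlkD : Real.log k ≤ Real.log D := Real.log_le_log hk0 hkD
  have hd0 : (0 : ℝ) < d := by
    have : 0 < d := by omega
    exact_mod_cast this
  have hsum : 0 ≤ ∑ p ∈ Y.offDiag,
      lx (xG (z₂ - z₁) (x p.1) (yc z₁ z₂ z₃ p.1) (x p.2) (yc z₁ z₂ z₃ p.2)) v :=
    sum_nonneg fun p _ => lx_nonneg _ _
  set A := v (a * b ^ (d - 1)) with hA
  rcases le_or_gt A (k ^ (d + 1)) with hc1 | hc1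
  · have h1 : lx (a * b ^ (d - 1)) v ≤ (d + 1) * Real.log k := by
      unfold lx
      rw [← hA]
      have h3 : max A 1 ≤ k ^ (d + 1) := max_le hc1 (one_le_pow₀ hk)
      have h4 := Real.log_le_log (lt_of_lt_of_le one_pos (le_max_right A 1)) h3
      rw [Real.log_pow] at h4
      push_cast at h4
      exact h4
    have h5 : (1 / d : ℝ) * lx (a * b ^ (d - 1)) v ≤ (2 * d + 183 : ℕ) * Real.log D := by
      have h6 : (1 / d : ℝ) ≤ 1 := by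
        rw [div_le_one hd0]
        have : 1 ≤ d := by omega
        exact_mod_cast this
      have h7 : 0 ≤ lx (a * b ^ (d - 1)) v := lx_nonneg _ _
      have h8 : (0 : ℝ) ≤ 1 / d := by positivity
      calc (1 / d : ℝ) * lx (a * b ^ (d - 1)) v ≤ 1 * ((d + 1) * Real.log k) := by gcongr
        _ ≤ (2 * d + 183 : ℕ) * Real.log D := by
            rw [one_mul]
            push_cast
            gcongr
            · linarith
            · norm_num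
    linarith
  have hA0 : 0 < A := lt_of_le_of_lt (by positivity) hc1
  have hA1 : 1 < A := lt_of_le_of_lt (one_le_pow₀ hk) hc1
  have haddD : ∀ x y, v (x + y) ≤ D * max (v x) (v y) := fun x y =>
    (hadd x y).trans (by
      have := (v.nonneg x).trans (le_max_left (v x) (v y))
      gcongr)
  set α : ℝ := A ^ (1 / d : ℝ) with hα
  have hα0 : 0 < α := Real.rpow_pos_of_pos hA0 _
  have hαd : α ^ d = A := by
    rw [hα, ← Real.rpow_natCast, ← Real.rpow_mul hA0.le, one_div_mul_cancel hd0.ne',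
      Real.rpow_one]
  have hlα : Real.log α = (1 / d : ℝ) * Real.log A := Real.log_rpow hA0 _
  have hYα : ∀ t ∈ Y, v (t ^ d - 1) * α ≤ D ^ 3 := by
    intro t ht
    obtain ⟨u, hu, rfl⟩ := hYw t ht
    have h1 := near hk hadd hd hc1 hu hw
    rw [← hA, ← hαd, ← mul_pow, pow_mul] at h1
    have h0 := v.nonneg ((u / w) ^ d - 1)
    have h3 := (pow_le_pow_iff_left₀ (by positivity) (by positivity) (by omega)).1 h1
    exact h3.trans (by gcongr)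
  have hlA : lx (a * b ^ (d - 1)) v = Real.log A := by
    unfold lx
    rw [← hA, max_eq_left hA1.le]
  rw [hlA, ← hlα]
  rcases local_pair3 haddD hD hμ (by omega) h2 h3 hr hr' hω hz₁ hz₂ hz₃ n12 n13 n23 hc hY hx hinj
    hz hα0 hYα with h | ⟨t, ht, t', ht', hne, h⟩
  · have h1 := Real.log_le_log hα0 h
    rw [Real.log_pow] at h1
    linarith
  · set G := v (xG (z₂ - z₁) (x t) (yc z₁ z₂ z₃ t) (x t') (yc z₁ z₂ z₃ t')) with hG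
    have hG0 : 0 ≤ G := v.nonneg _
    have h1 : α ≤ D ^ (2 * d + 183) * (max G 1) ^ 3 :=
      h.trans (by gcongr; exact le_max_left _ _)
    have h3 : (0 : ℝ) < max G 1 := lt_of_lt_of_le one_pos (le_max_right _ _)
    have h4 := Real.log_le_log hα0 h1
    rw [Real.log_mul (by positivity) (by positivity), Real.log_pow, Real.log_pow] at h4
    refine h4.trans ?_
    have h5 : (t, t') ∈ Y.offDiag := mem_offDiag.2 ⟨ht, ht', hne⟩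
    have h6 := single_le_sum (s := Y.offDiag)
      (f := fun p : L × L =>
        lx (xG (z₂ - z₁) (x p.1) (yc z₁ z₂ z₃ p.1) (x p.2) (yc z₁ z₂ z₃ p.2)) v)
      (fun p _ => lx_nonneg _ _) h5
    have h7 : lx (xG (z₂ - z₁) (x t) (yc z₁ z₂ z₃ t) (x t') (yc z₁ z₂ z₃ t')) v =
        Real.log (max G 1) := rfl
    simp only at h6
    rw [h7] at h6
    push_cast
    linarith

end loc

section glob

variable {L : Type} [Field L] [NumberField L] [DecidableEq L]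

/-- the fixed numbers -/
noncomputable def E3 (d : ℕ) (z₁ z₂ z₃ : L) : Finset L :=
  insert 3 (EE L d) ∪ (nthRootsFinset d (1 : L)).image (yc z₁ z₂ z₃)

omit [DecidableEq L] in
lemma ht_three : logHeight₁ (3 : L) ≤ 2 * (totalWeight L * Real.log 2) := by
  have := logHeight₁_add_le (2 : L) 1
  rw [logHeight₁_one] at this
  have h2 := ht_two (L := L)
  have e : (2 : L) + 1 = 3 := by norm_num
  rw [e] at this
  linarith

omit [DecidableEq L] in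
lemma ht_yc {d : ℕ} (hd : 0 < d) {z₁ z₂ z₃ t : L} (hz₁ : z₁ ^ d = 1) (hz₂ : z₂ ^ d = 1)
    (hz₃ : z₃ ^ d = 1) : logHeight₁ (yc z₁ z₂ z₃ t) ≤
      8 * (totalWeight L * Real.log 2) + logHeight₁ t := by
  have h1 := ht_root_sub hd hz₃ hz₁
  have h2 := ht_root_sub hd hz₃ hz₂
  have h3 := logHeight₁_mul_le (2 : L) ((z₃ - z₁) * (z₃ - z₂))
  have h4 := logHeight₁_mul_le (z₃ - z₁) (z₃ - z₂)
  have h5 := ht_two (L := L)
  have h6 := logHeight₁_mul_le (2 * ((z₃ - z₁) * (z₃ - z₂))) (t - z₃)⁻¹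
  have h7 := logHeight₁_sub_le t z₃
  rw [logHeight₁_inv] at h6
  rw [ht_root hd hz₃] at h7
  have h8 := logHeight₁_add_le (z₃ - z₁) (z₃ - z₂)
  have h9 := logHeight₁_add_le (2 * ((z₃ - z₁) * (z₃ - z₂)) * (t - z₃)⁻¹)
    ((z₃ - z₁) + (z₃ - z₂))
  unfold yc
  rw [div_eq_mul_inv]
  have h0 : 0 ≤ (totalWeight L : ℝ) * Real.log 2 := by positivity
  linarith

lemma gs_WE_le {d : ℕ} (hd : 0 < d) {μ : L} (hμ : IsPrimitiveRoot μ d) {z₁ z₂ z₃ : L}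
    (hz₁ : z₁ ^ d = 1) (hz₂ : z₂ ^ d = 1) (hz₃ : z₃ ^ d = 1) :
    gs (WE (E3 d z₁ z₂ z₃)) ≤ (d ^ 2 + 2 + d : ℕ) * (16 * (totalWeight L * Real.log 2)) := by
  rw [(FS_WE (E3 d z₁ z₂ z₃)).2]
  have h0 : 0 ≤ (totalWeight L : ℝ) * Real.log 2 := by positivity
  have h3 : ∀ z ∈ E3 d z₁ z₂ z₃, 2 * logHeight₁ z ≤ 16 * (totalWeight L * Real.log 2) := by
    intro z hz
    unfold E3 EE at hz
    rw [mem_union, mem_insert, mem_insert, mem_image, mem_image] at hz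
    rcases hz with (rfl | rfl | ⟨p, hp, rfl⟩) | ⟨ζ, hζ, rfl⟩
    · have := ht_three (L := L)
      linarith
    · have := ht_two (L := L)
      linarith
    · rw [mem_product] at hp
      have := ht_root_sub hd ((UC.mem_roots hd).1 hp.1) ((UC.mem_roots hd).1 hp.2)
      linarith
    · have := ht_yc hd (t := ζ) hz₁ hz₂ hz₃
      rw [ht_root hd ((UC.mem_roots hd).1 hζ)] at this
      linarith
  have h4 := sum_le_card_nsmul _ _ _ h3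
  refine h4.trans ?_
  rw [nsmul_eq_mul]
  have h5 : (E3 d z₁ z₂ z₃).card ≤ d ^ 2 + 2 + d := by
    unfold E3 EE
    refine (card_union_le _ _).trans (Nat.add_le_add ?_ ?_)
    · refine (card_insert_le _ _).trans (Nat.add_le_add_right ?_ 1)
      refine (card_insert_le _ _).trans (Nat.add_le_add_right ?_ 1)
      refine card_image_le.trans ?_
      rw [card_product, hμ.card_nthRootsFinset, pow_two]
    · refine card_image_le.trans ?_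
      rw [hμ.card_nthRootsFinset]
  exact mul_le_mul_of_nonneg_right (by exact_mod_cast h5) (by positivity)

/-- the gap principle, with the constant -/
theorem gap3 {d : ℕ} {μ : L} (hμ : IsPrimitiveRoot μ d) (hd : 2 ≤ d)
    {ω : L} (hω : ω ^ 2 + ω + 1 = 0)
    {z₁ z₂ z₃ : L} (hz₁ : z₁ ^ d = 1) (hz₂ : z₂ ^ d = 1) (hz₃ : z₃ ^ d = 1)
    (n12 : z₁ ≠ z₂) (n13 : z₁ ≠ z₃) (n23 : z₂ ≠ z₃) (Y : Finset L) (hY : 3 * d < Y.card) (x : L → L)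
    (hx : ∀ t ∈ Y, yc z₁ z₂ z₃ t ^ 2 = x t ^ 3 + (z₂ - z₁) ^ 2)
    (hinj : ∀ t ∈ Y, ∀ t' ∈ Y, t ≠ t' → x t ≠ x t') (hz : ∀ t ∈ Y, t ≠ z₃)
    (a b w : L) (hw : PP (fu a b d) w)
    (hYw : ∀ t ∈ Y, ∃ u : L, PP (fu a b d) u ∧ t = u / w) :
      (1 / d : ℝ) * logHeight₁ (a * b ^ (d - 1)) ≤
        (2 * d + 183 : ℕ) * ((16 * (d ^ 2 + 2 + d) + 1 : ℕ) * (totalWeight L * Real.log 2)) +
        3 * ∑ p ∈ Y.offDiag,
          logHeight₁ (xG (z₂ - z₁) (x p.1) (yc z₁ z₂ z₃ p.1) (x p.2) (yc z₁ z₂ z₃ p.2)) := by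
  set E := E3 d z₁ z₂ z₃ with hE
  have main : ∀ (v : AbsoluteValue L ℝ) (k : ℝ), 1 ≤ k →
      (∀ x y, v (x + y) ≤ k * max (v x) (v y)) →
      (1 / d : ℝ) * lx (a * b ^ (d - 1)) v ≤ (2 * d + 183 : ℕ) * (Real.log k + WE E v) +
      3 * ∑ p ∈ Y.offDiag,
        lx (xG (z₂ - z₁) (x p.1) (yc z₁ z₂ z₃ p.1) (x p.2) (yc z₁ z₂ z₃ p.2)) v := by
    intro v k hk hadd
    have hk0 : 0 < k := by linarith
    have e : Real.log (k * Real.exp (WE E v)) = Real.log k + WE E v := by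
      rw [Real.log_mul hk0.ne' (Real.exp_pos _).ne', Real.log_exp]
    rw [← e]
    have hb : ∀ z ∈ E, v z ≤ k * Real.exp (WE E v) ∧
        (z ≠ 0 → 1 ≤ k * Real.exp (WE E v) * v z) := by
      intro z hz
      obtain ⟨h1, h2⟩ := le_WE hk hz (v := v)
      refine ⟨h1, fun h0 => ?_⟩
      have h6 : 0 < v z := v.pos h0
      calc 1 = v z⁻¹ * v z := by rw [← map_mul, inv_mul_cancel₀ h0, map_one]
        _ ≤ _ := by gcongr
    have hin : ∀ ζ ζ' : L, ζ ^ d = 1 → ζ' ^ d = 1 → ζ - ζ' ∈ E := by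
      intro ζ ζ' h h'
      rw [hE]
      unfold E3 EE
      refine mem_union_left _ (mem_insert_of_mem (mem_insert_of_mem (mem_image.2 ⟨(ζ, ζ'),
        mem_product.2 ⟨(UC.mem_roots (by omega)).2 h, (UC.mem_roots (by omega)).2 h'⟩, rfl⟩)))
    refine local_log3 hk ?_ hadd hμ hd ?_ ?_ ?_ ?_ hω hz₁ hz₂ hz₃ n12 n13 n23 ?_ hY hx hinj hz hw
      hYw
    · calc k = k * 1 := (mul_one k).symm
        _ ≤ _ := by
          gcongr
          exact Real.one_le_exp (WE_nonneg E v)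
    · refine (hb 2 ?_).2 two_ne_zero
      rw [hE]
      unfold E3 EE
      simp
    · refine (hb 3 ?_).2 three_ne_zero
      rw [hE]
      unfold E3
      simp
    · intro ζ ζ' h h' hne
      exact (hb _ (hin ζ ζ' h h')).2 (sub_ne_zero.2 hne)
    · intro ζ ζ' h h'
      exact (hb _ (hin ζ ζ' h h')).1
    · intro ζ hζ
      refine hb _ ?_
      rw [hE]
      unfold E3
      exact mem_union_right _ (mem_image_of_mem _ ((UC.mem_roots (by omega)).2 hζ))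
  obtain ⟨F1, G1⟩ := FS_sum Y.offDiag
    (fun p v => lx (xG (z₂ - z₁) (x p.1) (yc z₁ z₂ z₃ p.1) (x p.2) (yc z₁ z₂ z₃ p.2)) v)
    (fun p _ => FS_lx _)
  have F1' := F1.const_mul 3
  have F2 := (FS_WE E).1.const_mul (2 * d + 183 : ℕ)
  have F3 := (FS_lx (a * b ^ (d - 1))).const_mul (1 / d : ℝ)
  have key := gs_le F3 (F2.add F1') ((2 * d + 183 : ℕ) * Real.log 2) ?_ ?_
  · rw [gs_const_mul _ (FS_lx _), gs_add F2 F1', gs_const_mul _ (FS_WE E).1, gs_const_mul _ F1,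
      gs_lx, G1] at key
    simp only [gs_lx] at key
    have h1 := gs_WE_le (L := L) (d := d) (by omega) hμ hz₁ hz₂ hz₃
    have h2 : ((2 * d + 183 : ℕ) : ℝ) * gs (WE E) ≤ (2 * d + 183 : ℕ) *
        ((d ^ 2 + 2 + d : ℕ) * (16 * (totalWeight L * Real.log 2))) := by gcongr
    have h3 : ((16 * (d ^ 2 + 2 + d) + 1 : ℕ) : ℝ) = 16 * ((d ^ 2 + 2 + d : ℕ) : ℝ) + 1 := by
      push_cast; ring
    rw [h3]
    linarith
  · intro v hv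
    have := main v 2 (by norm_num) (fun x y => by
      refine (v.add_le x y).trans ?_
      have := le_max_left (v x) (v y)
      have := le_max_right (v x) (v y)
      linarith)
    rw [mul_add] at this
    linarith
  · intro v hv
    have := main v 1 le_rfl (fun x y => by
      rw [one_mul]
      exact isNonarchimedean v hv x y)
    rw [Real.log_one, zero_add] at this
    exact this

end glob

end Pool.Agent.Zk42.UT
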