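import Pool.Agent.H437R2.Man.MWPar

/-! The group of the curve `y² = x³ + m²` and its endomorphism of order three. -/

set_option autoImplicit false

open WeierstrassCurve

namespace Pool.Agent.Zk42.UT

variable {K : Type} [Field K]

/-- The curve `y² = x³ + m²`. -/
def crv3 (m : K) : WeierstrassCurve K := { a₁ := 0, a₂ := 0, a₃ := 0, a₄ := 0, a₆ := m ^ 2 }

/-- its points -/
abbrev P3 (m : K) : Type := (crv3 m).toAffine.Point

lemma crv3_eqn {m x y : K} : (crv3 m).toAffine.Equation x y ↔ y ^ 2 = x ^ 3 + m ^ 2 := by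
  rw [WeierstrassCurve.Affine.equation_iff]
  simp only [crv3]
  constructor <;> intro h <;> linear_combination h

lemma crv3_nonsing [CharZero K] {m x y : K} (hm : m ≠ 0) (h : y ^ 2 = x ^ 3 + m ^ 2) :
    (crv3 m).toAffine.Nonsingular x y := by
  have : (crv3 m).IsElliptic := by
    refine ⟨?_⟩
    have e : (crv3 m).Δ = -432 * m ^ 4 := by
      simp only [WeierstrassCurve.Δ, WeierstrassCurve.b₂, WeierstrassCurve.b₄, WeierstrassCurve.b₆,
        WeierstrassCurve.b₈, crv3]
      ring
    rw [e, isUnit_iff_ne_zero]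
    exact mul_ne_zero (by norm_num) (pow_ne_zero _ hm)
  exact WeierstrassCurve.Affine.equation_iff_nonsingular.mp (crv3_eqn.mpr h)

lemma negY3 {m x y : K} : (crv3 m).toAffine.negY x y = -y := by
  simp [Affine.negY, crv3]

lemma addX3 {m x y l : K} : (crv3 m).toAffine.addX x y l = l ^ 2 - x - y := by
  simp [Affine.addX, crv3]

lemma addY3 {m x x' y l : K} : (crv3 m).toAffine.addY x x' y l =
    -(l * (l ^ 2 - x - x' - x) + y) := by
  simp [Affine.addY, Affine.negAddY, Affine.negY, Affine.addX, crv3]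

section hom

variable [DecidableEq K] {F : Type} [Field F] [DecidableEq F]

/-- base change of the points -/
theorem exists_hom (φ : K →+* F) (W : WeierstrassCurve K) (W' : WeierstrassCurve F)
    (hW : W.map φ = W') : ∃ f : W.toAffine.Point →+ W'.toAffine.Point,
      Function.Injective f ∧ ∀ x y h, ∃ h', f (.some x y h) = .some (φ x) (φ y) h' := by
  subst hW
  let f : W.toAffine.Point → (W.map φ).toAffine.Point := fun P => match P with
    | 0 => 0
    | .some _ _ h => .some _ _ ((Affine.map_nonsingular W.toAffine φ.injective _ _).mpr h)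
  refine ⟨{ toFun := f, map_zero' := rfl, map_add' := ?_ }, ?_, fun x y h => ⟨_, rfl⟩⟩
  · rintro (_ | ⟨x₁, y₁, h₁⟩) (_ | ⟨x₂, y₂, h₂⟩)
    any_goals rfl
    by_cases hxy : x₁ = x₂ ∧ y₁ = W.toAffine.negY x₂ y₂
    · rw [Affine.Point.add_of_Y_eq hxy.left hxy.right]
      symm
      apply Affine.Point.add_of_Y_eq (congr_arg _ hxy.left)
      rw [hxy.right, Affine.map_negY]
    · rw [Affine.Point.add_some hxy]
      have h' : ¬(φ x₁ = φ x₂ ∧ φ y₁ = (W.map φ).toAffine.negY (φ x₂) (φ y₂)) := fun h =>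
        hxy ⟨φ.injective h.1, φ.injective (by rw [h.2, Affine.map_negY])⟩
      show _ = Affine.Point.some _ _ _ + Affine.Point.some _ _ _
      rw [Affine.Point.add_some h']
      show Affine.Point.some _ _ _ = Affine.Point.some _ _ _
      congr 1
      · rw [Affine.map_slope, Affine.map_addX]
      · rw [Affine.map_slope, Affine.map_addY]
  · rintro (_ | ⟨x₁, y₁, h₁⟩) (_ | ⟨x₂, y₂, h₂⟩) h
    · rfl
    · exact absurd h.symm (Affine.Point.some_ne_zero _)
    · exact absurd h (Affine.Point.some_ne_zero _)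
    · have h2 := h
      change Affine.Point.some (φ x₁) (φ y₁) _ = Affine.Point.some (φ x₂) (φ y₂) _ at h2
      rw [Affine.Point.some.injEq] at h2
      have e1 := φ.injective h2.1
      have e2 := φ.injective h2.2
      subst e1
      subst e2
      rfl

end hom

section omg

variable [DecidableEq K] [CharZero K]

lemma slope_omg {m ω : K} (hω : ω ^ 3 = 1) {x₁ x₂ y₁ y₂ : K} :
    (crv3 m).toAffine.slope (ω * x₁) (ω * x₂) y₁ y₂ =
      ω ^ 2 * (crv3 m).toAffine.slope x₁ x₂ y₁ y₂ := by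
  have hω0 : ω ≠ 0 := by
    rintro rfl
    norm_num at hω
  unfold Affine.slope
  rw [negY3, negY3, negY3, negY3]
  by_cases hx : x₁ = x₂
  · subst hx
    rw [if_pos rfl, if_pos rfl]
    by_cases hy : y₁ = -y₂
    · rw [if_pos hy, if_pos hy, mul_zero]
    · rw [if_neg hy, if_neg hy]
      simp only [crv3]
      ring
  · have hx' : ω * x₁ ≠ ω * x₂ := fun h => hx (mul_left_cancel₀ hω0 h)
    rw [if_neg hx, if_neg hx']
    have h1 : x₁ - x₂ ≠ 0 := sub_ne_zero.2 hx
    have e : ω * x₁ - ω * x₂ = ω * (x₁ - x₂) := by ring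
    rw [e, ← mul_div_assoc, div_eq_div_iff (mul_ne_zero hω0 h1) h1]
    linear_combination (-(y₁ - y₂) * (x₁ - x₂)) * hω

/-- multiplication by the cube root of unity -/
theorem exists_omg {m ω : K} (hm : m ≠ 0) (hω : ω ^ 3 = 1) : ∃ f : P3 m →+ P3 m,
    ∀ x y h, ∃ h', f (.some x y h) = .some (ω * x) y h' := by
  have hω0 : ω ≠ 0 := by
    rintro rfl
    norm_num at hω
  have hn : ∀ {x y : K}, (crv3 m).toAffine.Nonsingular x y →
      (crv3 m).toAffine.Nonsingular (ω * x) y := by
    intro x y h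
    have h1 := crv3_eqn.1 h.1
    exact crv3_nonsing hm (by rw [h1, mul_pow, hω, one_mul])
  let f : P3 m → P3 m := fun P => match P with
    | 0 => 0
    | .some x y h => .some (ω * x) y (hn h)
  refine ⟨{ toFun := f, map_zero' := rfl, map_add' := ?_ }, fun x y h => ⟨_, rfl⟩⟩
  rintro (_ | ⟨x₁, y₁, h₁⟩) (_ | ⟨x₂, y₂, h₂⟩)
  any_goals rfl
  by_cases hxy : x₁ = x₂ ∧ y₁ = (crv3 m).toAffine.negY x₂ y₂
  · rw [Affine.Point.add_of_Y_eq hxy.left hxy.right]
    symm
    apply Affine.Point.add_of_Y_eq (by rw [hxy.left])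
    rw [hxy.right, negY3, negY3]
  · rw [Affine.Point.add_some hxy]
    have h' : ¬(ω * x₁ = ω * x₂ ∧ y₁ = (crv3 m).toAffine.negY (ω * x₂) y₂) := fun h =>
      hxy ⟨mul_left_cancel₀ hω0 h.1, by rw [h.2, negY3, negY3]⟩
    show _ = Affine.Point.some _ _ _ + Affine.Point.some _ _ _
    rw [Affine.Point.add_some h']
    show Affine.Point.some _ _ _ = Affine.Point.some _ _ _
    congr 1
    · rw [slope_omg hω, addX3, addX3]
      linear_combination (-(ω * (crv3 m).toAffine.slope x₁ x₂ y₁ y₂ ^ 2)) * hω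
    · rw [slope_omg hω, addY3, addY3]
      set l := (crv3 m).toAffine.slope x₁ x₂ y₁ y₂
      linear_combination ((ω ^ 3 + 1) * l ^ 3 - l * (x₁ + x₂ + x₁)) * hω

end omg

end Pool.Agent.Zk42.UT
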