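import Pool.Agent.Zk42.UG.G3

/-! Local repulsion on the curve `y² = x³ + n²`. -/

set_option autoImplicit false

namespace Pool.Agent.Zk42.UT

open Pool.Agent.H437R2.Man.Phi Pool.Agent.Zk42.UG

section alg

variable {L : Type} [Field L]

/-- the first coordinate of the difference of two points -/
def xG (n x y x' y' : L) : L := (x * x' * (x + x') + 2 * n ^ 2 + 2 * (y * y')) / (x - x') ^ 2

lemma xG_mul {n x y x' y' : L} (h : y ^ 2 = x ^ 3 + n ^ 2) (h' : y' ^ 2 = x' ^ 3 + n ^ 2)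
    (hne : x ≠ x') : xG n x y x' y' * (x * x' * (x + x') + 2 * n ^ 2 - 2 * (y * y')) =
      (x * x') ^ 2 - 4 * n ^ 2 * (x + x') := by
  have h1 : x - x' ≠ 0 := sub_ne_zero.2 hne
  unfold xG
  rw [div_mul_eq_mul_div, div_eq_iff (pow_ne_zero _ h1)]
  have e : (x * x' * (x + x') + 2 * n ^ 2 + 2 * (y * y')) *
      (x * x' * (x + x') + 2 * n ^ 2 - 2 * (y * y')) =
      (x * x' * (x + x') + 2 * n ^ 2) ^ 2 - 4 * (y ^ 2 * y' ^ 2) := by ring
  rw [e, h, h']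
  ring

end alg

section loc

variable {L : Type} [Field L] {v : AbsoluteValue L ℝ} {D : ℝ}

lemma le_of_cube_le {x : L} {r : ℝ} (hr : 0 ≤ r) (h : v (x ^ 3) ≤ r ^ 3) : v x ≤ r := by
  rw [map_pow] at h
  exact (pow_le_pow_iff_left₀ (v.nonneg _) hr (by norm_num)).1 h

lemma cube_close {ω : L} (hω : ω ^ 2 + ω + 1 = 0) {x x' : L} {r : ℝ} (hr : 0 ≤ r)
    (h : v (x ^ 3 - x' ^ 3) ≤ r ^ 3) :
    v (x - x') ≤ r ∨ v (x - ω * x') ≤ r ∨ v (x - ω ^ 2 * x') ≤ r := by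
  by_contra hc
  push Not at hc
  obtain ⟨h1, h2, h3⟩ := hc
  have e : x ^ 3 - x' ^ 3 = (x - x') * (x - ω * x') * (x - ω ^ 2 * x') := by
    linear_combination ((x ^ 2 * x') - x * x' ^ 2 * ω - x' ^ 3 * (1 - ω)) * hω
  rw [e, map_mul, map_mul] at h
  have h4 : r ^ 3 < v (x - x') * v (x - ω * x') * v (x - ω ^ 2 * x') := by
    calc r ^ 3 = r * r * r := by ring
      _ < _ := by
        have := mul_lt_mul'' h1 h2 hr hr
        exact mul_lt_mul'' this h3 (mul_nonneg hr hr) hr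
  linarith

lemma v_omega {ω : L} (hω : ω ^ 2 + ω + 1 = 0) : v ω = 1 := by
  have h3 : ω ^ 3 = 1 := by linear_combination (ω - 1) * hω
  have h4 : v ω ^ 3 = 1 := by rw [← map_pow, h3, map_one]
  exact (pow_eq_one_iff_of_nonneg (v.nonneg _) (by norm_num)).1 h4

/-- pigeonhole: among four points with close cubes two are close -/
lemma pig4 (hadd : ∀ x y, v (x + y) ≤ D * max (v x) (v y)) (hD : 1 ≤ D) {ω : L}
    (hω : ω ^ 2 + ω + 1 = 0) {x₁ x₂ x₃ x₄ : L} {r : ℝ} (hr : 0 ≤ r)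
    (h2 : v (x₂ ^ 3 - x₁ ^ 3) ≤ r ^ 3) (h3 : v (x₃ ^ 3 - x₁ ^ 3) ≤ r ^ 3)
    (h4 : v (x₄ ^ 3 - x₁ ^ 3) ≤ r ^ 3) :
    v (x₁ - x₂) ≤ D * r ∨ v (x₁ - x₃) ≤ D * r ∨ v (x₁ - x₄) ≤ D * r ∨ v (x₂ - x₃) ≤ D * r ∨
      v (x₂ - x₄) ≤ D * r ∨ v (x₃ - x₄) ≤ D * r := by
  have hDr : r ≤ D * r := by
    calc r = 1 * r := (one_mul r).symm
      _ ≤ _ := by gcongr
  have hD0 : 0 ≤ D := by linarith
  have tri : ∀ {a b c : L}, v (a - c) ≤ r → v (b - c) ≤ r → v (a - b) ≤ D * r := by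
    intro a b c h h'
    have := hadd (a - c) (-(b - c))
    have e : a - c + -(b - c) = a - b := by ring
    rw [e, v.map_neg] at this
    exact this.trans (by gcongr; exact max_le h h')
  have sym : ∀ {a b : L}, v (a - b) ≤ r → v (b - a) ≤ D * r := by
    intro a b h
    rw [v.map_sub]
    exact h.trans hDr
  rcases cube_close hω hr h2 with a2 | a2 | a2
  · exact Or.inl (sym a2)
  all_goals rcases cube_close hω hr h3 with a3 | a3 | a3
  · exact Or.inr (Or.inl (sym a3))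
  · exact Or.inr (Or.inr (Or.inr (Or.inl (tri a2 a3))))
  rotate_left
  · exact Or.inr (Or.inl (sym a3))
  rotate_left
  · exact Or.inr (Or.inr (Or.inr (Or.inl (tri a2 a3))))
  all_goals rcases cube_close hω hr h4 with a4 | a4 | a4
  · exact Or.inr (Or.inr (Or.inl (sym a4)))
  · exact Or.inr (Or.inr (Or.inr (Or.inr (Or.inl (tri a2 a4)))))
  · exact Or.inr (Or.inr (Or.inr (Or.inr (Or.inr (tri a3 a4)))))
  · exact Or.inr (Or.inr (Or.inl (sym a4)))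
  · exact Or.inr (Or.inr (Or.inr (Or.inr (Or.inr (tri a3 a4)))))
  · exact Or.inr (Or.inr (Or.inr (Or.inr (Or.inl (tri a2 a4)))))

/-- two close points away from the origin -/
lemma close_pair (hadd : ∀ x y, v (x + y) ≤ D * max (v x) (v y)) (hD : 1 ≤ D) {ρ : ℝ}
    (hρ : 0 ≤ ρ) (hρ1 : D ^ 60 * ρ < 1) {n c x y x' y' : L} (hn : v n ≤ D) (hn' : 1 ≤ D * v n)
    (h2 : 1 ≤ D * v (2 : L)) (h3 : 1 ≤ D * v (3 : L)) (hc : v c ≤ D) (hc' : c ≠ 0 → 1 ≤ D * v c)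
    (hy : y ^ 2 = x ^ 3 + n ^ 2) (hy' : y' ^ 2 = x' ^ 3 + n ^ 2) (hne : x ≠ x')
    (b1 : v (y - c) ≤ D ^ 8 * ρ) (b2 : v (y' - c) ≤ D ^ 8 * ρ) (b3 : v (x - x') ≤ D ^ 8 * ρ) :
    1 ≤ D ^ 60 * ρ * v (xG n x y x' y') := by
  have hD0 : 0 < D := by linarith
  have hpow : ∀ k : ℕ, k ≤ 60 → D ^ k * ρ < 1 := fun k hk => lt_of_le_of_lt (by gcongr) hρ1
  have hρ1' : ρ ≤ 1 := by have := hpow 0 (by norm_num); linarith
  have N : Bd v D ρ 1 0 n := by simpa [Bd] using hn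
  have C : Bd v D ρ 1 0 c := by simpa [Bd] using hc
  have F2 : Bd v D ρ 1 0 (2 : L) := by simpa [Bd] using two_le hadd
  have F4 : Bd v D ρ 2 0 (4 : L) := by simpa [Bd] using four_le hD hadd
  have Y1 : Bd v D ρ 8 1 (y - c) := by simpa [Bd] using b1
  have Y2 : Bd v D ρ 8 1 (y' - c) := by simpa [Bd] using b2
  have X1 : Bd v D ρ 8 1 (x - x') := by simpa [Bd] using b3
  have small : ∀ {z : L}, v (z - c) ≤ D ^ 8 * ρ → Bd v D ρ 2 0 z := by
    intro z hz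
    have h4 : Bd v D ρ 0 0 (z - c) := by
      have : v (z - c) ≤ 1 := hz.trans (hpow 8 (by norm_num)).le
      simpa [Bd] using this
    have := h4.add hD hρ hadd C
    rwa [sub_add_cancel] at this
  have Y : Bd v D ρ 2 0 y := small b1
  have Y' : Bd v D ρ 2 0 y' := small b2
  have xb : ∀ {z w : L}, w ^ 2 = z ^ 3 + n ^ 2 → Bd v D ρ 2 0 w → Bd v D ρ 2 0 z := by
    intro z w h hw
    have h4 : z ^ 3 = w ^ 2 - n ^ 2 := by rw [h]; ring
    have h5 : Bd v D ρ 5 0 (z ^ 3) := by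
      rw [h4]
      exact (hw.pow hρ 2).sub hD hρ hadd (N.pow hρ 2)
    have h6 : v (z ^ 3) ≤ (D ^ 2) ^ 3 := by
      have : v (z ^ 3) ≤ D ^ 5 := by simpa [Bd] using h5
      calc v (z ^ 3) ≤ D ^ 5 := this
        _ ≤ D ^ 6 := by gcongr; norm_num
        _ = _ := by ring
    have h7 := le_of_cube_le (by positivity) h6
    simpa [Bd] using h7
  have X : Bd v D ρ 2 0 x := xb hy Y
  have X' : Bd v D ρ 2 0 x' := xb hy' Y'
  have X1' : Bd v D ρ 8 1 (x' - x) := by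
    have := X1.neg
    rwa [neg_sub] at this
  -- the common term
  have K : Bd v D ρ 14 1 (x * (x' - x) * (x' + 2 * x)) :=
    (X.mul hD hρ X1').mul hD hρ (X'.add hD hρ hadd (F2.mul hD hρ X))
  by_cases hc0 : c = 0
  · subst hc0
    rw [sub_zero] at Y1 Y2
    have hN2 : Bd v D ρ 17 1 (x * x' * (x + x') + 2 * n ^ 2 - 2 * (y * y')) := by
      have e : x * x' * (x + x') + 2 * n ^ 2 - 2 * (y * y') =
          x * (x' - x) * (x' + 2 * x) + (2 * y * y - 2 * y * y') := by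
        linear_combination (-2) * hy
      rw [e]
      have a1 : Bd v D ρ 11 1 (2 * y * y) := (F2.mul hD hρ Y1).mul hD hρ Y
      have a2 : Bd v D ρ 11 1 (2 * y * y') := (F2.mul hD hρ Y1).mul hD hρ Y'
      have := K.add hD hρ hadd (a1.sub hD hρ hadd a2)
      exact this.mono hD hρ (by norm_num)
    have hM : Bd v D ρ 19 1 ((x * x') ^ 2 - 4 * n ^ 2 * (x + x') - -(9 * n ^ 2 * x)) := by
      have e : (x * x') ^ 2 - 4 * n ^ 2 * (x + x') - -(9 * n ^ 2 * x) =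
          x ^ 2 * (x' - x) * (x' + x) + x * y * y + 4 * n ^ 2 * (x - x') := by
        linear_combination (-x) * hy
      rw [e]
      have a1 : Bd v D ρ 15 1 (x ^ 2 * (x' - x) * (x' + x)) :=
        ((X.pow hρ 2).mul hD hρ X1').mul hD hρ (X'.add hD hρ hadd X)
      have a2 : Bd v D ρ 12 1 (x * y * y) := (X.mul hD hρ Y1).mul hD hρ Y
      have a3 : Bd v D ρ 12 1 (4 * n ^ 2 * (x - x')) := (F4.mul hD hρ (N.pow hρ 2)).mul hD hρ X1
      exact ((a1.add hD hρ hadd a2).add hD hρ hadd a3).mono hD hρ (by norm_num)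
    -- the lower bound of `x`
    have hx : 1 ≤ D ^ 2 * v x := by
      by_contra hcon
      push Not at hcon
      have e : n ^ 2 = y ^ 2 + -(x ^ 3) := by rw [hy]; ring
      have h4 := hadd (y ^ 2) (-(x ^ 3))
      rw [← e, v.map_neg] at h4
      have h5 : 1 ≤ D ^ 2 * v (n ^ 2) := by
        calc 1 ≤ (D * v n) ^ 2 := one_le_pow₀ hn'
          _ = _ := by rw [map_pow]; ring
      have h6 : v (x ^ 3) * D ^ 3 < 1 := by
        have hx0 := v.nonneg x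
        have : (D ^ 2 * v x) ^ 3 < 1 := pow_lt_one₀ (by positivity) hcon (by norm_num)
        calc v (x ^ 3) * D ^ 3 ≤ v (x ^ 3) * D ^ 6 := by
              have := v.nonneg (x ^ 3)
              gcongr
              norm_num
          _ = (D ^ 2 * v x) ^ 3 := by rw [map_pow]; ring
          _ < 1 := this
      have h7 : v (y ^ 2) * D ^ 3 < 1 := by
        have a1 : Bd v D ρ 10 1 (y ^ 2) := by
          rw [pow_two]
          exact Y1.mul hD hρ Y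
        have a2 : v (y ^ 2) ≤ D ^ 10 * ρ := by simpa [Bd] using a1
        calc v (y ^ 2) * D ^ 3 ≤ (D ^ 10 * ρ) * D ^ 3 := by gcongr
          _ = D ^ 13 * ρ := by ring
          _ < 1 := hpow 13 (by norm_num)
      have h8 : D ^ 2 * v (n ^ 2) ≤ D ^ 3 * max (v (y ^ 2)) (v (x ^ 3)) := by
        calc D ^ 2 * v (n ^ 2) ≤ D ^ 2 * (D * max (v (y ^ 2)) (v (x ^ 3))) := by gcongr
          _ = _ := by ring
      have h9 : D ^ 3 * max (v (y ^ 2)) (v (x ^ 3)) < 1 := by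
        rcases max_choice (v (y ^ 2)) (v (x ^ 3)) with h | h <;> rw [h] <;> linarith
      linarith
    have h9n : 1 ≤ D ^ 6 * v (-(9 * n ^ 2 * x)) := by
      have e : v (-(9 * n ^ 2 * x)) = v 3 ^ 2 * v n ^ 2 * v x := by
        rw [v.map_neg, map_mul, map_mul, map_pow]
        have : (9 : L) = 3 ^ 2 := by norm_num
        rw [this, map_pow]
      rw [e]
      calc 1 ≤ (D * v 3) ^ 2 * (D * v n) ^ 2 * (D ^ 2 * v x) :=
            one_le_mul_of_one_le_of_one_le (one_le_mul_of_one_le_of_one_le (one_le_pow₀ h3)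
              (one_le_pow₀ hn')) hx
        _ = _ := by ring
    have hM' : v ((x * x') ^ 2 - 4 * n ^ 2 * (x + x') - -(9 * n ^ 2 * x)) ≤ D ^ 19 * ρ := by
      simpa [Bd] using hM
    have hM2 := lower_of hadd hD h9n hM' (by
      calc D ^ (6 + 1) * (D ^ 19 * ρ) = D ^ 26 * ρ := by ring
        _ < 1 := hpow 26 (by norm_num))
    have e := congrArg v (xG_mul hy hy' hne)
    rw [map_mul] at e
    have hN2' : v (x * x' * (x + x') + 2 * n ^ 2 - 2 * (y * y')) ≤ D ^ 17 * ρ := by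
      simpa [Bd] using hN2
    rw [← e] at hM2
    have hG := v.nonneg (xG n x y x' y')
    calc 1 ≤ D ^ (6 + 1) * (v (xG n x y x' y') *
          v (x * x' * (x + x') + 2 * n ^ 2 - 2 * (y * y'))) := hM2
      _ ≤ D ^ (6 + 1) * (v (xG n x y x' y') * (D ^ 17 * ρ)) := by gcongr
      _ = D ^ 24 * ρ * v (xG n x y x' y') := by ring
      _ ≤ _ := by gcongr; norm_num
  · have hc1 := hc' hc0
    have hN1 : Bd v D ρ 17 1 (x * x' * (x + x') + 2 * n ^ 2 + 2 * (y * y') - 4 * c ^ 2) := by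
      have e : x * x' * (x + x') + 2 * n ^ 2 + 2 * (y * y') - 4 * c ^ 2 =
          x * (x' - x) * (x' + 2 * x) + (2 * (y - c) * (y + c) + (2 * y * (y' - c) +
            2 * c * (y - c))) := by
        linear_combination (-2) * hy
      rw [e]
      have a1 : Bd v D ρ 12 1 (2 * (y - c) * (y + c)) :=
        (F2.mul hD hρ Y1).mul hD hρ (Y.add hD hρ hadd C)
      have a2 : Bd v D ρ 11 1 (2 * y * (y' - c)) := (F2.mul hD hρ Y).mul hD hρ Y2
      have a3 : Bd v D ρ 10 1 (2 * c * (y - c)) := (F2.mul hD hρ C).mul hD hρ Y1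
      exact (K.add hD hρ hadd (a1.add hD hρ hadd (a2.add hD hρ hadd a3))).mono hD hρ
        (by norm_num)
    have h4c : 1 ≤ D ^ 4 * v (4 * c ^ 2) := by
      have e : v (4 * c ^ 2) = v 2 ^ 2 * v c ^ 2 := by
        rw [map_mul, map_pow]
        have : (4 : L) = 2 ^ 2 := by norm_num
        rw [this, map_pow]
      rw [e]
      calc 1 ≤ (D * v 2) ^ 2 * (D * v c) ^ 2 :=
            one_le_mul_of_one_le_of_one_le (one_le_pow₀ h2) (one_le_pow₀ hc1)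
        _ = _ := by ring
    have hN1' : v (x * x' * (x + x') + 2 * n ^ 2 + 2 * (y * y') - 4 * c ^ 2) ≤ D ^ 17 * ρ := by
      simpa [Bd] using hN1
    have hN := lower_of hadd hD h4c hN1' (by
      calc D ^ (4 + 1) * (D ^ 17 * ρ) = D ^ 22 * ρ := by ring
        _ < 1 := hpow 22 (by norm_num))
    have hst' : x - x' ≠ 0 := sub_ne_zero.2 hne
    have e5 : x * x' * (x + x') + 2 * n ^ 2 + 2 * (y * y') = xG n x y x' y' * (x - x') ^ 2 := by
      unfold xG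
      rw [div_mul_cancel₀ _ (pow_ne_zero _ hst')]
    rw [e5, map_mul, map_pow] at hN
    have hG := v.nonneg (xG n x y x' y')
    have hxx := v.nonneg (x - x')
    have h8 := (hpow 8 (by norm_num)).le
    calc 1 ≤ D ^ (4 + 1) * (v (xG n x y x' y') * v (x - x') ^ 2) := hN
      _ = D ^ (4 + 1) * (v (xG n x y x' y') * (v (x - x') * v (x - x'))) := by ring
      _ ≤ D ^ (4 + 1) * (v (xG n x y x' y') * ((D ^ 8 * ρ) * 1)) := by
          gcongr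
          exact b3.trans h8
      _ = D ^ 13 * ρ * v (xG n x y x' y') := by ring
      _ ≤ _ := by gcongr; norm_num

/-- two points close to the origin -/
lemma origin_pair (hadd : ∀ x y, v (x + y) ≤ D * max (v x) (v y)) (hD : 1 ≤ D) {ρ : ℝ}
    (hρ : 0 ≤ ρ) (hρ1 : D ^ 60 * ρ < 1) {n x y x' y' : L} (hn : v n ≤ D)
    (hy : y ^ 2 = x ^ 3 + n ^ 2) (hy' : y' ^ 2 = x' ^ 3 + n ^ 2) (hne : x ≠ x')
    (b1 : 1 ≤ D ^ 8 * ρ ^ 3 * v y) (b2 : 1 ≤ D ^ 8 * ρ ^ 3 * v y') :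
    1 ≤ D ^ 60 * ρ * v (xG n x y x' y') := by
  have hD0 : 0 < D := by linarith
  have hpow : ∀ k : ℕ, k ≤ 60 → D ^ k * ρ < 1 := fun k hk => lt_of_le_of_lt (by gcongr) hρ1
  have hρ1' : ρ ≤ 1 := by have := hpow 0 (by norm_num); linarith
  have N : Bd v D ρ 1 0 n := by simpa [Bd] using hn
  have F2 : Bd v D ρ 1 0 (2 : L) := by simpa [Bd] using two_le hadd
  have F4 : Bd v D ρ 2 0 (4 : L) := by simpa [Bd] using four_le hD hadd
  -- the size of the coordinates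
  have size : ∀ {x y : L}, y ^ 2 = x ^ 3 + n ^ 2 → 1 ≤ D ^ 8 * ρ ^ 3 * v y →
      x ≠ 0 ∧ 1 ≤ D ^ 6 * ρ ^ 2 * v x ∧ v y ^ 2 ≤ D * v x ^ 3 := by
    intro x y h hb
    have hy0 := v.nonneg y
    have hx0 := v.nonneg x
    have hρ3 : D ^ 8 * ρ ^ 3 * v y = (D ^ 8 * ρ ^ 3) * v y := rfl
    have h1 : D ^ 2 < v y := by
      by_contra hc
      push Not at hc
      have : D ^ 8 * ρ ^ 3 * v y < 1 := by
        calc D ^ 8 * ρ ^ 3 * v y ≤ D ^ 8 * ρ ^ 3 * D ^ 2 := by gcongr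
          _ = (D ^ 10 * ρ) * (ρ * ρ) := by ring
          _ ≤ (D ^ 10 * ρ) * (1 * 1) := by gcongr
          _ = D ^ 10 * ρ := by ring
          _ < 1 := hpow 10 (by norm_num)
      linarith
    have h2 : v y ^ 2 ≤ D * v x ^ 3 := by
      have h3 := hadd (x ^ 3) (n ^ 2)
      rw [← h, map_pow, map_pow, map_pow] at h3
      rcases le_total (v n ^ 2) (v x ^ 3) with h4 | h4
      · rwa [max_eq_left h4] at h3
      · rw [max_eq_right h4] at h3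
        exfalso
        have h5 : v n ^ 2 ≤ D ^ 2 := by gcongr
        have h6 : v y ^ 2 ≤ D ^ 3 := by
          calc v y ^ 2 ≤ D * v n ^ 2 := h3
            _ ≤ D * D ^ 2 := by gcongr
            _ = _ := by ring
        have h7 : (D ^ 2) ^ 2 < v y ^ 2 := by gcongr
        have h8 : D ^ 3 ≤ (D ^ 2) ^ 2 := by
          rw [← pow_mul]
          gcongr
          norm_num
        linarith
    have hxpos : 0 < v x := by
      rcases hx0.eq_or_lt with h3 | h3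
      · exfalso
        rw [← h3] at h2
        have h4 : 0 < v y := lt_trans (by positivity) h1
        have h5 : 0 < v y ^ 2 := by positivity
        linarith [show D * (0 : ℝ) ^ 3 = 0 by ring]
      · exact h3
    refine ⟨?_, ?_, h2⟩
    · rintro rfl
      rw [map_zero] at hxpos
      exact lt_irrefl _ hxpos
    · have h3 : 1 ≤ (D ^ 6 * ρ ^ 2 * v x) ^ 3 := by
        calc 1 ≤ (D ^ 8 * ρ ^ 3 * v y) ^ 2 := one_le_pow₀ hb
          _ = D ^ 16 * ρ ^ 6 * v y ^ 2 := by ring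
          _ ≤ D ^ 16 * ρ ^ 6 * (D * v x ^ 3) := by gcongr
          _ = D ^ 17 * ρ ^ 6 * v x ^ 3 := by ring
          _ ≤ D ^ 18 * ρ ^ 6 * v x ^ 3 := by gcongr; norm_num
          _ = _ := by ring
      exact (one_le_pow_iff_of_nonneg (by positivity) (by norm_num)).1 h3
  obtain ⟨x0, sx, sy⟩ := size hy b1
  obtain ⟨x0', sx', sy'⟩ := size hy' b2
  have inv : ∀ {x : L}, x ≠ 0 → 1 ≤ D ^ 6 * ρ ^ 2 * v x → Bd v D ρ 6 1 x⁻¹ := by
    intro x hx h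
    unfold Bd
    rw [map_inv₀]
    have hxp : 0 < v x := v.pos hx
    rw [inv_le_iff_one_le_mul₀ hxp]
    calc 1 ≤ D ^ 6 * ρ ^ 2 * v x := h
      _ = D ^ 6 * ρ ^ 1 * (ρ * v x) := by ring
      _ ≤ D ^ 6 * ρ ^ 1 * (1 * v x) := by gcongr
      _ = _ := by ring
  have ev : ∀ {x y : L}, x ≠ 0 → 1 ≤ D ^ 6 * ρ ^ 2 * v x → v y ^ 2 ≤ D * v x ^ 3 →
      Bd v D ρ 4 1 (y * (x⁻¹) ^ 2) := by
    intro x y hx h h'
    unfold Bd
    rw [map_mul, map_pow, map_inv₀]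
    have hxp : 0 < v x := v.pos hx
    have h1 : (v y * (v x)⁻¹ ^ 2) ^ 2 ≤ (D ^ 4 * ρ ^ 1) ^ 2 := by
      calc (v y * (v x)⁻¹ ^ 2) ^ 2 = v y ^ 2 * (v x)⁻¹ ^ 4 := by ring
        _ ≤ (D * v x ^ 3) * (v x)⁻¹ ^ 4 := by gcongr
        _ = D * (v x)⁻¹ := by field_simp
        _ ≤ D * (D ^ 6 * ρ ^ 2) := by
            gcongr
            rw [inv_le_iff_one_le_mul₀ hxp]
            exact h
        _ = D ^ 7 * ρ ^ 2 := by ring
        _ ≤ D ^ 8 * ρ ^ 2 := by gcongr; norm_num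
        _ = _ := by ring
    exact le_of_sq_le_sq h1 (by positivity)
  have X : Bd v D ρ 6 1 x⁻¹ := inv x0 sx
  have X' : Bd v D ρ 6 1 x'⁻¹ := inv x0' sx'
  have E : Bd v D ρ 4 1 (y * (x⁻¹) ^ 2) := ev x0 sx sy
  have E' : Bd v D ρ 4 1 (y' * (x'⁻¹) ^ 2) := ev x0' sx' sy'
  have zero : ∀ {m : ℕ} {z : L}, m ≤ 60 → Bd v D ρ m 1 z → Bd v D ρ 0 0 z := by
    intro m z hm hz
    unfold Bd at hz ⊢
    rw [pow_one] at hz
    rw [pow_zero, pow_zero, one_mul]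
    exact hz.trans (hpow m hm).le
  have X0 := zero (by norm_num) X
  have X0' := zero (by norm_num) X'
  have E0' := zero (by norm_num) E'
  have S : Bd v D ρ 7 1 (x⁻¹ + x'⁻¹) := X.add hD hρ hadd X'
  have S0 := zero (by norm_num) S
  have hN : Bd v D ρ 13 1 ((x⁻¹ + x'⁻¹) + 2 * n ^ 2 * (x⁻¹) ^ 2 * (x'⁻¹) ^ 2 -
      2 * (y * (x⁻¹) ^ 2) * (y' * (x'⁻¹) ^ 2)) := by
    have a1 : Bd v D ρ 9 1 (2 * n ^ 2 * (x⁻¹) ^ 2 * (x'⁻¹) ^ 2) := by
      have e : 2 * n ^ 2 * (x⁻¹) ^ 2 * (x'⁻¹) ^ 2 = 2 * n ^ 2 * x⁻¹ * (x⁻¹ * (x'⁻¹) ^ 2) := by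
        ring
      rw [e]
      exact ((F2.mul hD hρ (N.pow hρ 2)).mul hD hρ X).mul hD hρ (X0.mul hD hρ (X0'.pow hρ 2))
    have a2 : Bd v D ρ 5 1 (2 * (y * (x⁻¹) ^ 2) * (y' * (x'⁻¹) ^ 2)) :=
      (F2.mul hD hρ E).mul hD hρ E0'
    exact ((S.add hD hρ hadd a1).sub hD hρ hadd a2).mono hD hρ (by norm_num)
  have hM : Bd v D ρ 13 1 (1 - 4 * n ^ 2 * (x⁻¹ + x'⁻¹) * (x⁻¹ * x'⁻¹) - 1) := by
    have e : 1 - 4 * n ^ 2 * (x⁻¹ + x'⁻¹) * (x⁻¹ * x'⁻¹) - 1 =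
        -(4 * n ^ 2 * (x⁻¹ + x'⁻¹) * (x⁻¹ * x'⁻¹)) := by ring
    rw [e]
    have a1 : Bd v D ρ 11 1 (4 * n ^ 2 * (x⁻¹ + x'⁻¹) * (x⁻¹ * x'⁻¹)) :=
      ((F4.mul hD hρ (N.pow hρ 2)).mul hD hρ S).mul hD hρ (X0.mul hD hρ X0')
    exact a1.neg.mono hD hρ (by norm_num)
  have hM' : v (1 - 4 * n ^ 2 * (x⁻¹ + x'⁻¹) * (x⁻¹ * x'⁻¹) - 1) ≤ D ^ 13 * ρ := by
    simpa [Bd] using hM
  have h1 : 1 ≤ D ^ 0 * v (1 : L) := by rw [map_one, pow_zero, one_mul]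
  have hM2 := lower_of hadd hD h1 hM' (by
    calc D ^ (0 + 1) * (D ^ 13 * ρ) = D ^ 14 * ρ := by ring
      _ < 1 := hpow 14 (by norm_num))
  have e : xG n x y x' y' * ((x⁻¹ + x'⁻¹) + 2 * n ^ 2 * (x⁻¹) ^ 2 * (x'⁻¹) ^ 2 -
      2 * (y * (x⁻¹) ^ 2) * (y' * (x'⁻¹) ^ 2)) = 1 - 4 * n ^ 2 * (x⁻¹ + x'⁻¹) * (x⁻¹ * x'⁻¹) := by
    have h3 := xG_mul hy hy' hne
    have e1 : (x⁻¹ + x'⁻¹) + 2 * n ^ 2 * (x⁻¹) ^ 2 * (x'⁻¹) ^ 2 -
      2 * (y * (x⁻¹) ^ 2) * (y' * (x'⁻¹) ^ 2) =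
      (x * x' * (x + x') + 2 * n ^ 2 - 2 * (y * y')) / (x * x') ^ 2 := by
      field_simp
      ring
    have e2 : 1 - 4 * n ^ 2 * (x⁻¹ + x'⁻¹) * (x⁻¹ * x'⁻¹) =
      ((x * x') ^ 2 - 4 * n ^ 2 * (x + x')) / (x * x') ^ 2 := by
      field_simp
      ring
    rw [e1, e2, ← mul_div_assoc, h3]
  have e' := congrArg v e
  rw [map_mul] at e'
  rw [← e'] at hM2
  have hN' : v ((x⁻¹ + x'⁻¹) + 2 * n ^ 2 * (x⁻¹) ^ 2 * (x'⁻¹) ^ 2 -
      2 * (y * (x⁻¹) ^ 2) * (y' * (x'⁻¹) ^ 2)) ≤ D ^ 13 * ρ := by simpa [Bd] using hN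
  have hG := v.nonneg (xG n x y x' y')
  calc 1 ≤ D ^ (0 + 1) * (v (xG n x y x' y') * v ((x⁻¹ + x'⁻¹) +
        2 * n ^ 2 * (x⁻¹) ^ 2 * (x'⁻¹) ^ 2 - 2 * (y * (x⁻¹) ^ 2) * (y' * (x'⁻¹) ^ 2))) := hM2
    _ ≤ D ^ (0 + 1) * (v (xG n x y x' y') * (D ^ 13 * ρ)) := by gcongr
    _ = D ^ 14 * ρ * v (xG n x y x' y') := by ring
    _ ≤ _ := by gcongr; norm_num

end loc

end Pool.Agent.Zk42.UT
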