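import Pool.Agent.Zk42.UC.Fin
import Pool.Agent.Zk42.UC.Main

/-! The size of the group of the elements with valuations divisible by `n` outside `S`, modulo
`n`-th powers. -/

set_option autoImplicit false

open IsDedekindDomain NumberField
open scoped nonZeroDivisors

namespace Pool.Agent.Zk42.UT

open Pool.Agent.Zk42

/-- the number of the ideal classes killed by `n` -/
noncomputable def cln (n : ℕ) (K : Type) [Field K] [NumberField K] : ℕ :=
  Nat.card {g : ClassGroup (𝓞 K) // g ^ n = 1}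

/-- units modulo `n`-th powers -/
lemma units_pow (n : ℕ) (hn : 0 < n) (K : Type) [Field K] [NumberField K] :
    ∃ T : Finset (𝓞 K)ˣ, T.card ≤ n ^ Module.finrank ℚ K ∧
      ∀ u : (𝓞 K)ˣ, ∃ t ∈ T, ∃ w : (𝓞 K)ˣ, u = t * w ^ n := by
  classical
  have hne : NeZero n := ⟨by omega⟩
  obtain ⟨g, hg⟩ := IsCyclic.exists_generator (α := NumberField.Units.torsion K)
  let f : Fin n × (Fin (Units.rank K) → Fin n) → (𝓞 K)ˣ := fun b =>
    (g : (𝓞 K)ˣ) ^ (b.1 : ℕ) * ∏ i, Units.fundSystem K i ^ (b.2 i : ℕ)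
  refine ⟨Finset.univ.image f, ?_, ?_⟩
  · refine Finset.card_image_le.trans ?_
    rw [Finset.card_univ, Fintype.card_prod, Fintype.card_fin, Fintype.card_fun, Fintype.card_fin,
      Fintype.card_fin, ← pow_succ']
    refine Nat.pow_le_pow_right hn ?_
    unfold Units.rank
    have h1 : 0 < Fintype.card (InfinitePlace K) := Fintype.card_pos
    rw [Nat.sub_add_cancel h1, InfinitePlace.card_eq_nrRealPlaces_add_nrComplexPlaces,
      ← InfinitePlace.card_add_two_mul_card_eq_rank]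
    omega
  · intro u
    obtain ⟨⟨ζ, e⟩, he, -⟩ := Units.exist_unique_eq_mul_prod K u
    obtain ⟨k, hk⟩ := hg ζ
    have hk' : (g : (𝓞 K)ˣ) ^ k = (ζ : (𝓞 K)ˣ) := by
      rw [← hk]; rfl
    have hm0 : ∀ k : ℤ, 0 ≤ k % n := fun k => Int.emod_nonneg _ (by omega)
    have hm1 : ∀ k : ℤ, (k % n).toNat < n := fun k => by
      have h1 := Int.emod_lt_of_pos k (by omega : (0 : ℤ) < n)
      have h2 := hm0 k
      omega
    have hpar : ∀ (x : (𝓞 K)ˣ) (k : ℤ), x ^ k = x ^ (k % n).toNat * (x ^ (k / n)) ^ n := by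
      intro x k
      rw [← zpow_natCast x, ← zpow_natCast (x ^ (k / n)), ← zpow_mul, ← zpow_add]
      congr 1
      rw [Int.toNat_of_nonneg (hm0 k), mul_comm (k / (n : ℤ)), Int.emod_add_mul_ediv]
    refine ⟨f (⟨(k % n).toNat, hm1 k⟩, fun i => ⟨(e i % n).toNat, hm1 _⟩),
      Finset.mem_image_of_mem _ (Finset.mem_univ _), (g : (𝓞 K)ˣ) ^ (k / n) *
        ∏ i, Units.fundSystem K i ^ (e i / n), ?_⟩
    rw [he]
    simp only
    rw [← hk', hpar _ k]
    have h1 : ∏ i, Units.fundSystem K i ^ (e i) =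
        (∏ i, Units.fundSystem K i ^ (e i % n).toNat) *
          (∏ i, Units.fundSystem K i ^ (e i / n)) ^ n := by
      rw [← Finset.prod_pow, ← Finset.prod_mul_distrib]
      exact Finset.prod_congr rfl fun i _ => hpar _ _
    rw [h1]
    simp only [f]
    rw [mul_pow]
    exact mul_mul_mul_comm _ _ _ _

/-- division with remainder of multisets -/
lemma multiset_div {α : Type*} [DecidableEq α] (n : ℕ) (s : Multiset α) :
    ∃ t d : Multiset α, s = n • t + d ∧ (∀ p, d.count p = s.count p % n) ∧ (∀ p ∈ t, p ∈ s) := by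
  have key : ∀ f : α → ℕ, (∀ p, p ∉ s → f p = 0) →
      ∀ p, (∑ q ∈ s.toFinset, Multiset.replicate (f q) q).count p = f p := by
    intro f hf p
    rw [Multiset.count_sum']
    simp only [Multiset.count_replicate]
    by_cases hp : p ∈ s
    · rw [Finset.sum_eq_single p]
      · simp
      · intro b _ hb
        rw [if_neg hb]
      · intro h
        exact absurd (Multiset.mem_toFinset.2 hp) h
    · rw [hf p hp]
      apply Finset.sum_eq_zero
      intro b hb
      rw [if_neg]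
      rintro rfl
      exact hp (Multiset.mem_toFinset.1 hb)
  have h0 : ∀ p, p ∉ s → s.count p = 0 := fun p hp => Multiset.count_eq_zero.2 hp
  have k1 := key (fun p => s.count p / n) (fun p hp => by simp [h0 p hp])
  have k2 := key (fun p => s.count p % n) (fun p hp => by simp [h0 p hp])
  refine ⟨∑ q ∈ s.toFinset, Multiset.replicate (s.count q / n) q, _, ?_, k2, ?_⟩
  · ext p
    rw [Multiset.count_add, Multiset.count_nsmul, k1, k2, Nat.div_add_mod]
  · intro p hp
    by_contra hps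
    have := k1 p
    rw [h0 p hps, Nat.zero_div, Multiset.count_eq_zero] at this
    exact this hp

variable {K : Type} [Field K] [NumberField K]

/-- structure of ideals with orders divisible by `n` away from `S` -/
lemma ideal_div (n : ℕ) (hn : 0 < n) (S : Set (HeightOneSpectrum (𝓞 K))) (hS : S.Finite) :
    ∃ D : Finset (Ideal (𝓞 K)), D.card ≤ n ^ S.ncard ∧ ∀ I : Ideal (𝓞 K), I ≠ 0 →
      (∀ v : HeightOneSpectrum (𝓞 K), v ∉ S →
        n ∣ ((UniqueFactorizationMonoid.normalizedFactors I).count v.asIdeal)) →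
      ∃ d ∈ D, ∃ J : Ideal (𝓞 K), J ≠ 0 ∧ I = J ^ n * d := by
  classical
  set S' : Finset (Ideal (𝓞 K)) := hS.toFinset.image (fun v => v.asIdeal) with hS'
  refine ⟨(Finset.univ : Finset (S' → Fin n)).image
    (fun e => ∏ x : S', (x : Ideal (𝓞 K)) ^ (e x : ℕ)), ?_, fun I hI hev => ?_⟩
  · refine Finset.card_image_le.trans ?_
    rw [Finset.card_univ, Fintype.card_fun, Fintype.card_fin, Fintype.card_coe]
    refine Nat.pow_le_pow_right hn ?_
    rw [Set.ncard_eq_toFinset_card S hS]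
    exact Finset.card_image_le
  obtain ⟨t, d, hs, hd, ht⟩ := multiset_div n (UniqueFactorizationMonoid.normalizedFactors I)
  have hdS : ∀ p ∈ d, p ∈ S' := by
    intro p hp
    have hpI : p ∈ UniqueFactorizationMonoid.normalizedFactors I := by
      rw [hs]; exact Multiset.mem_add.mpr (Or.inr hp)
    have hpp : Prime p := UniqueFactorizationMonoid.prime_of_normalized_factor p hpI
    let v : HeightOneSpectrum (𝓞 K) := ⟨p, Ideal.isPrime_of_prime hpp, hpp.ne_zero⟩
    by_contra hn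
    have hv : v ∉ S := by
      intro hv
      apply hn
      rw [hS', Finset.mem_image]
      exact ⟨v, by simpa using hv, rfl⟩
    have h1 := hev v hv
    have h2 := hd p
    rw [Nat.mod_eq_zero_of_dvd h1, Multiset.count_eq_zero] at h2
    exact h2 hp
  refine ⟨d.prod, ?_, t.prod, ?_, ?_⟩
  · rw [Finset.mem_image]
    refine ⟨fun x => ⟨d.count (x : Ideal (𝓞 K)), ?_⟩, Finset.mem_univ _, ?_⟩
    · rw [hd]
      exact Nat.mod_lt _ hn
    · rw [Finset.prod_multiset_count_of_subset d S' (fun p hp =>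
        hdS p (Multiset.mem_toFinset.1 hp))]
      exact Finset.prod_coe_sort S' (fun x => x ^ d.count x)
  · intro h0
    rw [Multiset.prod_eq_zero_iff] at h0
    exact (UniqueFactorizationMonoid.prime_of_normalized_factor _ (ht _ h0)).ne_zero rfl
  · have h2 : (UniqueFactorizationMonoid.normalizedFactors I).prod = I := by
      have := UniqueFactorizationMonoid.prod_normalizedFactors hI
      exact associated_iff_eq.mp this
    conv_lhs => rw [← h2, hs]
    rw [Multiset.prod_add, Multiset.prod_nsmul]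

/-- integral version -/
lemma sel_int (n : ℕ) (hn : 0 < n) (S : Set (HeightOneSpectrum (𝓞 K))) (hS : S.Finite) :
    ∃ T : Finset (𝓞 K), T.card ≤ n ^ S.ncard * (cln n K * n ^ Module.finrank ℚ K) ∧
      (∀ t ∈ T, t ≠ 0) ∧ ∀ a : 𝓞 K, a ≠ 0 →
      (∀ v : HeightOneSpectrum (𝓞 K), v ∉ S →
        n ∣ ((UniqueFactorizationMonoid.normalizedFactors (Ideal.span {a})).count v.asIdeal)) →
      ∃ t ∈ T, ∃ x y : 𝓞 K, x ≠ 0 ∧ y ≠ 0 ∧ x ^ n * a = t * y ^ n := by
  classical
  obtain ⟨D, hDc, hD⟩ := ideal_div n hn S hS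
  obtain ⟨U, hUc, hU⟩ := units_pow n hn K
  -- the relation between integers and (ideal, class)
  let Rel : Ideal (𝓞 K) × ClassGroup (𝓞 K) → 𝓞 K → Prop := fun c a =>
    a ≠ 0 ∧ ∃ J : (Ideal (𝓞 K))⁰, Ideal.span {a} = (J : Ideal (𝓞 K)) ^ n * c.1 ∧
      ClassGroup.mk0 J = c.2
  let rep : Ideal (𝓞 K) × ClassGroup (𝓞 K) → 𝓞 K := fun c =>
    if h : ∃ a, Rel c a then Classical.choose h else 1
  have hrep0 : ∀ c, rep c ≠ 0 := by
    intro c
    simp only [rep]
    split_ifs with h
    · exact (Classical.choose_spec h).1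
    · exact one_ne_zero
  let Kf : Ideal (𝓞 K) → Finset (ClassGroup (𝓞 K)) := fun d =>
    Finset.univ.filter fun κ => ∃ a, Rel (d, κ) a
  have hKf : ∀ d, (Kf d).card ≤ cln n K := by
    intro d
    rcases (Kf d).eq_empty_or_nonempty with h | ⟨κ₀, hκ₀⟩
    · rw [h, Finset.card_empty]; exact Nat.zero_le _
    have hsq : ∀ κ ∈ Kf d, (κ / κ₀) ^ n = 1 := by
      intro κ hκ
      rw [Finset.mem_filter] at hκ hκ₀
      obtain ⟨-, a, ha0, J, hJ, hκJ⟩ := hκ
      obtain ⟨-, a₀, ha00, J₀, hJ₀, hκJ₀⟩ := hκ₀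
      have hd0 : d ≠ 0 := by
        rintro rfl
        simp only [mul_zero] at hJ
        rw [Ideal.zero_eq_bot, Ideal.span_singleton_eq_bot] at hJ
        exact ha0 hJ
      set δ : (Ideal (𝓞 K))⁰ := ⟨d, mem_nonZeroDivisors_iff_ne_zero.mpr hd0⟩ with hδ
      have key : ∀ (J : (Ideal (𝓞 K))⁰) (a : 𝓞 K), Ideal.span {a} = (J : Ideal (𝓞 K)) ^ n * d →
          ClassGroup.mk0 J ^ n * ClassGroup.mk0 δ = 1 := by
        intro J a h
        rw [← map_pow, ← map_mul]
        have h1 : J ^ n * δ = ⟨((J ^ n * δ : (Ideal (𝓞 K))⁰) : Ideal (𝓞 K)), (J ^ n * δ).2⟩ := rfl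
        rw [h1, ClassGroup.mk0_eq_one_iff]
        have h2 : ((J ^ n * δ : (Ideal (𝓞 K))⁰) : Ideal (𝓞 K)) = Ideal.span {a} := by
          rw [h]
          rfl
        rw [h2]
        exact ⟨⟨a, rfl⟩⟩
      have k1 := key J a hJ
      have k2 := key J₀ a₀ hJ₀
      rw [hκJ] at k1
      rw [hκJ₀] at k2
      rw [div_pow, div_eq_one]
      exact mul_right_cancel (k1.trans k2.symm)
    unfold cln
    rw [Nat.card_eq_fintype_card, Fintype.card_subtype]
    refine Finset.card_le_card_of_injOn (fun κ => κ / κ₀) (fun κ hκ => ?_) ?_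
    · rw [Finset.coe_filter]
      exact ⟨Finset.mem_univ _, hsq κ hκ⟩
    · intro κ _ κ' _ h
      exact div_left_injective h
  let T : Finset (𝓞 K) := D.biUnion fun d => ((Kf d) ×ˢ U).image
    (fun c => rep (d, c.1) * (c.2 : 𝓞 K))
  refine ⟨T, ?_, ?_, ?_⟩
  · refine (Finset.card_biUnion_le_card_mul _ _ (cln n K * n ^ Module.finrank ℚ K) fun d _ => ?_).trans
      (Nat.mul_le_mul_right _ hDc)
    refine Finset.card_image_le.trans ?_
    rw [Finset.card_product]
    exact Nat.mul_le_mul (hKf d) hUc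
  · intro t ht
    simp only [T, Finset.mem_biUnion, Finset.mem_image] at ht
    obtain ⟨d, -, c, -, rfl⟩ := ht
    exact mul_ne_zero (hrep0 _) (Units.ne_zero _)
  · intro a ha hev
    have hI : Ideal.span {a} ≠ (0 : Ideal (𝓞 K)) := by simpa using ha
    obtain ⟨d, hd, J, hJ, hIJ⟩ := hD _ hI hev
    set J' : (Ideal (𝓞 K))⁰ := ⟨J, mem_nonZeroDivisors_iff_ne_zero.mpr hJ⟩ with hJ'
    have hR : Rel (d, ClassGroup.mk0 J') a := ⟨ha, J', hIJ, rfl⟩
    have hex : ∃ a, Rel (d, ClassGroup.mk0 J') a := ⟨a, hR⟩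
    have hrepe : rep (d, ClassGroup.mk0 J') = Classical.choose hex := by
      simp only [rep]
      rw [dif_pos hex]
    obtain ⟨hb0, J2, hJ2, hcl⟩ := Classical.choose_spec hex
    rw [← hrepe] at hb0 hJ2
    set b := rep (d, ClassGroup.mk0 J') with hb
    obtain ⟨x, y, hx, hy, hxy⟩ := ClassGroup.mk0_eq_mk0_iff.mp hcl
    -- x J2 = y J
    have h1 : Ideal.span {y ^ n * a} = Ideal.span {x ^ n * b} := by
      rw [← Ideal.span_singleton_mul_span_singleton, ← Ideal.span_singleton_mul_span_singleton,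
        ← Ideal.span_singleton_pow, ← Ideal.span_singleton_pow, hIJ, hJ2]
      have h2 : (Ideal.span {y} * (J' : Ideal (𝓞 K))) = Ideal.span {x} * (J2 : Ideal (𝓞 K)) :=
        hxy.symm
      calc Ideal.span {y} ^ n * (J ^ n * d) = (Ideal.span {y} * J) ^ n * d := by
            rw [mul_pow, mul_assoc]
        _ = (Ideal.span {x} * (J2 : Ideal (𝓞 K))) ^ n * d := by rw [← h2]
        _ = _ := by rw [mul_pow, mul_assoc]
    rw [Ideal.span_singleton_eq_span_singleton] at h1
    obtain ⟨u, hu⟩ := h1.symm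
    obtain ⟨t, ht, w, hw⟩ := hU u
    refine ⟨b * (t : 𝓞 K), ?_, y, x * (w : 𝓞 K), hy, mul_ne_zero hx (Units.ne_zero _), ?_⟩
    · simp only [T, Finset.mem_biUnion, Finset.mem_image]
      refine ⟨d, hd, (ClassGroup.mk0 J', t), ?_, rfl⟩
      rw [Finset.mem_product]
      exact ⟨Finset.mem_filter.2 ⟨Finset.mem_univ _, hex⟩, ht⟩
    · rw [← hu, hw]
      push_cast
      rw [mul_pow]
      ring

/-- the explicit finiteness of `K(S,n)` -/
theorem sel_card (n : ℕ) (hn : 0 < n) (S : Set (HeightOneSpectrum (𝓞 K))) (hS : S.Finite) :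
    ∃ T : Finset K, T.card ≤ n ^ S.ncard * (cln n K * n ^ Module.finrank ℚ K) ∧
      (∀ t ∈ T, t ≠ 0) ∧ UC.Good S n T := by
  classical
  obtain ⟨T, hTc, hT0, hT⟩ := sel_int n hn S hS
  refine ⟨T.image (fun t => algebraMap (𝓞 K) K t), Finset.card_image_le.trans hTc, ?_, ?_⟩
  · intro t ht
    obtain ⟨s, hs, rfl⟩ := Finset.mem_image.mp ht
    simpa using hT0 s hs
  · intro a₀ ha₀ hev
    set a : Kˣ := Units.mk0 a₀ ha₀ with ha
    obtain ⟨p, q, hq, hpq⟩ := IsFractionRing.div_surjective (A := 𝓞 K) (a : K)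
    have hq0 : q ≠ 0 := nonZeroDivisors.ne_zero hq
    have hqK : algebraMap (𝓞 K) K q ≠ 0 := by simpa using hq0
    have hp0 : p ≠ 0 := by
      rintro rfl
      rw [map_zero, zero_div] at hpq
      exact a.ne_zero hpq.symm
    have hr0 : p * q ^ (n - 1) ≠ 0 := mul_ne_zero hp0 (pow_ne_zero _ hq0)
    have hpqK : algebraMap (𝓞 K) K (p * q ^ (n - 1)) ≠ 0 := by
      rw [Ne, map_eq_zero_iff _ (RingOfIntegers.coe_injective)]
      exact hr0
    have hqn : algebraMap (𝓞 K) K q ^ n = algebraMap (𝓞 K) K q ^ (n - 1) * algebraMap (𝓞 K) K q := by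
      rw [← pow_succ]
      congr 1
      omega
    obtain ⟨t, ht, x, y, hx, hy, hxy⟩ := hT (p * q ^ (n - 1)) hr0 (by
      intro v hv
      have h1 := Pool.Agent.H437R2.Man.MW.val_int v (p * q ^ (n - 1)) hr0 (Units.mk0 _ hpqK) rfl
      have h2 : Units.mk0 _ hpqK = a * (Units.mk0 _ hqK) ^ n := by
        apply Units.ext
        rw [Units.val_mul, Units.val_pow_eq_pow_val, ← hpq, Units.val_mk0, Units.val_mk0, map_mul,
          map_pow, hqn]
        field_simp
      rw [h2, map_mul, map_pow, toAdd_mul, toAdd_pow] at h1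
      have h3 : (n : ℤ) ∣ (-((UniqueFactorizationMonoid.normalizedFactors
          (Ideal.span {p * q ^ (n - 1)})).count v.asIdeal : ℤ)) := by
        rw [← h1]
        obtain ⟨g, hg⟩ := hev v hv
        have h4 := UC.dvd_of_pow v a hg
        refine dvd_add h4 ?_
        rw [nsmul_eq_mul]
        exact Dvd.intro _ rfl
      rw [dvd_neg] at h3
      exact_mod_cast h3)
    have hxK : algebraMap (𝓞 K) K x ≠ 0 := by simpa using hx
    have hyK : algebraMap (𝓞 K) K y ≠ 0 := by simpa using hy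
    refine ⟨algebraMap (𝓞 K) K t, Finset.mem_image_of_mem _ ht,
      algebraMap (𝓞 K) K y / (algebraMap (𝓞 K) K x * algebraMap (𝓞 K) K q),
      div_ne_zero hyK (mul_ne_zero hxK hqK), ?_⟩
    have h4 := congrArg (algebraMap (𝓞 K) K) hxy
    simp only [map_mul, map_pow] at h4
    have h5 : a₀ = algebraMap (𝓞 K) K p / algebraMap (𝓞 K) K q := hpq.symm
    rw [h5, div_pow, mul_pow, ← mul_div_assoc, div_eq_div_iff hqK
      (mul_ne_zero (pow_ne_zero _ hxK) (pow_ne_zero _ hqK)), hqn]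
    linear_combination (algebraMap (𝓞 K) K q) * h4

end Pool.Agent.Zk42.UT
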