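import Pool.Agent.Zk42.UT.Ratio
import Pool.Agent.Zk42.UT.Sel
import Pool.Agent.Zk42.UV.Main

/-! The bound for the number of the preperiodic points, uniformly in the field, from cubic
classes. -/

set_option autoImplicit false

namespace Pool.Agent.Zk42.UT

open Pool.Agent.Zk42.UC Pool.Agent.Zk42.UG Finset Polynomial Module IsDedekindDomain NumberField
open scoped WithZero

/-- the classes may be represented by elements with valuations divisible by `n` -/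
lemma good_filter' {L : Type} [Field L] [NumberField L] {S : Set (HeightOneSpectrum (𝓞 L))}
    {n : ℕ} {T : Finset L} (hT : Good S n T) :
    ∃ T' ⊆ T, Good S n T' ∧ ∀ t ∈ T', ∀ v ∉ S, ∃ g : ℤᵐ⁰, v.valuation L t = g ^ n := by
  classical
  refine ⟨T.filter fun t => ∀ v ∉ S, ∃ g : ℤᵐ⁰, v.valuation L t = g ^ n, filter_subset _ _, ?_,
    fun t ht => (mem_filter.1 ht).2⟩
  intro a ha hv
  obtain ⟨t, ht, b, hb, e⟩ := hT a ha hv
  refine ⟨t, mem_filter.2 ⟨ht, fun v hvS => ?_⟩, b, hb, e⟩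
  obtain ⟨g, hg⟩ := hv v hvS
  have hvb : v.valuation L b ≠ 0 := (Valuation.ne_zero_iff _).2 hb
  refine ⟨g / v.valuation L b, ?_⟩
  rw [e, map_mul, map_pow] at hg
  rw [div_pow, ← hg, mul_div_cancel_right₀ _ (pow_ne_zero _ hvb)]

/-- the number of the preperiodic points whose ratio with `w` is in the set of the ratios -/
theorem rset_unif3 {d : ℕ} (hd : 4 ≤ d) (D m₀ : ℕ) : ∃ N : ℕ, ∀ (L : Type) [Field L]
    [NumberField L] (μ : L), IsPrimitiveRoot μ d → ∀ ω : L, ω ^ 2 + ω + 1 = 0 → finrank ℚ L ≤ D →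
    ∀ S : Set (HeightOneSpectrum (𝓞 L)), (∀ v ∉ S, v.valuation L (d : L) = 1) →
    (∀ v ∉ S, v.valuation L (2 : L) = 1) →
    ∀ T : Finset L, (∀ t ∈ T, t ≠ 0) → Good S 3 T →
    (∀ t ∈ T, ∀ v ∉ S, ∃ g : ℤᵐ⁰, v.valuation L t = g ^ 3) → T.card ≤ m₀ →
    ∀ a b w : L, a ≠ 0 → w ≠ 0 → PP (fu a b d) w → ∀ Y : Finset L,
      (∀ u ∈ Y, PP (fu a b d) u ∧ u / w ∈ Rset L d 3 T) → Y.card ≤ N := by
  classical
  obtain ⟨N, hN⟩ := ratio_unif3 hd D m₀
  refine ⟨m₀ ^ 2 * N, ?_⟩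
  intro L _ _ μ hμ ω hω hLD S hdS h2S T hT0 hT hTe hTc a b w ha hw0 hw Y hY
  have hμd : μ ^ d = 1 := hμ.pow_eq_one
  have hne : ∀ i : ℕ, 0 < i → i < d → μ ^ i ≠ 1 := fun i hi hid h => by
    have := hμ.pow_inj hid (by omega : 0 < d) (by rw [h, pow_zero])
    omega
  have n1 : μ ≠ 1 := by simpa using hne 1 (by omega) (by omega)
  have p : ∀ i : ℕ, (μ ^ i) ^ d = 1 := fun i => by rw [← pow_mul, mul_comm, pow_mul, hμd, one_pow]
  have hcl : ∀ u ∈ Y, ∃ c ∈ T ×ˢ T, ∃ r : L,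
      (u / w - μ) * (u / w - μ ^ 2) = (c.1 * c.2) * r ^ 3 * (u / w - μ ^ 3) ^ 2 := by
    intro u hu
    obtain ⟨-, h1, h2⟩ := hY u hu
    obtain ⟨τ₁, hτ₁, x₁, -, e₁⟩ := h2 μ (μ ^ 3) hμd (p 3) n1 (hne 3 (by omega) (by omega))
    obtain ⟨τ₂, hτ₂, x₂, -, e₂⟩ := h2 (μ ^ 2) (μ ^ 3) (p 2) (p 3) (hne 2 (by omega) (by omega))
      (hne 3 (by omega) (by omega))
    refine ⟨(τ₁, τ₂), ?_, x₁ * x₂, ?_⟩
    · simp only [mem_product]
      exact ⟨hτ₁, hτ₂⟩
    · rw [e₁, e₂]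
      ring
  choose! c hc1 hc2 using hcl
  have hfib : ∀ x ∈ T ×ˢ T, (Y.filter fun u => c u = x).card ≤ N := by
    intro x hx
    simp only [mem_product] at hx
    have hinj : Set.InjOn (fun u : L => u / w) ((Y.filter fun u => c u = x : Finset L) : Set L) :=
      fun u _ u' _ h => (div_left_inj' hw0).1 h
    rw [← card_image_of_injOn hinj]
    refine hN L μ hμ ω hω hLD S hdS h2S T hT0 hT hTc (x.1 * x.2)
      (mul_ne_zero (hT0 _ hx.1) (hT0 _ hx.2)) ?_ a b w ha hw0 hw _ ?_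
    · intro v hv
      obtain ⟨g₁, h₁⟩ := hTe _ hx.1 v hv
      obtain ⟨g₂, h₂⟩ := hTe _ hx.2 v hv
      exact ⟨g₁ * g₂, by rw [map_mul, h₁, h₂, mul_pow]⟩
    · intro t ht
      obtain ⟨u, hu, rfl⟩ := mem_image.1 ht
      rw [mem_filter] at hu
      obtain ⟨hPu, h1, -⟩ := hY u hu.1
      refine ⟨⟨u, hPu, rfl⟩, h1, ?_⟩
      obtain ⟨r, hr⟩ := hc2 u hu.1
      rw [hu.2] at hr
      exact ⟨r, hr⟩
  have h1 := card_le_mul_card_image_of_maps_to (f := c) (s := Y) (t := T ×ˢ T) hc1 N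
    (fun x hx => hfib x hx)
  refine h1.trans ?_
  rw [card_product, Nat.mul_comm]
  refine Nat.mul_le_mul_right _ ?_
  calc T.card * T.card = T.card ^ 2 := by ring
    _ ≤ m₀ ^ 2 := Nat.pow_le_pow_left hTc 2

/-- the uniform bound -/
theorem main_unif3 {d : ℕ} (hd : 4 ≤ d) (D R s : ℕ) : ∃ B : ℕ, ∀ (K : Type) [Field K]
    [NumberField K], finrank ℚ K ≤ D → cln 3 (CyclotomicField (3 * d) K) ≤ R →
    ∀ S : Set (HeightOneSpectrum (𝓞 K)), S.Finite → S.ncard ≤ s →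
    ∀ a b : K, a ≠ 0 → CondK S a b d 3 → ∀ X : Finset K, (∀ x ∈ X, PP (fu a b d) x) →
      X.card ≤ B := by
  classical
  have hne : NeZero (3 * d) := ⟨by omega⟩
  set E := D * (3 * d) with hE
  obtain ⟨N, hN⟩ := rset_unif3 hd E (3 ^ (s * (3 * d) + 2 * d * E) * (R * 3 ^ E))
  refine ⟨1 + ((N + 1) + d * (N + 1) + (N + 1) * N + (N + 1) * (N * d)), ?_⟩
  intro K _ _ hKD hKR S hS hSs a b ha hC X hX
  let L := CyclotomicField (3 * d) K
  have hζ : IsPrimitiveRoot (IsCyclotomicExtension.zeta (3 * d) K L) (3 * d) :=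
    IsCyclotomicExtension.zeta_spec (3 * d) K L
  set ζ := IsCyclotomicExtension.zeta (3 * d) K L with hζd
  have hμ : IsPrimitiveRoot (ζ ^ 3) d := hζ.pow (by omega) rfl
  have hω' : IsPrimitiveRoot (ζ ^ d) 3 := hζ.pow (by omega) (by ring)
  have hω : (ζ ^ d) ^ 2 + ζ ^ d + 1 = 0 := by
    have h1 := hω'.isRoot_cyclotomic (by norm_num)
    rw [cyclotomic_three, IsRoot.def] at h1
    simpa using h1
  have hLK : finrank K L ≤ 3 * d := UV.cyclo_finrank K (3 * d)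
  have hLD : finrank ℚ L ≤ E := by
    rw [← finrank_mul_finrank ℚ K L]
    exact Nat.mul_le_mul hKD hLK
  set SL : Set (HeightOneSpectrum (𝓞 L)) :=
    {w : HeightOneSpectrum (𝓞 L) | HeightOneSpectrum.under (𝓞 K) w ∈ S} ∪
      {w | w.valuation L ((2 * d : ℕ) : L) ≠ 1} with hSL
  obtain ⟨hf1, hc1⟩ := UV.above_card K L S hS
  obtain ⟨hf2, hc2⟩ := UV.bad_card (K := L) (2 * d) (by omega)
  have hSLfin : SL.Finite := hf1.union hf2
  have hSLc : SL.ncard ≤ s * (3 * d) + 2 * d * E := by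
    refine (Set.ncard_union_le _ _).trans (Nat.add_le_add (hc1.trans (Nat.mul_le_mul hSs hLK)) ?_)
    have h1 : (2 * d) ^ finrank ℚ L ≤ 2 ^ (2 * d * E) := by
      calc (2 * d) ^ finrank ℚ L ≤ (2 ^ (2 * d)) ^ finrank ℚ L :=
            Nat.pow_le_pow_left (Nat.lt_two_pow_self).le _
        _ = 2 ^ (2 * d * finrank ℚ L) := by rw [← pow_mul]
        _ ≤ 2 ^ (2 * d * E) := Nat.pow_le_pow_right (by norm_num) (Nat.mul_le_mul_left _ hLD)
    exact (Nat.pow_le_pow_iff_right (by norm_num : 1 < 2)).1 (hc2.trans h1)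
  have h2dS : ∀ w ∉ SL, w.valuation L ((d : ℕ) : L) = 1 ∧ w.valuation L (2 : L) = 1 := by
    intro w hw
    rw [hSL, Set.mem_union, not_or] at hw
    have h1 : w.valuation L ((2 * d : ℕ) : L) = 1 := not_not.1 hw.2
    have h2 : w.valuation L ((2 * d : ℕ) : L) = w.valuation L ((2 : ℕ) : L) *
        w.valuation L ((d : ℕ) : L) := by
      rw [← map_mul, Nat.cast_mul]
    rw [h2] at h1
    have a1 := val_nat_le (F := L) w 2
    have a2 := val_nat_le (F := L) w d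
    have k1 : w.valuation L ((2 : ℕ) : L) = 1 := by
      refine le_antisymm a1 ?_
      rw [← h1]
      exact mul_le_of_le_one_right' a2
    have k2 : w.valuation L ((d : ℕ) : L) = 1 := by rwa [k1, one_mul] at h1
    exact ⟨k2, by exact_mod_cast k1⟩
  have hout : ∀ w ∉ SL, w.valuation L ((d : ℕ) : L) = 1 ∧
      ∃ (v : HeightOneSpectrum (𝓞 K)) (e : ℕ), e ≠ 0 ∧ v ∉ S ∧
        v.valuation K ((d : ℕ) : K) = 1 ∧
        ∀ x : K, w.valuation L (algebraMap K L x) = v.valuation K x ^ e := by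
    intro w hw
    have h4 := (h2dS w hw).1
    rw [hSL, Set.mem_union, not_or] at hw
    have hl : w.asIdeal.LiesOver (HeightOneSpectrum.under (𝓞 K) w).asIdeal := ⟨rfl⟩
    have hval := fun x : K => (HeightOneSpectrum.valuation_liesOver (K := K) L
      (HeightOneSpectrum.under (𝓞 K) w) w x).symm
    have he := Ideal.IsDedekindDomain.ramificationIdx'_ne_zero_of_liesOver w.asIdeal
      (HeightOneSpectrum.under (𝓞 K) w).ne_bot
    refine ⟨h4, HeightOneSpectrum.under (𝓞 K) w, _, he, hw.1, ?_, hval⟩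
    have h6 := hval ((d : ℕ) : K)
    rw [map_natCast, h4] at h6
    by_contra hne
    have h7 := pow_lt_one₀ zero_le
      (lt_of_le_of_ne (val_nat_le (HeightOneSpectrum.under (𝓞 K) w) d) hne) he
    exact absurd h6 h7.ne'
  obtain ⟨T₀, hT₀c, hT₀0, hT₀⟩ := sel_card (K := L) 3 (by norm_num) SL hSLfin
  obtain ⟨T, hTsub, hT, hTe⟩ := good_filter' hT₀
  have hTc : T.card ≤ 3 ^ (s * (3 * d) + 2 * d * E) * (R * 3 ^ E) := by
    refine (card_le_card hTsub).trans (hT₀c.trans ?_)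
    refine Nat.mul_le_mul (Nat.pow_le_pow_right (by norm_num) hSLc) ?_
    exact Nat.mul_le_mul hKR (Nat.pow_le_pow_right (by norm_num) hLD)
  have hcount := hN L _ hμ _ hω hLD SL (fun w hw => (h2dS w hw).1) (fun w hw => (h2dS w hw).2) T
    (fun t ht => hT₀0 t (hTsub ht)) hT hTe hTc
  rcases X.eq_empty_or_nonempty with rfl | ⟨x0, hx0⟩
  · simp
  have hinj : Function.Injective (algebraMap K L) := (algebraMap K L).injective
  have hmap := UV.count_L' (n := 3) SL (fun w hw => (h2dS w hw).1) (T := T) hT hμ (by omega)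
    hcount (algebraMap K L a) (algebraMap K L b)
    (fun h => ha ((map_eq_zero (algebraMap K L)).1 h))
    (cond_up (by omega) hout hC (hX x0 hx0))
    (X.map ⟨algebraMap K L, hinj⟩) (by
      intro y hy
      rw [mem_map] at hy
      obtain ⟨x, hx, rfl⟩ := hy
      exact (hX x hx).up)
  rwa [card_map] at hmap

end Pool.Agent.Zk42.UT
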