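import Pool.Agent.Zk42.UT.Main
import Pool.Agent.Zk42.PN.Fib
import Pool.Agent.Zk42.PN.Asm

/-! Endomorphisms of projective spaces with unicritical fibres, uniformly in the field. -/

set_option autoImplicit false

namespace Pool.Agent.Zk42.UT

open Pool.Agent.Zk42.UC Pool.Agent.Zk42.PN Finset MvPolynomial IsDedekindDomain NumberField
open scoped WithZero

/-- the data: `p` divides `d - 1`, and the roots of unity of order `n` are used -/
def Tr (d p n : ℕ) : Prop :=
  5 ≤ d ∧ d % 2 = 1 ∧ p = 2 ∧ n = d ∨ 4 ≤ d ∧ d % 3 = 1 ∧ p = 3 ∧ n = 3 * d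

lemma Tr.dvd {d p n : ℕ} (h : Tr d p n) : p ∣ d - 1 := by
  rcases h with ⟨h1, h2, rfl, -⟩ | ⟨h1, h2, rfl, -⟩ <;> omega

lemma Tr.two {d p n : ℕ} (h : Tr d p n) : 2 ≤ d := by
  rcases h with ⟨h1, -⟩ | ⟨h1, -⟩ <;> omega

/-- the uniform bound for unicritical polynomials -/
theorem uni {d p n : ℕ} (h : Tr d p n) (D R : ℕ) : ∃ B : ℕ, 1 ≤ B ∧ ∀ (K : Type) [Field K]
    [NumberField K], Module.finrank ℚ K ≤ D → cln p (CyclotomicField n K) ≤ R →
    ∀ l : K, l ≠ 0 → ∀ (b : K) (Z : Finset K), (∀ z ∈ Z, PP (fu (l ^ p)⁻¹ b d) z) →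
      Z.card ≤ B := by
  have hcond : ∀ (K : Type) [Field K] [NumberField K] (l : K), l ≠ 0 → ∀ b : K,
      CondK (∅ : Set (HeightOneSpectrum (𝓞 K))) (l ^ p)⁻¹ b d p := by
    intro K _ _ l hl b v _ _ r _
    obtain ⟨k, hk⟩ := h.dvd
    refine ⟨(v.valuation K l)⁻¹ * r ^ k, ?_⟩
    rw [map_inv₀, map_pow, mul_pow, inv_pow, ← pow_mul, hk, Nat.mul_comm]
  rcases h with ⟨h1, h2, rfl, rfl⟩ | ⟨h1, h2, rfl, rfl⟩
  · obtain ⟨B, hB⟩ := UV.main_unif h1 D R 0
    refine ⟨B + 1, by omega, ?_⟩
    intro K _ _ hD hR l hl b Z hZ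
    refine (hB K hD ?_ ∅ Set.finite_empty (by rw [Set.ncard_empty]) _ b
      (inv_ne_zero (pow_ne_zero _ hl)) (hcond K l hl b) Z hZ).trans (Nat.le_succ B)
    exact hR
  · obtain ⟨B, hB⟩ := main_unif3 h1 D R 0
    refine ⟨B + 1, by omega, ?_⟩
    intro K _ _ hD hR l hl b Z hZ
    exact (hB K hD hR ∅ Set.finite_empty (by rw [Set.ncard_empty]) _ b
      (inv_ne_zero (pow_ne_zero _ hl)) (hcond K l hl b) Z hZ).trans (Nat.le_succ B)

lemma iter_pow {K : Type} [Field K] (d : ℕ) (z : K) (n : ℕ) : (fu (1 : K) 0 d)^[n] z = z ^ d ^ n := by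
  induction n with
  | zero => simp
  | succ n ih =>
    rw [Function.iterate_succ_apply', ih]
    unfold fu
    rw [one_mul, add_zero, ← pow_mul, ← pow_succ]

lemma root_pp {K : Type} [Field K] (d : ℕ) {z : K} {k : ℕ} (hk : 0 < k) (h : z ^ k = 1) :
    PP (fu (1 : K) 0 d) z := by
  have : NeZero k := ⟨hk.ne'⟩
  obtain ⟨m, n, hmn, he⟩ := Finite.exists_ne_map_eq_of_infinite (fun n : ℕ => ((d ^ n : ℕ) : ZMod k))
  have key : ∀ m n : ℕ, ((d ^ m : ℕ) : ZMod k) = ((d ^ n : ℕ) : ZMod k) →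
      z ^ d ^ m = z ^ d ^ n := by
    intro m n he
    rw [ZMod.natCast_eq_natCast_iff] at he
    rw [← Nat.mod_add_div (d ^ m) k, ← Nat.mod_add_div (d ^ n) k, pow_add, pow_add, pow_mul,
      pow_mul, h, one_pow, one_pow, he]
  rcases lt_or_gt_of_ne hmn with h' | h'
  · exact ⟨m, n, h', by rw [iter_pow, iter_pow]; exact key m n he⟩
  · exact ⟨n, m, h', by rw [iter_pow, iter_pow]; exact key n m he.symm⟩

section split

/-- `(x_0 ^ d : x_1 ^ d + c_1 x_0 ^ d : …)` -/
noncomputable def split {K : Type} [Field K] {N : ℕ} (c : Fin N → K) (d : ℕ) :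
    Fin (N + 1) → MvPolynomial (Fin (N + 1)) K :=
  Fin.cons (X 0 ^ d) fun i => X i.succ ^ d + C (c i) * X 0 ^ d

variable {K : Type} [Field K] {N d : ℕ}

lemma act_split_zero (c : Fin N → K) (x : Fin (N + 1) → K) : act (split c d) x 0 = x 0 ^ d := by
  unfold act split
  rw [Fin.cons_zero, map_pow, eval_X]

lemma act_split_succ (c : Fin N → K) (x : Fin (N + 1) → K) (i : Fin N) :
    act (split c d) x i.succ = x i.succ ^ d + c i * x 0 ^ d := by
  unfold act split
  rw [Fin.cons_succ, map_add, map_pow, eval_X, map_mul, eval_C, map_pow, eval_X]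

lemma hom_split (c : Fin N → K) (i : Fin (N + 1)) : (split c d i).IsHomogeneous d := by
  have h1 : ∀ j : Fin (N + 1), (X j ^ d : MvPolynomial (Fin (N + 1)) K).IsHomogeneous d := by
    intro j
    have := (isHomogeneous_X K j).pow d
    rwa [one_mul] at this
  refine Fin.cases ?_ (fun j => ?_) i
  · unfold split
    rw [Fin.cons_zero]
    exact h1 0
  · unfold split
    rw [Fin.cons_succ]
    refine (h1 _).add ?_
    have := (isHomogeneous_C (Fin (N + 1)) (c j)).mul (h1 0)
    rwa [zero_add] at this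

lemma mor_split (hd : 0 < d) (c : Fin N → K) : Mor (split c d) := by
  intro x hx
  have h0 : x 0 = 0 := by
    have := hx 0
    unfold split at this
    rw [Fin.cons_zero, map_pow, aeval_X] at this
    exact eq_zero_of_pow_eq_zero this
  funext i
  refine Fin.cases h0 (fun j => ?_) i
  have := hx j.succ
  unfold split at this
  rw [Fin.cons_succ, map_add, map_pow, aeval_X, map_mul, map_pow, aeval_X, h0,
    zero_pow hd.ne', mul_zero, add_zero] at this
  exact eq_zero_of_pow_eq_zero this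

/-- iterates in the affine part -/
lemma iter_split (c : Fin N → K) {x : Fin (N + 1) → K} (hx : x 0 ≠ 0) (n : ℕ) :
    (act (split c d))^[n] x 0 = x 0 ^ d ^ n ∧ ∀ i : Fin N,
      (act (split c d))^[n] x i.succ = x 0 ^ d ^ n * (fu 1 (c i) d)^[n] (x i.succ / x 0) := by
  induction n with
  | zero =>
    refine ⟨by simp, fun i => ?_⟩
    simp only [Function.iterate_zero, id, pow_zero, pow_one]
    rw [mul_div_cancel₀ _ hx]
  | succ n ih =>
    obtain ⟨h1, h2⟩ := ih
    refine ⟨?_, fun i => ?_⟩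
    · rw [Function.iterate_succ_apply', act_split_zero, h1, ← pow_mul, ← pow_succ]
    · rw [Function.iterate_succ_apply', act_split_succ, h1, h2 i, Function.iterate_succ_apply']
      show _ = x 0 ^ d ^ (n + 1) * (1 * (fu 1 (c i) d)^[n] (x i.succ / x 0) ^ d + c i)
      rw [pow_succ, pow_mul]
      ring

/-- iterates at infinity -/
lemma iter_split' (hd : 0 < d) (c : Fin N → K) {x : Fin (N + 1) → K} (hx : x 0 = 0) (n : ℕ)
    (j : Fin (N + 1)) : (act (split c d))^[n] x j = x j ^ d ^ n := by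
  induction n generalizing j with
  | zero => simp
  | succ n ih =>
    rw [Function.iterate_succ_apply']
    refine Fin.cases ?_ (fun i => ?_) j
    · rw [act_split_zero, ih, ← pow_mul, ← pow_succ]
    · rw [act_split_succ, ih, ih, hx, ← pow_mul, ← pow_succ, zero_pow (pow_ne_zero _ hd.ne'),
        zero_pow hd.ne', mul_zero, add_zero]

/-- the count for the split maps -/
theorem split_count (hd : 2 ≤ d) {B : ℕ} (hB1 : 1 ≤ B)
    (hB : ∀ (b : K) (Z : Finset K), (∀ z ∈ Z, PP (fu 1 b d) z) → Z.card ≤ B) (c : Fin N → K) :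
    AtMost ((N + 1) * B ^ N) (split c d) := by
  classical
  intro X hX0 hXp hX
  have hd0 : 0 < d := by omega
  have hZ : ∀ b : K, ∃ Z : Finset K, (∀ u, PP (fu 1 b d) u → u ∈ Z) ∧ Z.card ≤ B :=
    fun b => Pool.Agent.Zk42.UG.finset_of_bound _ B (hB b)
  choose Z hZ1 hZ2 using hZ
  -- the coordinates
  let A : Fin (N + 1) → Fin (N + 1) → Finset K := fun i =>
    if i = 0 then Fin.cons {1} fun j => Z (c j) else fun j => if j = i then {1} else Z 0
  let P : Finset (Fin (N + 1) → K) := univ.biUnion fun i => Fintype.piFinset (A i)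
  have hone : ∀ i, A i i = {1} := by
    intro i
    by_cases hi : i = 0
    · subst hi
      simp only [A, if_true, Fin.cons_zero]
    · simp only [A, if_neg hi, if_true]
  have hle : ∀ i j, (A i j).card ≤ B := by
    intro i j
    by_cases hi : i = 0
    · simp only [A, if_pos hi]
      refine Fin.cases ?_ (fun k => ?_) j
      · rw [Fin.cons_zero, card_singleton]
        exact hB1
      · rw [Fin.cons_succ]
        exact hZ2 _
    · simp only [A, if_neg hi]
      split_ifs
      · rw [card_singleton]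
        exact hB1
      · exact hZ2 _
  have hPc : P.card ≤ (N + 1) * B ^ N := by
    refine (card_biUnion_le_card_mul _ _ (B ^ N) fun i _ => ?_).trans (by
      rw [card_univ, Fintype.card_fin])
    rw [Fintype.card_piFinset, ← mul_prod_erase univ _ (mem_univ i), hone, card_singleton, one_mul]
    refine (prod_le_pow_card _ _ B fun j _ => hle i j).trans ?_
    rw [card_erase_of_mem (mem_univ i), card_univ, Fintype.card_fin, Nat.add_sub_cancel]
  have hex : ∀ x ∈ X, ∃ y ∈ P, ∃ s : K, s ≠ 0 ∧ x = s • y := by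
    intro x hx
    obtain ⟨m, n, hmn, e, he0, he⟩ := hX x hx
    by_cases h0 : x 0 = 0
    · obtain ⟨i, hi⟩ := Function.ne_iff.1 (hX0 x hx)
      have hi' : x i ≠ 0 := hi
      have hi0 : i ≠ 0 := by
        rintro rfl
        exact hi' h0
      refine ⟨fun j => x j / x i, ?_, x i, hi', ?_⟩
      · refine mem_biUnion.2 ⟨i, mem_univ _, Fintype.mem_piFinset.2 fun j => ?_⟩
        simp only [A, if_neg hi0]
        split_ifs with hj
        · subst hj
          rw [div_self hi', mem_singleton]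
        · apply hZ1
          refine ⟨m, n, hmn, ?_⟩
          rw [iter_pow, iter_pow]
          have e1 := congrFun he i
          have e2 := congrFun he j
          rw [Pi.smul_apply, smul_eq_mul, iter_split' hd0 c h0, iter_split' hd0 c h0] at e1 e2
          rw [div_pow, div_pow, e1, e2, mul_div_mul_left _ _ he0]
      · funext j
        rw [Pi.smul_apply, smul_eq_mul, mul_div_cancel₀ _ hi']
    · refine ⟨fun j => x j / x 0, ?_, x 0, h0, ?_⟩
      · refine mem_biUnion.2 ⟨0, mem_univ _, Fintype.mem_piFinset.2 fun j => ?_⟩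
        simp only [A, if_true]
        refine Fin.cases ?_ (fun k => ?_) j
        · rw [Fin.cons_zero, div_self h0, mem_singleton]
        · rw [Fin.cons_succ]
          apply hZ1
          refine ⟨m, n, hmn, ?_⟩
          have e1 := congrFun he 0
          have e2 := congrFun he k.succ
          rw [Pi.smul_apply, smul_eq_mul, (iter_split c h0 _).1, (iter_split c h0 _).1] at e1
          rw [Pi.smul_apply, smul_eq_mul, (iter_split c h0 _).2, (iter_split c h0 _).2, e1,
            mul_assoc] at e2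
          exact (mul_left_cancel₀ (pow_ne_zero _ h0) (mul_left_cancel₀ he0 e2)).symm
      · funext j
        rw [Pi.smul_apply, smul_eq_mul, mul_div_cancel₀ _ h0]
  choose! y hy s hs hxy using hex
  refine (card_le_card_of_injOn y (fun x hx => hy x hx) ?_).trans hPc
  intro x hx x' hx' h
  refine hXp x hx x' hx' (s x / s x') ?_
  have h' : y x = y x' := h
  calc x = s x • y x := hxy x hx
    _ = (s x / s x') • (s x' • y x') := by
        rw [smul_smul, div_mul_cancel₀ _ (hs x' hx'), h']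
    _ = (s x / s x') • x' := by rw [← hxy x' hx']

end split

/-- the relative bound -/
theorem skew_unif {d p n : ℕ} (h : Tr d p n) (D R M m B₀ : ℕ) : ∃ B : ℕ, ∀ (K : Type) [Field K]
    [NumberField K], Module.finrank ℚ K ≤ D → cln p (CyclotomicField n K) ≤ R →
    ∀ φ : Fin (M + 1) → MvPolynomial (Fin (M + 1)) K, (∀ i, (φ i).IsHomogeneous d) →
      Mor φ → AtMost B₀ φ →
      (∀ x : Fin (M + 1) → K, x ≠ 0 → ∀ k : ℕ, 0 < k → (∃ c : K, (act φ)^[k] x = c • x) →
        ∃ l : K, act φ x = l ^ p • x) →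
      ∀ G : Fin m → MvPolynomial (Fin (M + 1)) K, (∀ j, (G j).IsHomogeneous d) →
        AtMost B (skew φ G d) := by
  classical
  have hd2 : 2 ≤ d := h.two
  have hp0 : p ≠ 0 := by
    rcases h with ⟨-, -, rfl, -⟩ | ⟨-, -, rfl, -⟩ <;> norm_num
  obtain ⟨N, hN1, hN⟩ := uni h D R
  refine ⟨m * N ^ m + B₀ * ((d ^ m) ^ B₀ * N ^ m), ?_⟩
  intro K _ _ hD hR φ hφh hφm hφB hper G hG X hX0 hXp hX
  have hNK := hN K hD hR
  obtain ⟨U, hU1, hUc⟩ := Pool.Agent.Zk42.UG.finset_of_bound (fun z => PP (fu (1 : K) 0 d) z) N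
    (fun Z hZ => hNK 1 one_ne_zero 0 Z (fun z hz => by
      rw [one_pow, inv_one]
      exact hZ z hz))
  have hU0 : (0 : K) ∈ U := hU1 0 ⟨0, 1, one_pos, by
    rw [iter_pow, iter_pow, pow_zero, pow_one, pow_one, zero_pow (by omega)]⟩
  have hU : ∀ (z : K) (k : ℕ), 0 < k → z ^ k = 1 → z ∈ U := fun z k hk hz => hU1 z (root_pp d hk hz)
  have hφs : ∀ (c : K) (x : Fin (M + 1) → K), act φ (c • x) = c ^ d • act φ x := act_smul hφh
  have hGs : ∀ (c : K) (x : Fin (M + 1) → K), (fun j => eval (c • x) (G j)) =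
      c ^ d • fun j => eval x (G j) := fun c x => funext fun j => eval_hom (hG j) c x
  have hfin := finite_pre hd2 hφh hφm
  set P : Finset (Fin (M + 1) → K) := hfin.toFinset.filter (fun x => lead x = 1) with hP
  have memP : ∀ w, w ∈ P ↔ lead w = 1 ∧ Pre (K := K) (act φ) w := by
    intro w
    rw [hP, mem_filter, Set.Finite.mem_toFinset]
    constructor
    · rintro ⟨⟨-, h1⟩, h2⟩
      exact ⟨h2, h1⟩
    · rintro ⟨h1, h2⟩
      exact ⟨⟨exists_one h1, h2⟩, h1⟩
  have hP0 : ∀ w ∈ P, w ≠ 0 := by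
    rintro w hw rfl
    obtain ⟨j, hj⟩ := exists_one ((memP _).1 hw).1
    exact zero_ne_one hj
  have hPcard : P.card ≤ B₀ := by
    refine hφB P hP0 ?_ fun w hw => ((memP w).1 hw).2
    intro x hx y hy c hc
    have hc0 : c ≠ 0 := by
      rintro rfl
      rw [zero_smul] at hc
      exact hP0 x hx hc
    have h1 := nrm_smul hc0 y
    rw [← hc, nrm_eq ((memP x).1 hx).1, nrm_eq ((memP y).1 hy).1] at h1
    exact h1
  have hcomp : ∀ x : Fin (M + 1) → K, x ≠ 0 → Pre (K := K) (act φ) x → ∃ w ∈ P, ∃ c : K, c ≠ 0 ∧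
      x = c • w := by
    intro x hx hpre
    refine ⟨nrm x, (memP _).2 ⟨lead_nrm hx, hpre.smul hφs (inv_ne_zero (lead_ne hx))⟩, lead x,
      lead_ne hx, (smul_nrm hx).symm⟩
  -- the base map on the representatives
  have hact : ∀ w : Fin (M + 1) → K, w ≠ 0 → act φ w ≠ 0 := fun w hw => act_ne hφm hw
  have hsk : ∀ (n : ℕ) (w : Fin (M + 1) → K), w ≠ 0 → ∃ s : K, s ≠ 0 ∧
      (act φ)^[n] w = s • (fun w => nrm (act φ w))^[n] w ∧
      (fun w => nrm (act φ w))^[n] w ≠ 0 := by
    intro n w hw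
    induction n with
    | zero => exact ⟨1, one_ne_zero, by rw [one_smul]; rfl, hw⟩
    | succ n ih =>
      obtain ⟨s, hs, h1, h2⟩ := ih
      refine ⟨s ^ d * lead (act φ ((fun w => nrm (act φ w))^[n] w)),
        mul_ne_zero (pow_ne_zero _ hs) (lead_ne (hact _ h2)), ?_, ?_⟩
      · rw [Function.iterate_succ_apply', Function.iterate_succ_apply', h1, hφs, mul_smul,
          smul_nrm (hact _ h2)]
      · rw [Function.iterate_succ_apply']
        exact nrm_ne (hact _ h2)
  have hperP : ∀ w ∈ P, ∀ n : ℕ, 0 < n → (fun w => nrm (act φ w))^[n] w = w →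
      nrm (act φ w) = w := by
    intro w hw n hn h
    obtain ⟨s, hs, h1, -⟩ := hsk n w (hP0 w hw)
    rw [h] at h1
    obtain ⟨c, hc⟩ := hper w (hP0 w hw) n hn ⟨s, h1⟩
    have hc0 : c ^ p ≠ 0 := by
      intro h0
      rw [h0, zero_smul] at hc
      exact hact w (hP0 w hw) hc
    rw [hc, nrm_smul hc0, nrm_eq ((memP w).1 hw).1]
  have key := count_all (κ := Fin m) hd2 hφs (g := fun x j => eval x (G j)) hGs (N := N)
    (B₀ := B₀) U hU0 hU P hP0 hPcard hcomp (fun w => nrm (act φ w)) (fun w => lead (act φ w))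
    (fun w hw => (memP _).2 ⟨lead_nrm (hact w (hP0 w hw)),
      (((memP w).1 hw).2.map hφs).smul hφs (inv_ne_zero (lead_ne (hact w (hP0 w hw))))⟩)
    (fun w hw => lead_ne (hact w (hP0 w hw)))
    (fun w hw => (smul_nrm (hact w (hP0 w hw))).symm) hperP
    (fun w hw hfix b Z hZ => by
      have hfix' : nrm (act φ w) = w := hfix
      have h1 : act φ w = lead (act φ w) • w := by
        have := smul_nrm (hact w (hP0 w hw))
        rw [hfix'] at this
        exact this.symm
      obtain ⟨l, hl⟩ := hper w (hP0 w hw) 1 one_pos ⟨lead (act φ w), h1⟩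
      have h2 : lead (act φ w) = l ^ p := smul_left_injective K (hP0 w hw) (h1.symm.trans hl)
      have hl0 : l ≠ 0 := by
        rintro rfl
        rw [zero_pow hp0] at h2
        exact lead_ne (hact w (hP0 w hw)) h2
      refine hNK l hl0 b Z fun z hz => ?_
      have h3 := hZ z hz
      simp only [h2] at h3
      exact h3)
    (X.image fun x => (x ∘ Sum.inl, x ∘ Sum.inr))
  have hinj : Function.Injective (fun x : Fin (M + 1) ⊕ Fin m → K =>
      ((x ∘ Sum.inl, x ∘ Sum.inr) : (Fin (M + 1) → K) × (Fin m → K))) := by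
    intro x y h
    have h1 : x ∘ Sum.inl = y ∘ Sum.inl := congrArg Prod.fst h
    have h2 : x ∘ Sum.inr = y ∘ Sum.inr := congrArg Prod.snd h
    funext i
    rcases i with i | j
    · exact congrFun h1 i
    · exact congrFun h2 j
  rw [card_image_of_injective _ hinj, Fintype.card_fin] at key
  have key2 : m * U.card ^ m + B₀ * ((d ^ m) ^ B₀ * N ^ m) ≤
      m * N ^ m + B₀ * ((d ^ m) ^ B₀ * N ^ m) := by gcongr
  refine (key ?_ ?_ ?_).trans key2
  · intro p hp
    obtain ⟨x, hx, rfl⟩ := mem_image.1 hp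
    intro h0
    apply hX0 x hx
    apply hinj
    exact h0
  · intro p hp q hq c h
    obtain ⟨x, hx, rfl⟩ := mem_image.1 hp
    obtain ⟨y, hy, rfl⟩ := mem_image.1 hq
    have h1 : x = c • y := by
      apply hinj
      exact h
    rw [hXp x hx y hy c h1]
  · intro p hp
    obtain ⟨x, hx, rfl⟩ := mem_image.1 hp
    obtain ⟨i, j, hij, c, hc, he⟩ := hX x hx
    refine ⟨i, j, hij, c, hc, ?_⟩
    rw [← iter_skew, ← iter_skew, he]
    rfl

end Pool.Agent.Zk42.UT
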