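import Pool.Agent.Zk42.UT.Gap
import Pool.Agent.Zk42.UT.Desc
import Pool.Agent.Zk42.UT.Rank
import Pool.Agent.Zk42.UV.North
import Pool.Agent.Zk42.UG.G6
import Pool.Agent.H437R2.Man.MWWeak

/-! The uniform bound for the number of the ratios in a cubic class. -/

set_option autoImplicit false

namespace Pool.Agent.Zk42.UT

open Pool.Agent.Zk42.UC Pool.Agent.Zk42.UG Pool.Agent.Zk42.UV Finset Polynomial
  Pool.Agent.H437R2.Man Height Height.AdmissibleAbsValues Module IsDedekindDomain NumberField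
open scoped WithZero

/-- cube roots exist in number fields of three times the degree -/
theorem cbrt_field (L : Type) [Field L] [NumberField L] (δ : L) :
    ∃ (F : Type) (_ : Field F) (_ : NumberField F) (φ : L →+* F) (θ : F),
      θ ^ 3 = φ δ ∧ finrank ℚ F ≤ 3 * finrank ℚ L := by
  by_cases h : ∃ r : L, r ^ 3 = δ
  · obtain ⟨r, hr⟩ := h
    exact ⟨L, inferInstance, inferInstance, RingHom.id L, r, by simpa using hr, by omega⟩
  · push Not at h
    have hirr : Irreducible (X ^ 3 - C δ : L[X]) :=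
      X_pow_sub_C_irreducible_of_prime Nat.prime_three h
    have : Fact (Irreducible (X ^ 3 - C δ : L[X])) := ⟨hirr⟩
    have hne : (X ^ 3 - C δ : L[X]) ≠ 0 := hirr.ne_zero
    have hfin : Module.Finite L (AdjoinRoot (X ^ 3 - C δ : L[X])) :=
      (AdjoinRoot.powerBasis hne).finite
    have hnf : NumberField (AdjoinRoot (X ^ 3 - C δ : L[X])) := NumberField.of_module_finite L _
    refine ⟨AdjoinRoot (X ^ 3 - C δ : L[X]), inferInstance, hnf,
      algebraMap L (AdjoinRoot (X ^ 3 - C δ : L[X])), AdjoinRoot.root _, ?_, ?_⟩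
    · have h1 := AdjoinRoot.eval₂_root (X ^ 3 - C δ : L[X])
      rw [eval₂_sub, eval₂_pow, eval₂_X, eval₂_C, sub_eq_zero] at h1
      exact h1
    · have h1 : finrank L (AdjoinRoot (X ^ 3 - C δ : L[X])) = 3 := by
        rw [(AdjoinRoot.powerBasis hne).finrank, AdjoinRoot.powerBasis_dim, natDegree_X_pow_sub_C]
      have h2 := finrank_mul_finrank ℚ L (AdjoinRoot (X ^ 3 - C δ : L[X]))
      rw [h1] at h2
      omega

lemma fg_of_injective {A B : Type} [AddCommGroup A] [AddCommGroup B] (f : A →+ B)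
    (hf : Function.Injective f) (hB : AddGroup.FG B) : AddGroup.FG A := by
  have h1 : Module.Finite ℤ B := Module.Finite.iff_addGroup_fg.mpr hB
  have h2 : IsNoetherian ℤ B := inferInstance
  rw [← Module.Finite.iff_addGroup_fg]
  exact Module.Finite.of_injective f.toIntLinearMap hf

lemma yc_map {L F : Type} [Field L] [Field F] (φ : L →+* F) (z₁ z₂ z₃ t : L) :
    yc (φ z₁) (φ z₂) (φ z₃) (φ t) = φ (yc z₁ z₂ z₃ t) := by
  unfold yc
  simp only [map_add, map_div₀, map_mul, map_sub, map_ofNat]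

/-- the uniform bound for the number of the ratios in one class -/
theorem ratio_unif3 {d : ℕ} (hd : 4 ≤ d) (D m₀ : ℕ) : ∃ N : ℕ, ∀ (L : Type) [Field L]
    [NumberField L] (μ : L), IsPrimitiveRoot μ d → ∀ ω : L, ω ^ 2 + ω + 1 = 0 → finrank ℚ L ≤ D →
    ∀ S : Set (HeightOneSpectrum (𝓞 L)), (∀ v ∉ S, v.valuation L (d : L) = 1) →
    (∀ v ∉ S, v.valuation L (2 : L) = 1) →
    ∀ T : Finset L, (∀ t ∈ T, t ≠ 0) → Good S 3 T → T.card ≤ m₀ →
    ∀ δ : L, δ ≠ 0 → (∀ v ∉ S, ∃ g : ℤᵐ⁰, v.valuation L δ = g ^ 3) →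
    ∀ a b w : L, a ≠ 0 → w ≠ 0 → PP (fu a b d) w → ∀ Y : Finset L,
      (∀ t ∈ Y, (∃ u : L, PP (fu a b d) u ∧ t = u / w) ∧ t ^ d ≠ 1 ∧
        ∃ r : L, (t - μ) * (t - μ ^ 2) = δ * r ^ 3 * (t - μ ^ 3) ^ 2) → Y.card ≤ N := by
  classical
  -- constants
  set κ : ℝ := 1 / (8 * (3 * d + 1)) with hκ
  have hκ0 : 0 < κ := by positivity
  obtain ⟨F, hF⟩ := pack_group ((2 * m₀ + 3) ^ 2) κ hκ0
  set l₀ : ℝ := (9 * D : ℕ) * Real.log 2 with hl₀
  have hl₀0 : 0 ≤ l₀ := by positivity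
  set c3 : ℝ := 30 * (43 * l₀) with hc3
  set c5 : ℝ := 7 * l₀ + c3 with hc5
  have hc30 : 0 ≤ c3 := by positivity
  have hc50 : 0 ≤ c5 := by positivity
  set c1 : ℝ := (2 * d + 183 : ℕ) * ((16 * (d ^ 2 + 2 + d) + 1 : ℕ) * l₀) with hc1
  have hc10 : 0 ≤ c1 := by positivity
  set dd : ℝ := ((d * (d - 1) : ℕ) : ℝ) with hdd
  have hd0 : (0 : ℝ) < d := by
    have : 0 < d := by omega
    exact_mod_cast this
  have hddd : (d : ℝ) ≤ dd := by
    have : d * 1 ≤ d * (d - 1) := Nat.mul_le_mul_left d (by omega)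
    rw [hdd]
    exact_mod_cast (by omega : d ≤ d * (d - 1))
  have hdd0 : 0 < dd := lt_of_lt_of_le hd0 hddd
  set c6 : ℝ := (d * l₀) / dd + c5 + 1 with hc6
  have hc60 : 0 < c6 := by positivity
  set M : ℝ := (3 * d + 1) ^ 2 with hM
  have hM0 : 0 ≤ M := by positivity
  set c8 : ℝ := c1 + 3 * (M * c3) + c6 / 4 with hc8
  set H0 : ℝ := 4 / 3 * d * c8 with hH0
  obtain ⟨N₂, hN₂⟩ := northcott_unif (9 * D) ((H0 + d * l₀) / dd)
  refine ⟨F * (6 * d) + N₂, ?_⟩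
  intro L _ _ μ hμ ω hω hLD S hdS h2S T hT0 hT hTc δ hδ0 hδ a b w ha hw0 hw Y hY
  -- roots of unity
  have hμd : μ ^ d = 1 := hμ.pow_eq_one
  have hne : ∀ i j : ℕ, i < d → j < d → i ≠ j → μ ^ i ≠ μ ^ j := fun i j hi hj hij h =>
    hij (hμ.pow_inj hi hj h)
  have n12 : μ ≠ μ ^ 2 := by simpa using hne 1 2 (by omega) (by omega) (by norm_num)
  have n13 : μ ≠ μ ^ 3 := by simpa using hne 1 3 (by omega) (by omega) (by norm_num)
  have n23 : μ ^ 2 ≠ μ ^ 3 := hne 2 3 (by omega) (by omega) (by norm_num)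
  have p2 : (μ ^ 2) ^ d = 1 := by rw [← pow_mul, mul_comm, pow_mul, hμd, one_pow]
  have p3 : (μ ^ 3) ^ d = 1 := by rw [← pow_mul, mul_comm, pow_mul, hμd, one_pow]
  obtain ⟨z1, hz1⟩ : ∃ z, z = μ := ⟨_, rfl⟩
  obtain ⟨z2, hz2⟩ : ∃ z, z = μ ^ 2 := ⟨_, rfl⟩
  obtain ⟨z3, hz3⟩ : ∃ z, z = μ ^ 3 := ⟨_, rfl⟩
  rw [← hz2, ← hz1] at n12
  rw [← hz3, ← hz1] at n13
  rw [← hz2, ← hz3] at n23
  rw [← hz2] at p2
  rw [← hz3] at p3
  have p1 : z1 ^ d = 1 := by rw [hz1]; exact hμd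
  have hY' : ∀ t ∈ Y, (∃ u : L, PP (fu a b d) u ∧ t = u / w) ∧ t ^ d ≠ 1 ∧
        ∃ r : L, (t - z1) * (t - z2) = δ * r ^ 3 * (t - z3) ^ 2 := by
    rw [hz1, hz2, hz3]
    exact hY
  clear hY
  rename' hY' => hY
  set A := z3 - z1 with hA
  set B := z3 - z2 with hB
  have hA0 : A ≠ 0 := sub_ne_zero.2 n13.symm
  have hB0 : B ≠ 0 := sub_ne_zero.2 n23.symm
  set n := z2 - z1 with hn
  have hn0 : n ≠ 0 := sub_ne_zero.2 n12.symm
  set k := 4 * (A * B) * δ with hk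
  have hk0 : k ≠ 0 := mul_ne_zero (mul_ne_zero (by norm_num) (mul_ne_zero hA0 hB0)) hδ0
  set m := k * n with hm
  have hm0 : m ≠ 0 := mul_ne_zero hk0 hn0
  have htz : ∀ t ∈ Y, t ≠ z3 := by
    intro t ht h
    apply (hY t ht).2.1
    rw [h, p3]
  -- good reduction outside `S`
  have hvm : ∀ v ∉ S, ∃ g : ℤᵐ⁰, v.valuation L m = g ^ 3 := by
    intro v hv
    have hz : ∀ ζ ζ' : L, ζ ^ d = 1 → ζ' ^ d = 1 → ζ ≠ ζ' → v.valuation L (ζ - ζ') = 1 :=
      fun ζ ζ' h h' hne => v_zeta_sub (v.valuation L) (by omega) (hdS v hv) h h' hne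
    have a1 : v.valuation L A = 1 := hz _ _ p3 p1 n13.symm
    have a2 : v.valuation L B = 1 := hz _ _ p3 p2 n23.symm
    have a3 : v.valuation L n = 1 := hz _ _ p2 p1 n12.symm
    have a4 : v.valuation L (4 : L) = 1 := by
      have e : (4 : L) = 2 ^ 2 := by norm_num
      rw [e, map_pow, h2S v hv, one_pow]
    obtain ⟨g, hg⟩ := hδ v hv
    refine ⟨g, ?_⟩
    rw [hm, hk, map_mul, map_mul, map_mul, map_mul, a1, a2, a3, a4, hg]
    simp
  -- the group of the twist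
  obtain ⟨U, hUc, hU⟩ := descent3 hm0 hω hT0 (by
    intro x y hx hxy
    refine hT (y - m) ?_ fun v hv => cube_ord v hm0 hx hxy (h2S v hv) (hvm v hv)
    intro h0
    apply hx
    have : x ^ 3 = 0 := by linear_combination (-1 : L) * hxy + (y + m) * h0
    exact pow_eq_zero_iff (by norm_num) |>.1 this)
  -- the field with the cube roots
  obtain ⟨K₁, _, _, φ₁, θ₁, hθ₁, hK₁⟩ := cbrt_field L k
  obtain ⟨K₂, _, _, φ₂, ν, hν, hK₂⟩ := cbrt_field K₁ (φ₁ n)
  obtain ⟨φ, hφ⟩ : ∃ φ : L →+* K₂, φ = φ₂.comp φ₁ := ⟨_, rfl⟩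
  obtain ⟨θ, hθd⟩ : ∃ θ : K₂, θ = φ₂ θ₁ := ⟨_, rfl⟩
  have hθ : θ ^ 3 = φ k := by rw [hθd, ← map_pow, hθ₁, hφ]; rfl
  have hν' : ν ^ 3 = φ n := by rw [hν, hφ]; rfl
  have hK₂D : finrank ℚ K₂ ≤ 9 * D := by
    calc finrank ℚ K₂ ≤ 3 * finrank ℚ K₁ := hK₂
      _ ≤ 3 * (3 * finrank ℚ L) := by gcongr
      _ ≤ 9 * D := by omega
  clear hθd hφ hK₂ hK₁ hν hθ₁
  set tw : ℝ := ((totalWeight K₂ : ℕ) : ℝ) with htw
  set l : ℝ := tw * Real.log 2 with hl
  have hlog2 : 0 ≤ Real.log 2 := Real.log_nonneg (by norm_num)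
  have hll : l ≤ l₀ := by
    rw [hl, hl₀, htw, totalWeight_eq_finrank]
    have : ((finrank ℚ K₂ : ℕ) : ℝ) ≤ ((9 * D : ℕ) : ℝ) := by exact_mod_cast hK₂D
    gcongr
  have hl0 : 0 ≤ l := by positivity
  have hω₂ : (φ ω) ^ 2 + φ ω + 1 = 0 := by
    have := congrArg φ hω
    simpa only [map_add, map_pow, map_one, map_zero] using this
  obtain ⟨o, ho⟩ : ∃ o, o = φ ω := ⟨_, rfl⟩
  rw [← ho] at hω₂
  have ho3 : o ^ 3 = 1 := by linear_combination (o - 1) * hω₂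
  have hφk : φ k ≠ 0 := (map_ne_zero φ).2 hk0
  have hφn : φ n ≠ 0 := (map_ne_zero φ).2 hn0
  have hθ0 : θ ≠ 0 := by
    rintro rfl
    rw [zero_pow (by norm_num)] at hθ
    exact hφk hθ.symm
  have hν0 : ν ≠ 0 := by
    rintro rfl
    rw [zero_pow (by norm_num)] at hν'
    exact hφn hν'.symm
  have ho1 : o ≠ 1 := by
    rintro rfl
    norm_num at hω₂
  have ho0 : o ≠ 0 := by
    rintro rfl
    norm_num at hω₂
  obtain ⟨e1, he1⟩ : ∃ e, e = ν ^ 2 := ⟨_, rfl⟩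
  obtain ⟨e2, he2⟩ : ∃ e, e = o * ν ^ 2 := ⟨_, rfl⟩
  obtain ⟨e3, he3⟩ : ∃ e, e = o ^ 2 * ν ^ 2 := ⟨_, rfl⟩
  have hν2 : ν ^ 2 ≠ 0 := pow_ne_zero _ hν0
  have q12 : e1 ≠ e2 := by
    intro h
    rw [he1, he2] at h
    have : (o - 1) * ν ^ 2 = 0 := by linear_combination -h
    rcases mul_eq_zero.1 this with h | h
    · exact ho1 (sub_eq_zero.1 h)
    · exact hν2 h
  have q13 : e1 ≠ e3 := by
    intro h
    rw [he1, he3] at h
    have : (o - 1) * ν ^ 2 = 0 := by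
      have e : o ^ 3 * ν ^ 2 - o * ν ^ 2 = 0 := by linear_combination (-o) * h
      rw [ho3] at e
      linear_combination (-1 : K₂) * e
    rcases mul_eq_zero.1 this with h | h
    · exact ho1 (sub_eq_zero.1 h)
    · exact hν2 h
  have q23 : e2 ≠ e3 := by
    intro h
    rw [he2, he3] at h
    have : o * ((o - 1) * ν ^ 2) = 0 := by linear_combination -h
    rcases mul_eq_zero.1 ((mul_eq_zero.1 this).resolve_left ho0) with h | h
    · exact ho1 (sub_eq_zero.1 h)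
    · exact hν2 h
  have hθ2 : θ ^ 2 ≠ 0 := pow_ne_zero _ hθ0
  have r12 : θ ^ 2 * e1 ≠ θ ^ 2 * e2 := fun h => q12 (mul_left_cancel₀ hθ2 h)
  have r13 : θ ^ 2 * e1 ≠ θ ^ 2 * e3 := fun h => q13 (mul_left_cancel₀ hθ2 h)
  have r23 : θ ^ 2 * e2 ≠ θ ^ 2 * e3 := fun h => q23 (mul_left_cancel₀ hθ2 h)
  have hsum0 : e1 + e2 + e3 = 0 := by
    rw [he1, he2, he3]
    linear_combination (ν ^ 2) * hω₂
  have hW : (crv3 m).map φ = MW.crv (θ ^ 2 * e1) (θ ^ 2 * e2) (θ ^ 2 * e3) := by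
    have a2 : θ ^ 2 * e1 + θ ^ 2 * e2 + θ ^ 2 * e3 = 0 := by
      linear_combination (θ ^ 2) * hsum0
    have a4 : θ ^ 2 * e1 * (θ ^ 2 * e2) + θ ^ 2 * e1 * (θ ^ 2 * e3) +
        θ ^ 2 * e2 * (θ ^ 2 * e3) = 0 := by
      rw [he1, he2, he3]
      linear_combination (θ ^ 4 * ν ^ 4 * o) * hω₂
    have a6 : θ ^ 2 * e1 * (θ ^ 2 * e2) * (θ ^ 2 * e3) = φ m ^ 2 := by
      rw [hm, map_mul, ← hθ, ← hν', he1, he2, he3]
      linear_combination (θ ^ 6 * ν ^ 6) * ho3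
    ext
    · simp [crv3, MW.crv]
    · simp only [WeierstrassCurve.map, crv3, MW.crv, map_zero]
      exact a2.symm
    · simp [crv3, MW.crv]
    · simp only [WeierstrassCurve.map, crv3, MW.crv, map_zero]
      exact a4.symm
    · simp only [WeierstrassCurve.map, crv3, MW.crv, map_pow]
      exact a6.symm
  obtain ⟨f, hfinj, hf⟩ := exists_hom φ (crv3 m) _ hW
  have hfg2 : AddGroup.FG (MW.Pt (θ ^ 2 * e1) (θ ^ 2 * e2) (θ ^ 2 * e3)) := MW.pt_fg r12 r13 r23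
  have hfg : AddGroup.FG (P3 m) := fg_of_injective f hfinj hfg2
  -- heights in `K₂`
  have hζ : ∀ ζ : L, ζ ^ d = 1 → (φ ζ) ^ d = 1 := fun ζ h => by rw [← map_pow, h, map_one]
  have hhs : ∀ ζ ζ' : L, ζ ^ d = 1 → ζ' ^ d = 1 → logHeight₁ (φ (ζ - ζ')) ≤ l := by
    intro ζ ζ' h h'
    rw [map_sub]
    exact ht_root_sub (by omega) (hζ _ h) (hζ _ h')
  have hhn : logHeight₁ (φ n) ≤ l := hhs _ _ p2 p1
  have hhν : logHeight₁ (ν ^ 2) ≤ l := by
    have h1 : logHeight₁ (ν ^ 3) = 3 * logHeight₁ ν := by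
      rw [logHeight₁_pow]; push_cast; rfl
    have h2 : logHeight₁ (ν ^ 2) = 2 * logHeight₁ ν := by
      rw [logHeight₁_pow]; push_cast; rfl
    rw [hν'] at h1
    have h3 : 0 ≤ logHeight₁ (φ n) := zero_le_logHeight₁ _
    rw [h2]
    linarith
  have hho : logHeight₁ o = 0 := ht_root (by norm_num) ho3
  have hh1 : logHeight₁ e1 ≤ l := by rw [he1]; exact hhν
  have hh2 : logHeight₁ e2 ≤ l := by
    rw [he2]
    have := logHeight₁_mul_le o (ν ^ 2)
    linarith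
  have hh3 : logHeight₁ e3 ≤ l := by
    rw [he3]
    have h1 := logHeight₁_mul_le (o ^ 2) (ν ^ 2)
    have h2 : logHeight₁ (o ^ 2) = 2 * logHeight₁ o := by
      rw [logHeight₁_pow]; push_cast; rfl
    rw [h2, hho] at h1
    linarith
  have hsumE : ∑ z ∈ ({e1, e2, e3, e1 - e2, e1 - e3, e2 - e3, 2} : Finset K₂),
      2 * logHeight₁ z ≤ 42 * l := by
    have h1 : ∀ z ∈ ({e1, e2, e3, e1 - e2, e1 - e3, e2 - e3, 2} : Finset K₂),
        2 * logHeight₁ z ≤ 6 * l := by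
      intro z hz
      simp only [mem_insert, mem_singleton] at hz
      rcases hz with rfl | rfl | rfl | rfl | rfl | rfl | rfl
      · linarith
      · linarith
      · linarith
      · have := logHeight₁_sub_le e1 e2
        linarith
      · have := logHeight₁_sub_le e1 e3
        linarith
      · have := logHeight₁_sub_le e2 e3
        linarith
      · have := ht_two (L := K₂)
        linarith
    refine (sum_le_card_nsmul _ _ _ h1).trans ?_
    rw [nsmul_eq_mul]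
    have h2 : (({e1, e2, e3, e1 - e2, e1 - e3, e2 - e3, 2} : Finset K₂).card : ℝ) ≤ 7 := by
      have h3 : ({e1, e2, e3, e1 - e2, e1 - e3, e2 - e3, 2} : Finset K₂).card ≤ 7 := by
        repeat' refine (card_insert_le _ _).trans (Nat.succ_le_succ ?_)
        simp
      exact_mod_cast h3
    calc _ ≤ 7 * (6 * l) := by gcongr
      _ = _ := by ring
  have hpar : ∀ P Q : MW.Pt (θ ^ 2 * e1) (θ ^ 2 * e2) (θ ^ 2 * e3),
      |HH (RingHom.id K₂) (θ ^ 2) (P + Q) + HH (RingHom.id K₂) (θ ^ 2) (P - Q) -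
        2 * (HH (RingHom.id K₂) (θ ^ 2) P + HH (RingHom.id K₂) (θ ^ 2) Q)| ≤ c3 := by
    intro P Q
    refine (par_glob (RingHom.id K₂) q12 q13 q23 hθ2 P Q).trans ?_
    simp only [RingHom.id_apply]
    rw [hc3]
    have : tw * Real.log 2 ≤ l₀ := hll
    nlinarith [hsumE]
  have hHH0 : HH (RingHom.id K₂) (θ ^ 2)
      (0 : MW.Pt (θ ^ 2 * e1) (θ ^ 2 * e2) (θ ^ 2 * e3)) = 0 := by
    unfold HH
    rw [WeierstrassCurve.Affine.Point.xRep_zero]
    simp
  obtain ⟨q, hq1, hq2, hq3⟩ := canon'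
    (fun P : MW.Pt (θ ^ 2 * e1) (θ ^ 2 * e2) (θ ^ 2 * e3) => HH (RingHom.id K₂) (θ ^ 2) P) c3
    (fun P => HH_nonneg (RingHom.id K₂) (θ ^ 2) P) hHH0 hpar
  -- the height of the coefficients
  set H : ℝ := logHeight₁ (φ (a * b ^ (d - 1))) with hH
  have hHnn : 0 ≤ H := zero_le_logHeight₁ _
  have ha₂ : φ a ≠ 0 := (map_ne_zero φ).2 ha
  have hw₂ : φ w ≠ 0 := (map_ne_zero φ).2 hw0
  have hH' : H = logHeight₁ (φ a * φ b ^ (d - 1)) := by rw [hH, map_mul, map_pow]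
  have hht : ∀ t ∈ Y, dd * logHeight₁ (φ t) ≤ H + d * l := by
    intro t ht
    obtain ⟨⟨u, hu, rfl⟩, -⟩ := hY t ht
    rw [map_div₀, hH']
    exact height_ratio' (by omega) (φ a) (φ b) (φ u) (φ w) ha₂ hw₂ (PP_hom φ hu) (PP_hom φ hw)
  rcases le_or_gt H H0 with hc | hc
  · have h1 := hN₂ K₂ hK₂D (Y.image φ) (by
      intro s hs
      obtain ⟨t, ht, rfl⟩ := mem_image.1 hs
      rw [le_div_iff₀ hdd0]
      have h2 := hht t ht
      have h3 : (d : ℝ) * l ≤ d * l₀ := by gcongr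
      linarith)
    rw [card_image_of_injective _ φ.injective] at h1
    exact h1.trans (Nat.le_add_left _ _)
  by_contra hcard
  push Not at hcard
  have hcard' : F * (6 * d) < Y.card := by omega
  choose! r hr using fun t ht => (hY t ht).2.2
  -- the equation
  have hyc : ∀ t ∈ Y, yc z1 z2 z3 t ^ 2 = k * r t ^ 3 + n ^ 2 := by
    intro t ht
    rw [yc_sq (htz t ht)]
    have h1 : t - z3 ≠ 0 := sub_ne_zero.2 (htz t ht)
    rw [hr t ht, mul_div_assoc, div_self (pow_ne_zero _ h1)]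
    rw [hk]
    ring
  -- the points
  have hns : ∀ t ∈ Y, (crv3 m).toAffine.Nonsingular (k * r t) (k * yc z1 z2 z3 t) :=
    fun t ht => crv3_nonsing hm0 (by
      rw [mul_pow, hyc t ht, hm]
      ring)
  let P : L → P3 m := fun t =>
    if h : t ∈ Y then WeierstrassCurve.Affine.Point.some _ _ (hns t h) else 0
  have hP : ∀ t (h : t ∈ Y), P t = WeierstrassCurve.Affine.Point.some _ _ (hns t h) :=
    fun t h => dif_pos h
  have hX3 : ∀ t ∈ Y, (θ * φ (r t)) ^ 3 = φ (yc z1 z2 z3 t) ^ 2 - φ n ^ 2 := by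
    intro t ht
    have := congrArg φ (hyc t ht)
    rw [map_pow, map_add, map_mul, map_pow, map_pow] at this
    rw [mul_pow, hθ, this]
    ring
  have hyh : ∀ t, logHeight₁ (φ (yc z1 z2 z3 t)) ≤ 8 * l + logHeight₁ (φ t) := by
    intro t
    rw [← yc_map]
    exact ht_yc (by omega) (hζ _ p1) (hζ _ p2) (hζ _ p3)
  have hXh : ∀ t ∈ Y, logHeight₁ (θ * φ (r t)) ≤ 7 * l + logHeight₁ (φ t) := by
    intro t ht
    have h1 : logHeight₁ ((θ * φ (r t)) ^ 3) = 3 * logHeight₁ (θ * φ (r t)) := by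
      rw [logHeight₁_pow]; push_cast; rfl
    rw [hX3 t ht] at h1
    have h2 := logHeight₁_sub_le (φ (yc z1 z2 z3 t) ^ 2) (φ n ^ 2)
    have h3 : logHeight₁ (φ (yc z1 z2 z3 t) ^ 2) = 2 * logHeight₁ (φ (yc z1 z2 z3 t)) := by
      rw [logHeight₁_pow]; push_cast; rfl
    have h4 : logHeight₁ (φ n ^ 2) = 2 * logHeight₁ (φ n) := by
      rw [logHeight₁_pow]; push_cast; rfl
    have h5 := hyh t
    have h6 : 0 ≤ logHeight₁ (φ t) := zero_le_logHeight₁ _
    linarith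
  have hnorm : ∀ t ∈ Y, q (f (P t)) ≤ H / dd + c6 := by
    intro t ht
    have h1 := hq1 (f (P t))
    have h0 : HH (RingHom.id K₂) (θ ^ 2) (f (P t)) = logHeight₁ (θ * φ (r t)) := by
      obtain ⟨h', e⟩ := hf _ _ (hns t ht)
      unfold HH
      rw [hP t ht, e, WeierstrassCurve.Affine.Point.xRep_some]
      simp only [Matrix.cons_val_zero, Matrix.cons_val_one, RingHom.id_apply]
      rw [div_one, map_mul, ← hθ]
      congr 1
      field_simp
    rw [h0, abs_le] at h1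
    have h2 := hXh t ht
    have h3 := hht t ht
    have h4 : logHeight₁ (φ t) ≤ H / dd + d * l₀ / dd := by
      rw [← add_div, le_div_iff₀ hdd0]
      have h3' : (d : ℝ) * l ≤ d * l₀ := by gcongr
      linarith
    rw [hc6, hc5]
    linarith
  set R : ℝ := Real.sqrt (H / dd + c6) with hR
  have hRpos : 0 < H / dd + c6 := by positivity
  have hR0 : 0 < R := Real.sqrt_pos.2 hRpos
  have hR2 : R ^ 2 = H / dd + c6 := Real.sq_sqrt hRpos.le
  obtain ⟨Y', hY', hc1', hclose⟩ := hF (P3 m) hfg (fun P => q (f P)) (fun P => hq2 _)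
    (fun P Q => by rw [map_add, map_sub]; exact hq3 _ _) U hU
    (hUc.trans (Nat.pow_le_pow_left (by omega) 2)) L (6 * d) R hR0 Y P
    (fun t ht => by rw [hR2]; exact hnorm t ht) hcard'
  -- remove the pairs with the same first coordinate
  have hfib : ∀ x ∈ Y'.image r, (Y'.filter fun t => r t = x).card ≤ 2 := by
    intro x _
    rcases (Y'.filter fun t => r t = x).eq_empty_or_nonempty with h | ⟨t0, ht0⟩
    · rw [h, card_empty]; omega
    · rw [mem_filter] at ht0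
      have hinj : Set.InjOn (yc z1 z2 z3) ((Y'.filter fun t => r t = x : Finset L) : Set L) := by
        intro t ht t' ht' h
        rw [coe_filter] at ht ht'
        exact yc_inj n13 n23 (htz t (hY' ht.1)) (htz t' (hY' ht'.1)) h
      refine (card_le_card_of_injOn (t := ({yc z1 z2 z3 t0, -yc z1 z2 z3 t0} : Finset L))
        (yc z1 z2 z3) ?_ hinj).trans card_le_two
      intro t ht
      rw [coe_filter] at ht
      simp only [coe_insert, coe_singleton, Set.mem_insert_iff, Set.mem_singleton_iff]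
      apply sq_eq_sq_iff_eq_or_eq_neg.1
      rw [hyc t (hY' ht.1), hyc t0 (hY' ht0.1), ht.2, ht0.2]
  have himg : 3 * d < (Y'.image r).card := by
    have := card_le_mul_card_image Y' 2 hfib
    omega
  obtain ⟨u, hu1, hu2, hu3⟩ := exists_subset_injOn_image_eq_of_surjOn (Y' : Set L) (Y'.image r)
    (f := r) (by rw [coe_image]; exact Set.surjOn_image r _)
  have hucard : 3 * d < u.card := by
    rw [← hu3] at himg
    exact himg.trans_le card_image_le
  obtain ⟨Y'', hY''u, hc2⟩ := exists_subset_card_eq (Nat.succ_le_iff.2 hucard)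
  have hY'' : Y'' ⊆ Y' := fun t ht => hu1 (hY''u ht)
  have hrinj : ∀ t ∈ Y'', ∀ t' ∈ Y'', r t = r t' → t = t' := fun t ht t' ht' h =>
    hu2 (hY''u ht) (hY''u ht') h
  have hsubY : Y'' ⊆ Y := hY''.trans hY'
  -- over `K₂`
  set xF : K₂ → K₂ := Function.extend φ (fun t => θ * φ (r t)) 0 with hxF
  have hxF' : ∀ t, xF (φ t) = θ * φ (r t) := fun t => φ.injective.extend_apply _ _ t
  have hμ₂ : IsPrimitiveRoot (φ μ) d := hμ.map_of_injective φ.injective
  have hmem : ∀ s ∈ Y''.image φ, ∃ t ∈ Y'', φ t = s := fun s hs => mem_image.1 hs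
  have key := gap3 hμ₂ (by omega) hω₂ (hζ _ p1) (hζ _ p2) (hζ _ p3)
    (fun h => n12 (φ.injective h)) (fun h => n13 (φ.injective h))
    (fun h => n23 (φ.injective h))
    (Y''.image φ) (by rw [card_image_of_injective _ φ.injective]; omega) xF (by
      intro s hs
      obtain ⟨t, ht, rfl⟩ := hmem s hs
      rw [hxF', hX3 t (hsubY ht), yc_map, hn, map_sub]
      ring) (by
      intro s hs s' hs' hne'
      obtain ⟨t, ht, rfl⟩ := hmem s hs
      obtain ⟨t', ht', rfl⟩ := hmem s' hs'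
      rw [hxF', hxF']
      intro h
      apply hne'
      rw [hrinj t ht t' ht' (φ.injective (mul_left_cancel₀ hθ0 h))]) (by
      intro s hs
      obtain ⟨t, ht, rfl⟩ := hmem s hs
      exact fun h => htz t (hsubY ht) (φ.injective h)) (φ a) (φ b) (φ w)
    (PP_hom φ hw) (by
      intro s hs
      obtain ⟨t, ht, rfl⟩ := hmem s hs
      obtain ⟨u, hu, hut⟩ := (hY t (hsubY ht)).1
      exact ⟨φ u, PP_hom φ hu, by rw [hut, map_div₀]⟩)
  rw [← hH'] at key
  have hterm : ∀ p ∈ (Y''.image φ).offDiag,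
      logHeight₁ (xG (φ z2 - φ z1) (xF p.1) (yc (φ z1) (φ z2) (φ z3) p.1) (xF p.2)
        (yc (φ z1) (φ z2) (φ z3) p.2)) ≤ 4 * κ ^ 2 * R ^ 2 + c3 := by
    intro p hp
    rw [mem_offDiag] at hp
    obtain ⟨m1, m2, hne'⟩ := hp
    obtain ⟨t, ht, ht1⟩ := hmem _ m1
    obtain ⟨t', ht', ht2⟩ := hmem _ m2
    have htt : t ≠ t' := by
      rintro rfl
      exact hne' (ht1.symm.trans ht2)
    have k1 := hsubY ht
    have k2 := hsubY ht'
    rw [← ht1, ← ht2, hxF', hxF', yc_map, yc_map]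
    have hrne : r t ≠ r t' := fun h => htt (hrinj t ht t' ht' h)
    have hXne : θ * φ (r t) ≠ θ * φ (r t') := fun h =>
      hrne (φ.injective (mul_left_cancel₀ hθ0 h))
    have hx : φ (k * r t) ≠ φ (k * r t') := fun h =>
      hrne (mul_left_cancel₀ hk0 (φ.injective h))
    have h1 := hq1 (f (P t - P t'))
    have h0 : HH (RingHom.id K₂) (θ ^ 2) (f (P t - P t')) =
        logHeight₁ (xG (φ z2 - φ z1) (θ * φ (r t)) (φ (yc z1 z2 z3 t)) (θ * φ (r t'))
          (φ (yc z1 z2 z3 t'))) := by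
      obtain ⟨h1', g1⟩ := hf _ _ (hns t k1)
      obtain ⟨h2', g2⟩ := hf _ _ (hns t' k2)
      unfold HH
      rw [map_sub, hP _ k1, hP _ k2, g1, g2, xdiff _ _ hx]
      simp only [Matrix.cons_val_zero, Matrix.cons_val_one, RingHom.id_apply]
      rw [div_one]
      congr 1
      have hD : θ * φ (r t) - θ * φ (r t') ≠ 0 := sub_ne_zero.2 hXne
      have s0 : θ ^ 2 * e1 + θ ^ 2 * e2 + θ ^ 2 * e3 = 0 := by
        linear_combination (θ ^ 2) * hsum0
      have x1 : φ (k * r t) = θ ^ 2 * (θ * φ (r t)) := by rw [map_mul, ← hθ]; ring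
      have x2 : φ (k * r t') = θ ^ 2 * (θ * φ (r t')) := by rw [map_mul, ← hθ]; ring
      have y1 : φ (k * yc z1 z2 z3 t) = θ ^ 3 * φ (yc z1 z2 z3 t) := by rw [map_mul, ← hθ]
      have y2 : φ (k * yc z1 z2 z3 t') = θ ^ 3 * φ (yc z1 z2 z3 t') := by rw [map_mul, ← hθ]
      have f1 := hX3 t k1
      have f2 := hX3 t' k2
      rw [s0, x1, x2, y1, y2]
      have hnm : φ z2 - φ z1 = φ n := by rw [hn, map_sub]
      rw [hnm]
      unfold xG
      set X := θ * φ (r t) with hXd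
      set X' := θ * φ (r t') with hXd'
      set y := φ (yc z1 z2 z3 t) with hyd
      set y' := φ (yc z1 z2 z3 t') with hyd'
      have e4 : θ ^ 3 * y + θ ^ 3 * y' = θ ^ 3 * (y + y') := by ring
      have e5 : θ ^ 2 * X - θ ^ 2 * X' = θ ^ 2 * (X - X') := by ring
      rw [e4, e5, eq_div_iff (pow_ne_zero _ hD), div_mul_eq_mul_div, div_eq_iff hθ2]
      have e6 : (θ ^ 3 * (y + y') / (θ ^ 2 * (X - X'))) ^ 2 * (X - X') ^ 2 =
          θ ^ 2 * (y + y') ^ 2 := by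
        field_simp
      have e7 : ((θ ^ 3 * (y + y') / (θ ^ 2 * (X - X'))) ^ 2 - 0 - θ ^ 2 * X - θ ^ 2 * X') *
          (X - X') ^ 2 = (θ ^ 3 * (y + y') / (θ ^ 2 * (X - X'))) ^ 2 * (X - X') ^ 2 -
            θ ^ 2 * (X + X') * (X - X') ^ 2 := by ring
      rw [e7, e6]
      linear_combination (-(θ ^ 2)) * f1 - θ ^ 2 * f2
    rw [h0, abs_le] at h1
    have h5 := hclose _ (hY'' ht) _ (hY'' ht')
    have h7 : (2 * κ * R) ^ 2 = 4 * κ ^ 2 * R ^ 2 := by ring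
    rw [h7] at h5
    linarith
  have hsum := sum_le_card_nsmul _ _ _ hterm
  rw [nsmul_eq_mul] at hsum
  have hoff : (((Y''.image φ).offDiag.card : ℕ) : ℝ) ≤ M := by
    rw [offDiag_card, card_image_of_injective _ φ.injective, hc2]
    have : (3 * d).succ * (3 * d).succ - (3 * d).succ ≤ (3 * d + 1) ^ 2 := by
      rw [pow_two]
      exact Nat.sub_le _ _
    rw [hM]
    exact_mod_cast this
  have hbr : 0 ≤ 4 * κ ^ 2 * R ^ 2 + c3 := by positivity
  have h8 : (((Y''.image φ).offDiag.card : ℕ) : ℝ) * (4 * κ ^ 2 * R ^ 2 + c3) ≤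
      M * (4 * κ ^ 2 * R ^ 2 + c3) := mul_le_mul_of_nonneg_right hoff hbr
  have h9 : M * (4 * κ ^ 2 * R ^ 2 + c3) = R ^ 2 / 16 + M * c3 := by
    rw [hM, hκ]
    field_simp
    ring
  have h10 : ((2 * d + 183 : ℕ) : ℝ) * ((16 * (d ^ 2 + 2 + d) + 1 : ℕ) *
      ((totalWeight K₂ : ℕ) * Real.log 2)) ≤ c1 := by
    rw [hc1]
    have : ((totalWeight K₂ : ℕ) : ℝ) * Real.log 2 ≤ l₀ := hll
    gcongr
  have h11 : H / dd ≤ H / d := by gcongr
  have h12 : 1 / (d : ℝ) * H = H / d := by ring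
  rw [h12] at key
  have h13 : H / d ≤ 4 / 3 * c8 := by
    rw [hc8]
    have h15 := hsum.trans (h8.trans_eq h9)
    have h14 := key.trans (add_le_add h10 (mul_le_mul_of_nonneg_left h15 (by norm_num)))
    rw [hR2] at h14
    have h16 : 0 ≤ H / d := by positivity
    linarith
  rw [div_le_iff₀ hd0] at h13
  rw [hH0] at hc
  linarith

end Pool.Agent.Zk42.UT
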